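import Pool.Agent.W_MP_238801_lc.Base

/-!
# Finite sets inside a model of ZF, and the kernel of an intersecting family
-/

universe u

set_option linter.unusedSectionVars false
set_option linter.unreachableTactic false
set_option linter.unusedTactic false

namespace SIK

variable {M : Type u} [ZFModel M]

/-- `p` is finite in the sense of the model (Kuratowski finite): it belongs to each set `F` which
contains `∅` and is closed under adding one element of `p`. -/
def FinS (p : M) : Prop :=
  ∀ F : M, emp ∈ F → (∀ s x, s ∈ F → x ∈ p → ins x s ∈ F) → p ∈ F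

theorem dfn_FinS : Dfn₁ (FinS : M → Prop) := by
  unfold Dfn₁ FinS; (repeat' (first | with_reducible apply DTm₂.app dtm_prod | with_reducible apply DTm₂.app dtm_cap | with_reducible apply DTm₂.app dtm_diff | with_reducible apply DTm₁.app dtm_Pow | with_reducible apply DTm₂.app dtm_ins | with_reducible apply DTm₂.app dtm_cup | with_reducible apply DTm₁.app dtm_Un | with_reducible apply DTm₂.app dtm_pr | with_reducible apply DTm₁.app dtm_sing | with_reducible apply DTm₂.app dtm_upair | with_reducible apply DTm.sep | with_reducible apply Dfn₂.app dfn_sub | with_reducible apply Dfn.all | with_reducible apply Dfn.ex | with_reducible apply Dfn.not | with_reducible apply Dfn.and | with_reducible apply Dfn.or | with_reducible apply Dfn.imp | with_reducible apply Dfn.iff | with_reducible apply Dfn.eq | with_reducible apply Dfn.mem | with_reducible exact DTm.var _ | with_reducible exact DTm.const _ | with_reducible exact Dfn.constProp _ | with_reducible apply DTm.wk | assumption))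

theorem finS_emp : FinS (emp : M) := fun _ h _ => h

theorem FinS.ins {p : M} (hp : FinS p) (x : M) : FinS (ins x p) := by
  intro F h0 h1
  have h2 : p ∈ F := hp F h0 (fun s y hs hy => h1 s y hs (by rw [mem_ins]; exact Or.inl hy))
  exact h1 p x h2 (by rw [mem_ins]; exact Or.inr rfl)

theorem emp_sub (a : M) : emp ≤ a := fun x hx => (not_mem_emp x hx).elim

/-- Induction for finite sets of the model. -/
theorem FinS.ind {P : M → Prop} (hP : Dfn₁ P) (h0 : P emp)
    (h1 : ∀ s x, FinS s → P s → P (SIK.ins x s)) {p : M} (hp : FinS p) : P p := by
  have hd : Dfn₁ (fun s : M => FinS s ∧ P s) :=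
    Dfn.and (Dfn₁.app dfn_FinS (DTm.var 0)) hP
  have key := hp (sep (Pow p) (fun s => FinS s ∧ P s)) (by
      rw [mem_sep hd, mem_Pow]
      exact ⟨emp_sub p, finS_emp, h0⟩) (by
      intro s x hs hx
      rw [mem_sep hd, mem_Pow] at hs ⊢
      refine ⟨?_, hs.2.1.ins x, h1 s x hs.2.1 hs.2.2⟩
      intro y hy
      rw [mem_ins] at hy
      rcases hy with hy | rfl
      · exact hs.1 y hy
      · exact hx)
  rw [mem_sep hd] at key
  exact key.2.2

theorem FinS.sub {p q : M} (hp : FinS p) (hq : q ≤ p) : FinS q := by
  have key : ∀ q, q ≤ p → FinS q := by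
    refine FinS.ind (P := fun p : M => ∀ q, q ≤ p → FinS q) ?_ ?_ ?_ hp
    · unfold Dfn₁; (repeat' (first | with_reducible apply Dfn₁.app dfn_FinS | with_reducible apply DTm₂.app dtm_prod | with_reducible apply DTm₂.app dtm_cap | with_reducible apply DTm₂.app dtm_diff | with_reducible apply DTm₁.app dtm_Pow | with_reducible apply DTm₂.app dtm_ins | with_reducible apply DTm₂.app dtm_cup | with_reducible apply DTm₁.app dtm_Un | with_reducible apply DTm₂.app dtm_pr | with_reducible apply DTm₁.app dtm_sing | with_reducible apply DTm₂.app dtm_upair | with_reducible apply DTm.sep | with_reducible apply Dfn₂.app dfn_sub | with_reducible apply Dfn.all | with_reducible apply Dfn.ex | with_reducible apply Dfn.not | with_reducible apply Dfn.and | with_reducible apply Dfn.or | with_reducible apply Dfn.imp | with_reducible apply Dfn.iff | with_reducible apply Dfn.eq | with_reducible apply Dfn.mem | with_reducible exact DTm.var _ | with_reducible exact DTm.const _ | with_reducible exact Dfn.constProp _ | with_reducible apply DTm.wk | assumption))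
    · intro q hq
      have : q = emp := eq_emp_iff.2 (fun x hx => not_mem_emp x (hq x hx))
      rw [this]; exact finS_emp
    · intro s x _ ih q hq
      by_cases hx : x ∈ q
      · have h1 : FinS (diff q (sing x)) := by
          apply ih
          intro y hy
          rw [mem_diff, mem_sing] at hy
          have := hq y hy.1
          rw [mem_ins] at this
          exact this.resolve_right hy.2
        have h2 : q = SIK.ins x (diff q (sing x)) := by
          apply ext
          intro y
          rw [mem_ins, mem_diff, mem_sing]
          constructor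
          · intro hy
            by_cases h : y = x
            · exact Or.inr h
            · exact Or.inl ⟨hy, h⟩
          · rintro (h | rfl)
            · exact h.1
            · exact hx
        rw [h2]
        exact h1.ins x
      · apply ih
        intro y hy
        have := hq y hy
        rw [mem_ins] at this
        rcases this with h | rfl
        · exact h
        · exact (hx hy).elim
  exact key q hq

theorem FinS.cup {p q : M} (hp : FinS p) (hq : FinS q) : FinS (cup p q) := by
  refine FinS.ind (P := fun p : M => FinS (SIK.cup p q)) ?_ ?_ ?_ hp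
  · unfold Dfn₁; (repeat' (first | with_reducible apply Dfn₁.app dfn_FinS | with_reducible apply DTm₂.app dtm_prod | with_reducible apply DTm₂.app dtm_cap | with_reducible apply DTm₂.app dtm_diff | with_reducible apply DTm₁.app dtm_Pow | with_reducible apply DTm₂.app dtm_ins | with_reducible apply DTm₂.app dtm_cup | with_reducible apply DTm₁.app dtm_Un | with_reducible apply DTm₂.app dtm_pr | with_reducible apply DTm₁.app dtm_sing | with_reducible apply DTm₂.app dtm_upair | with_reducible apply DTm.sep | with_reducible apply Dfn₂.app dfn_sub | with_reducible apply Dfn.all | with_reducible apply Dfn.ex | with_reducible apply Dfn.not | with_reducible apply Dfn.and | with_reducible apply Dfn.or | with_reducible apply Dfn.imp | with_reducible apply Dfn.iff | with_reducible apply Dfn.eq | with_reducible apply Dfn.mem | with_reducible exact DTm.var _ | with_reducible exact DTm.const _ | with_reducible exact Dfn.constProp _ | with_reducible apply DTm.wk | assumption))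
  · have : SIK.cup emp q = q := by
      apply ext; intro x
      rw [mem_cup]
      exact ⟨fun h => h.resolve_left (not_mem_emp x), Or.inr⟩
    rw [this]; exact hq
  · intro s x _ ih
    have : SIK.cup (SIK.ins x s) q = SIK.ins x (SIK.cup s q) := by
      apply ext; intro y
      rw [mem_cup, mem_ins, mem_ins, mem_cup]
      tauto
    rw [this]; exact ih.ins x

/-- A finite union of finite sets is finite. -/
theorem FinS.Un {c : M} (hc : FinS c) (h : ∀ p, p ∈ c → FinS p) : FinS (Un c) := by
  have key : (∀ p, p ∈ c → FinS p) → FinS (SIK.Un c) := by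
    refine FinS.ind (P := fun c : M => (∀ p, p ∈ c → FinS p) → FinS (SIK.Un c)) ?_ ?_ ?_ hc
    · unfold Dfn₁; (repeat' (first | with_reducible apply Dfn₁.app dfn_FinS | with_reducible apply DTm₂.app dtm_prod | with_reducible apply DTm₂.app dtm_cap | with_reducible apply DTm₂.app dtm_diff | with_reducible apply DTm₁.app dtm_Pow | with_reducible apply DTm₂.app dtm_ins | with_reducible apply DTm₂.app dtm_cup | with_reducible apply DTm₁.app dtm_Un | with_reducible apply DTm₂.app dtm_pr | with_reducible apply DTm₁.app dtm_sing | with_reducible apply DTm₂.app dtm_upair | with_reducible apply DTm.sep | with_reducible apply Dfn₂.app dfn_sub | with_reducible apply Dfn.all | with_reducible apply Dfn.ex | with_reducible apply Dfn.not | with_reducible apply Dfn.and | with_reducible apply Dfn.or | with_reducible apply Dfn.imp | with_reducible apply Dfn.iff | with_reducible apply Dfn.eq | with_reducible apply Dfn.mem | with_reducible exact DTm.var _ | with_reducible exact DTm.const _ | with_reducible exact Dfn.constProp _ | with_reducible apply DTm.wk | assumption))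
    · intro _
      have : SIK.Un (emp : M) = emp := by
        rw [eq_emp_iff]
        intro x hx
        rw [mem_Un] at hx
        obtain ⟨y, hy, -⟩ := hx
        exact not_mem_emp y hy
      rw [this]; exact finS_emp
    · intro s x _ ih hs
      have : SIK.Un (SIK.ins x s) = SIK.cup (SIK.Un s) x := by
        apply ext; intro y
        rw [mem_cup, mem_Un, mem_Un]
        constructor
        · rintro ⟨z, hz, hy⟩
          rw [mem_ins] at hz
          rcases hz with hz | rfl
          · exact Or.inl ⟨z, hz, hy⟩
          · exact Or.inr hy
        · rintro (⟨z, hz, hy⟩ | hy)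
          · exact ⟨z, by rw [mem_ins]; exact Or.inl hz, hy⟩
          · exact ⟨x, by rw [mem_ins]; exact Or.inr rfl, hy⟩
      rw [this]
      refine (ih (fun p hp => hs p ?_)).cup (hs x ?_)
      · rw [mem_ins]; exact Or.inl hp
      · rw [mem_ins]; exact Or.inr rfl
  exact key h

theorem finS_sing (x : M) : FinS (sing x) := by
  have : sing x = SIK.ins x emp := by
    apply ext; intro y
    rw [mem_ins, mem_sing]
    exact ⟨Or.inr, fun h => h.resolve_left (not_mem_emp y)⟩
  rw [this]; exact finS_emp.ins x

/-- The image of a finite set under a definable function is finite (and so is each subset). -/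
theorem FinS.of_image {F : M → M} (hF : DTm₁ F) {A : M} (hA : FinS A) {B : M}
    (hB : ∀ z, z ∈ B → ∃ s, s ∈ A ∧ z = F s) : FinS B := by
  have key : ∀ B : M, (∀ z, z ∈ B → ∃ s, s ∈ A ∧ z = F s) → FinS B := by
    refine FinS.ind (P := fun A : M => ∀ B : M, (∀ z, z ∈ B → ∃ s, s ∈ A ∧ z = F s) → FinS B)
      ?_ ?_ ?_ hA
    · unfold Dfn₁
      have h1 : DTm (fun w : Fin 4 → M => F (w 0)) := DTm₁.app hF (DTm.var 0)
      refine Dfn.all (Dfn.imp (Dfn.all (Dfn.imp ?_ (Dfn.ex (Dfn.and ?_ (Dfn.eq ?_ h1))))) ?_)
      · (repeat' (first | with_reducible apply Dfn₁.app dfn_FinS | with_reducible apply DTm₂.app dtm_prod | with_reducible apply DTm₂.app dtm_cap | with_reducible apply DTm₂.app dtm_diff | with_reducible apply DTm₁.app dtm_Pow | with_reducible apply DTm₂.app dtm_ins | with_reducible apply DTm₂.app dtm_cup | with_reducible apply DTm₁.app dtm_Un | with_reducible apply DTm₂.app dtm_pr | with_reducible apply DTm₁.app dtm_sing | with_reducible apply DTm₂.app dtm_upair | with_reducible apply DTm.sep | with_reducible apply Dfn₂.app dfn_sub | with_reducible apply Dfn.all | with_reducible apply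 Dfn.ex | with_reducible apply Dfn.not | with_reducible apply Dfn.and | with_reducible apply Dfn.or | with_reducible apply Dfn.imp | with_reducible apply Dfn.iff | with_reducible apply Dfn.eq | with_reducible apply Dfn.mem | with_reducible exact DTm.var _ | with_reducible exact DTm.const _ | with_reducible exact Dfn.constProp _ | with_reducible apply DTm.wk | assumption))
      · (repeat' (first | with_reducible apply Dfn₁.app dfn_FinS | with_reducible apply DTm₂.app dtm_prod | with_reducible apply DTm₂.app dtm_cap | with_reducible apply DTm₂.app dtm_diff | with_reducible apply DTm₁.app dtm_Pow | with_reducible apply DTm₂.app dtm_ins | with_reducible apply DTm₂.app dtm_cup | with_reducible apply DTm₁.app dtm_Un | with_reducible apply DTm₂.app dtm_pr | with_reducible apply DTm₁.app dtm_sing | with_reducible apply DTm₂.app dtm_upair | with_reducible apply DTm.sep | with_reducible apply Dfn₂.app dfn_sub | with_reducible apply Dfn.all | with_reducible apply Dfn.ex | with_reducible apply Dfn.not | with_reducible apply Dfn.and | with_reducible apply Dfn.or | with_reducible apply Dfn.imp | with_reducible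 apply Dfn.iff | with_reducible apply Dfn.eq | with_reducible apply Dfn.mem | with_reducible exact DTm.var _ | with_reducible exact DTm.const _ | with_reducible exact Dfn.constProp _ | with_reducible apply DTm.wk | assumption))
      · (repeat' (first | with_reducible apply Dfn₁.app dfn_FinS | with_reducible apply DTm₂.app dtm_prod | with_reducible apply DTm₂.app dtm_cap | with_reducible apply DTm₂.app dtm_diff | with_reducible apply DTm₁.app dtm_Pow | with_reducible apply DTm₂.app dtm_ins | with_reducible apply DTm₂.app dtm_cup | with_reducible apply DTm₁.app dtm_Un | with_reducible apply DTm₂.app dtm_pr | with_reducible apply DTm₁.app dtm_sing | with_reducible apply DTm₂.app dtm_upair | with_reducible apply DTm.sep | with_reducible apply Dfn₂.app dfn_sub | with_reducible apply Dfn.all | with_reducible apply Dfn.ex | with_reducible apply Dfn.not | with_reducible apply Dfn.and | with_reducible apply Dfn.or | with_reducible apply Dfn.imp | with_reducible apply Dfn.iff | with_reducible apply Dfn.eq | with_reducible apply Dfn.mem | with_reducible exact DTm.var _ | with_reducible exact DTm.const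 _ | with_reducible exact Dfn.constProp _ | with_reducible apply DTm.wk | assumption))
      · (repeat' (first | with_reducible apply Dfn₁.app dfn_FinS | with_reducible apply DTm₂.app dtm_prod | with_reducible apply DTm₂.app dtm_cap | with_reducible apply DTm₂.app dtm_diff | with_reducible apply DTm₁.app dtm_Pow | with_reducible apply DTm₂.app dtm_ins | with_reducible apply DTm₂.app dtm_cup | with_reducible apply DTm₁.app dtm_Un | with_reducible apply DTm₂.app dtm_pr | with_reducible apply DTm₁.app dtm_sing | with_reducible apply DTm₂.app dtm_upair | with_reducible apply DTm.sep | with_reducible apply Dfn₂.app dfn_sub | with_reducible apply Dfn.all | with_reducible apply Dfn.ex | with_reducible apply Dfn.not | with_reducible apply Dfn.and | with_reducible apply Dfn.or | with_reducible apply Dfn.imp | with_reducible apply Dfn.iff | with_reducible apply Dfn.eq | with_reducible apply Dfn.mem | with_reducible exact DTm.var _ | with_reducible exact DTm.const _ | with_reducible exact Dfn.constProp _ | with_reducible apply DTm.wk | assumption))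
    · intro B hB
      have : B = emp := by
        rw [eq_emp_iff]
        intro x hx
        obtain ⟨s, hs, -⟩ := hB x hx
        exact not_mem_emp s hs
      rw [this]; exact finS_emp
    · intro A x _ ih B hB
      have h1 : FinS (diff B (sing (F x))) := by
        apply ih
        intro z hz
        rw [mem_diff, mem_sing] at hz
        obtain ⟨s, hs, rfl⟩ := hB z hz.1
        rw [mem_ins] at hs
        rcases hs with hs | rfl
        · exact ⟨s, hs, rfl⟩
        · exact (hz.2 rfl).elim
      refine (h1.ins (F x)).sub ?_
      intro y hy
      rw [mem_ins, mem_diff, mem_sing]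
      by_cases h : y = F x
      · exact Or.inr h
      · exact Or.inl ⟨hy, h⟩
  exact key B hB

/-! ### Levels -/

/-- the step `[U]^{≤ n} ↦ [U]^{≤ n+1}` -/
noncomputable def Phi (U N : M) : M :=
  sep (Pow U) (fun t => t ∈ N ∨ ∃ s x, s ∈ N ∧ x ∈ U ∧ t = ins x s)

theorem mem_Phi {U N t : M} :
    t ∈ Phi U N ↔ t ≤ U ∧ (t ∈ N ∨ ∃ s x, s ∈ N ∧ x ∈ U ∧ t = ins x s) := by
  unfold Phi
  rw [mem_sep (by unfold Dfn₁; (repeat' (first | with_reducible apply Dfn₁.app dfn_FinS | with_reducible apply DTm₂.app dtm_prod | with_reducible apply DTm₂.app dtm_cap | with_reducible apply DTm₂.app dtm_diff | with_reducible apply DTm₁.app dtm_Pow | with_reducible apply DTm₂.app dtm_ins | with_reducible apply DTm₂.app dtm_cup | with_reducible apply DTm₁.app dtm_Un | with_reducible apply DTm₂.app dtm_pr | with_reducible apply DTm₁.app dtm_sing | with_reducible apply DTm₂.app dtm_upair | with_reducible apply DTm.sep | with_reducible apply Dfn₂.app dfn_sub | with_reducible apply Dfn.all | with_reducible apply Dfn.ex | with_reducible apply Dfn.not | with_reducible apply Dfn.and | with_reducible apply Dfn.or | with_reducible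 apply Dfn.imp | with_reducible apply Dfn.iff | with_reducible apply Dfn.eq | with_reducible apply Dfn.mem | with_reducible exact DTm.var _ | with_reducible exact DTm.const _ | with_reducible exact Dfn.constProp _ | with_reducible apply DTm.wk | assumption))), mem_Pow]

theorem dtm_Phi : DTm₂ (Phi : M → M → M) := by
  unfold DTm₂ Phi; (repeat' (first | with_reducible apply Dfn₁.app dfn_FinS | with_reducible apply DTm₂.app dtm_prod | with_reducible apply DTm₂.app dtm_cap | with_reducible apply DTm₂.app dtm_diff | with_reducible apply DTm₁.app dtm_Pow | with_reducible apply DTm₂.app dtm_ins | with_reducible apply DTm₂.app dtm_cup | with_reducible apply DTm₁.app dtm_Un | with_reducible apply DTm₂.app dtm_pr | with_reducible apply DTm₁.app dtm_sing | with_reducible apply DTm₂.app dtm_upair | with_reducible apply DTm.sep | with_reducible apply Dfn₂.app dfn_sub | with_reducible apply Dfn.all | with_reducible apply Dfn.ex | with_reducible apply Dfn.not | with_reducible apply Dfn.and | with_reducible apply Dfn.or | with_reducible apply Dfn.imp | with_reducible apply Dfn.iff | with_reducible apply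 Dfn.eq | with_reducible apply Dfn.mem | with_reducible exact DTm.var _ | with_reducible exact DTm.const _ | with_reducible exact Dfn.constProp _ | with_reducible apply DTm.wk | assumption))

/-- `N` is one of the sets `[U]^{≤ n}` -/
def Lev (U N : M) : Prop :=
  ∀ G : M, sing emp ∈ G → (∀ N', N' ∈ G → Phi U N' ∈ G) → N ∈ G

theorem dfn_Lev : Dfn₂ (Lev : M → M → Prop) := by
  unfold Dfn₂ Lev; (repeat' (first | with_reducible apply DTm₂.app dtm_Phi | with_reducible apply Dfn₁.app dfn_FinS | with_reducible apply DTm₂.app dtm_prod | with_reducible apply DTm₂.app dtm_cap | with_reducible apply DTm₂.app dtm_diff | with_reducible apply DTm₁.app dtm_Pow | with_reducible apply DTm₂.app dtm_ins | with_reducible apply DTm₂.app dtm_cup | with_reducible apply DTm₁.app dtm_Un | with_reducible apply DTm₂.app dtm_pr | with_reducible apply DTm₁.app dtm_sing | with_reducible apply DTm₂.app dtm_upair | with_reducible apply DTm.sep | with_reducible apply Dfn₂.app dfn_sub | with_reducible apply Dfn.all | with_reducible apply Dfn.ex | with_reducible apply Dfn.not | with_reducible apply Dfn.and | with_reducible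 apply Dfn.or | with_reducible apply Dfn.imp | with_reducible apply Dfn.iff | with_reducible apply Dfn.eq | with_reducible apply Dfn.mem | with_reducible exact DTm.var _ | with_reducible exact DTm.const _ | with_reducible exact Dfn.constProp _ | with_reducible apply DTm.wk | assumption))

theorem Lev.base (U : M) : Lev U (sing emp) := fun _ h _ => h

theorem Lev.step {U N : M} (h : Lev U N) : Lev U (Phi U N) :=
  fun G h0 h1 => h1 N (h G h0 h1)

theorem Phi_sub (U N : M) : Phi U N ≤ Pow U := by
  intro t ht
  rw [mem_Phi] at ht
  rw [mem_Pow]; exact ht.1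

theorem Lev.ind {U : M} {P : M → Prop} (hP : Dfn₁ P) (h0 : P (sing emp))
    (h1 : ∀ N, Lev U N → P N → P (Phi U N)) {N : M} (hN : Lev U N) : P N := by
  have hd : Dfn₁ (fun N : M => Lev U N ∧ P N) :=
    Dfn.and (Dfn₂.app dfn_Lev (DTm.const U) (DTm.var 0)) hP
  have key := hN (sep (Pow (Pow U)) (fun N => Lev U N ∧ P N)) (by
      rw [mem_sep hd, mem_Pow]
      refine ⟨?_, Lev.base U, h0⟩
      intro x hx
      rw [mem_sing] at hx
      rw [hx, mem_Pow]
      exact emp_sub U) (by
      intro N' hN'
      rw [mem_sep hd] at hN' ⊢
      exact ⟨by rw [mem_Pow]; exact Phi_sub U N', hN'.2.1.step, h1 N' hN'.2.1 hN'.2.2⟩)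
  rw [mem_sep hd] at key
  exact key.2.2

theorem Lev.sub {U N : M} (hN : Lev U N) : N ≤ Pow U := by
  refine Lev.ind (P := fun N => N ≤ Pow U) ?_ ?_ ?_ hN
  · unfold Dfn₁; (repeat' (first | with_reducible apply Dfn₂.app dfn_Lev | with_reducible apply DTm₂.app dtm_Phi | with_reducible apply Dfn₁.app dfn_FinS | with_reducible apply DTm₂.app dtm_prod | with_reducible apply DTm₂.app dtm_cap | with_reducible apply DTm₂.app dtm_diff | with_reducible apply DTm₁.app dtm_Pow | with_reducible apply DTm₂.app dtm_ins | with_reducible apply DTm₂.app dtm_cup | with_reducible apply DTm₁.app dtm_Un | with_reducible apply DTm₂.app dtm_pr | with_reducible apply DTm₁.app dtm_sing | with_reducible apply DTm₂.app dtm_upair | with_reducible apply DTm.sep | with_reducible apply Dfn₂.app dfn_sub | with_reducible apply Dfn.all | with_reducible apply Dfn.ex | with_reducible apply Dfn.not | with_reducible apply Dfn.and | with_reducible apply Dfn.or | with_reducible apply Dfn.imp | with_reducible apply Dfn.iff | with_reducible apply Dfn.eq | with_reducible apply Dfn.mem | with_reducible exact DTm.var _ | with_reducible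 exact DTm.const _ | with_reducible exact Dfn.constProp _ | with_reducible apply DTm.wk | assumption))
  · intro x hx
    rw [mem_sing] at hx
    rw [hx, mem_Pow]
    exact emp_sub U
  · intro N _ _
    exact Phi_sub U N

theorem Lev.subset {U N T : M} (hN : Lev U N) (hT : T ∈ N) : T ≤ U := by
  have := hN.sub T hT
  rwa [mem_Pow] at this

theorem Lev.sub_Phi {U N : M} (hN : Lev U N) : N ≤ Phi U N := by
  intro t ht
  rw [mem_Phi]
  exact ⟨hN.subset ht, Or.inl ht⟩

theorem Phi_mono {U N N' : M} (h : N ≤ N') : Phi U N ≤ Phi U N' := by
  intro t ht
  rw [mem_Phi] at ht ⊢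
  refine ⟨ht.1, ?_⟩
  rcases ht.2 with h1 | ⟨s, x, hs, hx, rfl⟩
  · exact Or.inl (h t h1)
  · exact Or.inr ⟨s, x, h s hs, hx, rfl⟩

theorem Lev.ins_mem {U N s x : M} (hN : Lev U N) (hs : s ∈ N) (hx : x ∈ U) :
    ins x s ∈ Phi U N := by
  rw [mem_Phi]
  refine ⟨?_, Or.inr ⟨s, x, hs, hx, rfl⟩⟩
  intro y hy
  rw [mem_ins] at hy
  rcases hy with hy | rfl
  · exact hN.subset hs y hy
  · exact hx

theorem Lev.emp_mem {U N : M} (hN : Lev U N) : emp ∈ N := by
  refine Lev.ind (P := fun N => emp ∈ N) ?_ ?_ ?_ hN
  · unfold Dfn₁; (repeat' (first | with_reducible apply Dfn₂.app dfn_Lev | with_reducible apply DTm₂.app dtm_Phi | with_reducible apply Dfn₁.app dfn_FinS | with_reducible apply DTm₂.app dtm_prod | with_reducible apply DTm₂.app dtm_cap | with_reducible apply DTm₂.app dtm_diff | with_reducible apply DTm₁.app dtm_Pow | with_reducible apply DTm₂.app dtm_ins | with_reducible apply DTm₂.app dtm_cup | with_reducible apply DTm₁.app dtm_Un | with_reducible apply DTm₂.app dtm_pr | with_reducible apply DTm₁.app dtm_sing | with_reducible apply DTm₂.app dtm_upair | with_reducible apply DTm.sep | with_reducible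 apply Dfn₂.app dfn_sub | with_reducible apply Dfn.all | with_reducible apply Dfn.ex | with_reducible apply Dfn.not | with_reducible apply Dfn.and | with_reducible apply Dfn.or | with_reducible apply Dfn.imp | with_reducible apply Dfn.iff | with_reducible apply Dfn.eq | with_reducible apply Dfn.mem | with_reducible exact DTm.var _ | with_reducible exact DTm.const _ | with_reducible exact Dfn.constProp _ | with_reducible apply DTm.wk | assumption))
  · rw [mem_sing]
  · intro N hN h
    exact hN.sub_Phi _ h

theorem Lev.finS {U N : M} (hN : Lev U N) : ∀ T, T ∈ N → FinS T := by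
  refine Lev.ind (P := fun N => ∀ T, T ∈ N → FinS T) ?_ ?_ ?_ hN
  · unfold Dfn₁; (repeat' (first | with_reducible apply Dfn₂.app dfn_Lev | with_reducible apply DTm₂.app dtm_Phi | with_reducible apply Dfn₁.app dfn_FinS | with_reducible apply DTm₂.app dtm_prod | with_reducible apply DTm₂.app dtm_cap | with_reducible apply DTm₂.app dtm_diff | with_reducible apply DTm₁.app dtm_Pow | with_reducible apply DTm₂.app dtm_ins | with_reducible apply DTm₂.app dtm_cup | with_reducible apply DTm₁.app dtm_Un | with_reducible apply DTm₂.app dtm_pr | with_reducible apply DTm₁.app dtm_sing | with_reducible apply DTm₂.app dtm_upair | with_reducible apply DTm.sep | with_reducible apply Dfn₂.app dfn_sub | with_reducible apply Dfn.all | with_reducible apply Dfn.ex | with_reducible apply Dfn.not | with_reducible apply Dfn.and | with_reducible apply Dfn.or | with_reducible apply Dfn.imp | with_reducible apply Dfn.iff | with_reducible apply Dfn.eq | with_reducible apply Dfn.mem | with_reducible exact DTm.var _ | with_reducible exact DTm.const _ | with_reducible exact Dfn.constProp _ | with_reducible apply DTm.wk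 | assumption))
  · intro T hT
    rw [mem_sing] at hT
    rw [hT]; exact finS_emp
  · intro N _ ih T hT
    rw [mem_Phi] at hT
    rcases hT.2 with h | ⟨s, x, hs, -, rfl⟩
    · exact ih T h
    · exact (ih s hs).ins x

theorem Lev.down {U N : M} (hN : Lev U N) :
    ∀ T x, T ∈ Phi U N → x ∈ T → diff T (sing x) ∈ N := by
  refine Lev.ind (P := fun N => ∀ T x, T ∈ Phi U N → x ∈ T → diff T (sing x) ∈ N)
    ?_ ?_ ?_ hN
  · unfold Dfn₁; (repeat' (first | with_reducible apply Dfn₂.app dfn_Lev | with_reducible apply DTm₂.app dtm_Phi | with_reducible apply Dfn₁.app dfn_FinS | with_reducible apply DTm₂.app dtm_prod | with_reducible apply DTm₂.app dtm_cap | with_reducible apply DTm₂.app dtm_diff | with_reducible apply DTm₁.app dtm_Pow | with_reducible apply DTm₂.app dtm_ins | with_reducible apply DTm₂.app dtm_cup | with_reducible apply DTm₁.app dtm_Un | with_reducible apply DTm₂.app dtm_pr | with_reducible apply DTm₁.app dtm_sing | with_reducible apply DTm₂.app dtm_upair | with_reducible apply DTm.sep | with_reducible apply Dfn₂.app dfn_sub | with_reducible apply Dfn.all | with_reducible apply Dfn.ex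 | with_reducible apply Dfn.not | with_reducible apply Dfn.and | with_reducible apply Dfn.or | with_reducible apply Dfn.imp | with_reducible apply Dfn.iff | with_reducible apply Dfn.eq | with_reducible apply Dfn.mem | with_reducible exact DTm.var _ | with_reducible exact DTm.const _ | with_reducible exact Dfn.constProp _ | with_reducible apply DTm.wk | assumption))
  · intro T x hT hx
    rw [mem_sing, eq_emp_iff]
    intro y hy
    rw [mem_diff, mem_sing] at hy
    rw [mem_Phi] at hT
    rcases hT.2 with h | ⟨s, z, hs, -, rfl⟩
    · rw [mem_sing] at h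
      rw [h] at hx
      exact not_mem_emp x hx
    · rw [mem_sing] at hs
      rw [hs] at hx hy
      rw [mem_ins] at hx hy
      have h1 := hx.resolve_left (not_mem_emp x)
      have h2 := hy.1.resolve_left (not_mem_emp y)
      exact hy.2 (h2.trans h1.symm)
  · intro N hN ih T x hT hx
    rw [mem_Phi] at hT
    rcases hT.2 with h | ⟨s, y, hs, hy, rfl⟩
    · exact hN.sub_Phi _ (ih T x h hx)
    · by_cases hxs : x ∈ s
      · have h1 := ih s x hs hxs
        by_cases hxy : x = y
        · subst hxy
          have : diff (ins x s) (sing x) = diff s (sing x) := by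
            apply ext; intro z
            rw [mem_diff, mem_diff, mem_ins, mem_sing]
            tauto
          rw [this]
          exact hN.sub_Phi _ h1
        · have : diff (ins y s) (sing x) = ins y (diff s (sing x)) := by
            apply ext; intro z
            rw [mem_diff, mem_ins, mem_ins, mem_diff, mem_sing]
            constructor
            · rintro ⟨h | h, h'⟩
              · exact Or.inl ⟨h, h'⟩
              · exact Or.inr h
            · rintro (⟨h, h'⟩ | h)
              · exact ⟨Or.inl h, h'⟩
              · exact ⟨Or.inr h, fun h' => hxy (h'.symm.trans h)⟩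
          rw [this]
          exact hN.ins_mem h1 hy
      · have hxy : x = y := by
          rw [mem_ins] at hx
          exact hx.resolve_left hxs
        subst hxy
        have : diff (ins x s) (sing x) = s := by
          apply ext; intro z
          rw [mem_diff, mem_ins, mem_sing]
          constructor
          · rintro ⟨h | h, h'⟩
            · exact h
            · exact (h' h).elim
          · intro h
            exact ⟨Or.inl h, fun h' => hxs (h' ▸ h)⟩
        rw [this]
        exact hs

theorem exists_Lev {U T : M} (hT : FinS T) (hTU : T ≤ U) : ∃ N, Lev U N ∧ T ∈ N := by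
  have key : T ≤ U → ∃ N, Lev U N ∧ T ∈ N := by
    refine FinS.ind (P := fun T => T ≤ U → ∃ N, Lev U N ∧ T ∈ N) ?_ ?_ ?_ hT
    · unfold Dfn₁; (repeat' (first | with_reducible apply Dfn₂.app dfn_Lev | with_reducible apply DTm₂.app dtm_Phi | with_reducible apply Dfn₁.app dfn_FinS | with_reducible apply DTm₂.app dtm_prod | with_reducible apply DTm₂.app dtm_cap | with_reducible apply DTm₂.app dtm_diff | with_reducible apply DTm₁.app dtm_Pow | with_reducible apply DTm₂.app dtm_ins | with_reducible apply DTm₂.app dtm_cup | with_reducible apply DTm₁.app dtm_Un | with_reducible apply DTm₂.app dtm_pr | with_reducible apply DTm₁.app dtm_sing | with_reducible apply DTm₂.app dtm_upair | with_reducible apply DTm.sep | with_reducible apply Dfn₂.app dfn_sub | with_reducible apply Dfn.all | with_reducible apply Dfn.ex | with_reducible apply Dfn.not | with_reducible apply Dfn.and | with_reducible apply Dfn.or | with_reducible apply Dfn.imp | with_reducible apply Dfn.iff | with_reducible apply Dfn.eq | with_reducible apply Dfn.mem | with_reducible exact DTm.var _ | with_reducible exact DTm.const _ | with_reducible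 exact Dfn.constProp _ | with_reducible apply DTm.wk | assumption))
    · intro _
      exact ⟨sing emp, Lev.base U, by rw [mem_sing]⟩
    · intro s x _ ih h
      obtain ⟨N, hN, hs⟩ := ih (fun y hy => h y (by rw [mem_ins]; exact Or.inl hy))
      exact ⟨Phi U N, hN.step, hN.ins_mem hs (h x (by rw [mem_ins]; exact Or.inr rfl))⟩
  exact key hTU

theorem Lev.cases {U N : M} (hN : Lev U N) : N = sing emp ∨ ∃ N', Lev U N' ∧ N = Phi U N' := by
  refine Lev.ind (P := fun N => N = sing emp ∨ ∃ N', Lev U N' ∧ N = Phi U N') ?_ ?_ ?_ hN
  · unfold Dfn₁; (repeat' (first | with_reducible apply Dfn₂.app dfn_Lev | with_reducible apply DTm₂.app dtm_Phi | with_reducible apply Dfn₁.app dfn_FinS | with_reducible apply DTm₂.app dtm_prod | with_reducible apply DTm₂.app dtm_cap | with_reducible apply DTm₂.app dtm_diff | with_reducible apply DTm₁.app dtm_Pow | with_reducible apply DTm₂.app dtm_ins | with_reducible apply DTm₂.app dtm_cup | with_reducible apply DTm₁.app dtm_Un | with_reducible apply DTm₂.app dtm_pr | with_reducible apply DTm₁.app dtm_sing | with_reducible apply DTm₂.app dtm_upair | with_reducible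 apply DTm.sep | with_reducible apply Dfn₂.app dfn_sub | with_reducible apply Dfn.all | with_reducible apply Dfn.ex | with_reducible apply Dfn.not | with_reducible apply Dfn.and | with_reducible apply Dfn.or | with_reducible apply Dfn.imp | with_reducible apply Dfn.iff | with_reducible apply Dfn.eq | with_reducible apply Dfn.mem | with_reducible exact DTm.var _ | with_reducible exact DTm.const _ | with_reducible exact Dfn.constProp _ | with_reducible apply DTm.wk | assumption))
  · exact Or.inl rfl
  · intro N hN _
    exact Or.inr ⟨N, hN, rfl⟩

theorem sing_emp_sub {U N : M} (hN : Lev U N) : sing emp ≤ N := by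
  intro x hx
  rw [mem_sing] at hx
  rw [hx]; exact hN.emp_mem

theorem Lev.total {U N₁ : M} (h₁ : Lev U N₁) : ∀ N, Lev U N → N ≤ N₁ ∨ Phi U N₁ ≤ N := by
  refine Lev.ind (P := fun N₁ => ∀ N, Lev U N → N ≤ N₁ ∨ Phi U N₁ ≤ N) ?_ ?_ ?_ h₁
  · unfold Dfn₁; (repeat' (first | with_reducible apply Dfn₂.app dfn_Lev | with_reducible apply DTm₂.app dtm_Phi | with_reducible apply Dfn₁.app dfn_FinS | with_reducible apply DTm₂.app dtm_prod | with_reducible apply DTm₂.app dtm_cap | with_reducible apply DTm₂.app dtm_diff | with_reducible apply DTm₁.app dtm_Pow | with_reducible apply DTm₂.app dtm_ins | with_reducible apply DTm₂.app dtm_cup | with_reducible apply DTm₁.app dtm_Un | with_reducible apply DTm₂.app dtm_pr | with_reducible apply DTm₁.app dtm_sing | with_reducible apply DTm₂.app dtm_upair | with_reducible apply DTm.sep | with_reducible apply Dfn₂.app dfn_sub | with_reducible apply Dfn.all | with_reducible apply Dfn.ex | with_reducible apply Dfn.not | with_reducible apply Dfn.and | with_reducible apply Dfn.or | with_reducible apply Dfn.imp | with_reducible apply Dfn.iff | with_reducible apply Dfn.eq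 | with_reducible apply Dfn.mem | with_reducible exact DTm.var _ | with_reducible exact DTm.const _ | with_reducible exact Dfn.constProp _ | with_reducible apply DTm.wk | assumption))
  · intro N hN
    rcases hN.cases with rfl | ⟨N', hN', rfl⟩
    · exact Or.inl (Sub.refl _)
    · exact Or.inr (Phi_mono (sing_emp_sub hN'))
  · intro N₁ h₁ ih N hN
    rcases hN.cases with rfl | ⟨N', hN', rfl⟩
    · exact Or.inl (sing_emp_sub h₁.step)
    · rcases ih N' hN' with h | h
      · exact Or.inl (Phi_mono h)
      · exact Or.inr (Phi_mono h)

/-! ### Covers -/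

/-- `T` meets each member of `F` -/
def Cov (F T : M) : Prop := ∀ E, E ∈ F → ∃ x, x ∈ T ∧ x ∈ E

theorem dfn_Cov : Dfn₂ (Cov : M → M → Prop) := by
  unfold Dfn₂ Cov; (repeat' (first | with_reducible apply Dfn₂.app dfn_Lev | with_reducible apply DTm₂.app dtm_Phi | with_reducible apply Dfn₁.app dfn_FinS | with_reducible apply DTm₂.app dtm_prod | with_reducible apply DTm₂.app dtm_cap | with_reducible apply DTm₂.app dtm_diff | with_reducible apply DTm₁.app dtm_Pow | with_reducible apply DTm₂.app dtm_ins | with_reducible apply DTm₂.app dtm_cup | with_reducible apply DTm₁.app dtm_Un | with_reducible apply DTm₂.app dtm_pr | with_reducible apply DTm₁.app dtm_sing | with_reducible apply DTm₂.app dtm_upair | with_reducible apply DTm.sep | with_reducible apply Dfn₂.app dfn_sub | with_reducible apply Dfn.all | with_reducible apply Dfn.ex | with_reducible apply Dfn.not | with_reducible apply Dfn.and | with_reducible apply Dfn.or | with_reducible apply Dfn.imp | with_reducible apply Dfn.iff | with_reducible apply Dfn.eq | with_reducible apply Dfn.mem | with_reducible exact DTm.var _ | with_reducible exact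 DTm.const _ | with_reducible exact Dfn.constProp _ | with_reducible apply DTm.wk | assumption))

/-- the members of `F` which do not contain `y` -/
noncomputable def del (F y : M) : M := sep F (fun E => y ∉ E)

theorem mem_del {F y E : M} : E ∈ del F y ↔ E ∈ F ∧ y ∉ E := by
  unfold del; rw [mem_sep]; unfold Dfn₁; (repeat' (first | with_reducible apply Dfn₂.app dfn_Cov | with_reducible apply Dfn₂.app dfn_Lev | with_reducible apply DTm₂.app dtm_Phi | with_reducible apply Dfn₁.app dfn_FinS | with_reducible apply DTm₂.app dtm_prod | with_reducible apply DTm₂.app dtm_cap | with_reducible apply DTm₂.app dtm_diff | with_reducible apply DTm₁.app dtm_Pow | with_reducible apply DTm₂.app dtm_ins | with_reducible apply DTm₂.app dtm_cup | with_reducible apply DTm₁.app dtm_Un | with_reducible apply DTm₂.app dtm_pr | with_reducible apply DTm₁.app dtm_sing | with_reducible apply DTm₂.app dtm_upair | with_reducible apply DTm.sep | with_reducible apply Dfn₂.app dfn_sub | with_reducible apply Dfn.all | with_reducible apply Dfn.ex | with_reducible apply Dfn.not | with_reducible apply Dfn.and | with_reducible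 apply Dfn.or | with_reducible apply Dfn.imp | with_reducible apply Dfn.iff | with_reducible apply Dfn.eq | with_reducible apply Dfn.mem | with_reducible exact DTm.var _ | with_reducible exact DTm.const _ | with_reducible exact Dfn.constProp _ | with_reducible apply DTm.wk | assumption))

theorem dtm_del : DTm₂ (del : M → M → M) := by
  unfold DTm₂ del; (repeat' (first | with_reducible apply Dfn₂.app dfn_Cov | with_reducible apply Dfn₂.app dfn_Lev | with_reducible apply DTm₂.app dtm_Phi | with_reducible apply Dfn₁.app dfn_FinS | with_reducible apply DTm₂.app dtm_prod | with_reducible apply DTm₂.app dtm_cap | with_reducible apply DTm₂.app dtm_diff | with_reducible apply DTm₁.app dtm_Pow | with_reducible apply DTm₂.app dtm_ins | with_reducible apply DTm₂.app dtm_cup | with_reducible apply DTm₁.app dtm_Un | with_reducible apply DTm₂.app dtm_pr | with_reducible apply DTm₁.app dtm_sing | with_reducible apply DTm₂.app dtm_upair | with_reducible apply DTm.sep | with_reducible apply Dfn₂.app dfn_sub | with_reducible apply Dfn.all | with_reducible apply Dfn.ex | with_reducible apply Dfn.not | with_reducible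 apply Dfn.and | with_reducible apply Dfn.or | with_reducible apply Dfn.imp | with_reducible apply Dfn.iff | with_reducible apply Dfn.eq | with_reducible apply Dfn.mem | with_reducible exact DTm.var _ | with_reducible exact DTm.const _ | with_reducible exact Dfn.constProp _ | with_reducible apply DTm.wk | assumption))

theorem finite_covers_aux {U N F : M} (hN : Lev U N) (hF : ∀ E, E ∈ F → FinS E)
    (hno : ∀ T, T ∈ N → ¬ Cov F T)
    (hfin : ∀ y, y ∈ U → FinS (sep N (fun T => Cov (del F y) T))) :
    FinS (sep (Phi U N) (fun T => Cov F T)) := by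
  have hne : ∃ D, D ∈ F := by
    by_contra hcon
    push Not at hcon
    exact hno emp hN.emp_mem (fun E hE => (hcon E hE).elim)
  obtain ⟨D, hD⟩ := hne
  have hd1 : Dfn₁ (fun T : M => Cov F T) := by unfold Dfn₁; (repeat' (first | with_reducible apply DTm₂.app dtm_del | with_reducible apply Dfn₂.app dfn_Cov | with_reducible apply Dfn₂.app dfn_Lev | with_reducible apply DTm₂.app dtm_Phi | with_reducible apply Dfn₁.app dfn_FinS | with_reducible apply DTm₂.app dtm_prod | with_reducible apply DTm₂.app dtm_cap | with_reducible apply DTm₂.app dtm_diff | with_reducible apply DTm₁.app dtm_Pow | with_reducible apply DTm₂.app dtm_ins | with_reducible apply DTm₂.app dtm_cup | with_reducible apply DTm₁.app dtm_Un | with_reducible apply DTm₂.app dtm_pr | with_reducible apply DTm₁.app dtm_sing | with_reducible apply DTm₂.app dtm_upair | with_reducible apply DTm.sep | with_reducible apply Dfn₂.app dfn_sub | with_reducible apply Dfn.all | with_reducible apply Dfn.ex | with_reducible apply Dfn.not | with_reducible apply Dfn.and | with_reducible apply Dfn.or | with_reducible apply Dfn.imp | with_reducible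 apply Dfn.iff | with_reducible apply Dfn.eq | with_reducible apply Dfn.mem | with_reducible exact DTm.var _ | with_reducible exact DTm.const _ | with_reducible exact Dfn.constProp _ | with_reducible apply DTm.wk | assumption))
  have hd2 : ∀ s : M, Dfn₁ (fun T : M => Cov F T ∧ ∃ x, x ∈ T ∧ x ∈ s) := by
    intro s; unfold Dfn₁; (repeat' (first | with_reducible apply DTm₂.app dtm_del | with_reducible apply Dfn₂.app dfn_Cov | with_reducible apply Dfn₂.app dfn_Lev | with_reducible apply DTm₂.app dtm_Phi | with_reducible apply Dfn₁.app dfn_FinS | with_reducible apply DTm₂.app dtm_prod | with_reducible apply DTm₂.app dtm_cap | with_reducible apply DTm₂.app dtm_diff | with_reducible apply DTm₁.app dtm_Pow | with_reducible apply DTm₂.app dtm_ins | with_reducible apply DTm₂.app dtm_cup | with_reducible apply DTm₁.app dtm_Un | with_reducible apply DTm₂.app dtm_pr | with_reducible apply DTm₁.app dtm_sing | with_reducible apply DTm₂.app dtm_upair | with_reducible apply DTm.sep | with_reducible apply Dfn₂.app dfn_sub | with_reducible apply Dfn.all | with_reducible apply Dfn.ex | with_reducible apply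 Dfn.not | with_reducible apply Dfn.and | with_reducible apply Dfn.or | with_reducible apply Dfn.imp | with_reducible apply Dfn.iff | with_reducible apply Dfn.eq | with_reducible apply Dfn.mem | with_reducible exact DTm.var _ | with_reducible exact DTm.const _ | with_reducible exact Dfn.constProp _ | with_reducible apply DTm.wk | assumption))
  have hd3 : ∀ y : M, Dfn₁ (fun T : M => Cov F T ∧ y ∈ T) := by
    intro y; unfold Dfn₁; (repeat' (first | with_reducible apply DTm₂.app dtm_del | with_reducible apply Dfn₂.app dfn_Cov | with_reducible apply Dfn₂.app dfn_Lev | with_reducible apply DTm₂.app dtm_Phi | with_reducible apply Dfn₁.app dfn_FinS | with_reducible apply DTm₂.app dtm_prod | with_reducible apply DTm₂.app dtm_cap | with_reducible apply DTm₂.app dtm_diff | with_reducible apply DTm₁.app dtm_Pow | with_reducible apply DTm₂.app dtm_ins | with_reducible apply DTm₂.app dtm_cup | with_reducible apply DTm₁.app dtm_Un | with_reducible apply DTm₂.app dtm_pr | with_reducible apply DTm₁.app dtm_sing | with_reducible apply DTm₂.app dtm_upair | with_reducible apply DTm.sep | with_reducible apply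 Dfn₂.app dfn_sub | with_reducible apply Dfn.all | with_reducible apply Dfn.ex | with_reducible apply Dfn.not | with_reducible apply Dfn.and | with_reducible apply Dfn.or | with_reducible apply Dfn.imp | with_reducible apply Dfn.iff | with_reducible apply Dfn.eq | with_reducible apply Dfn.mem | with_reducible exact DTm.var _ | with_reducible exact DTm.const _ | with_reducible exact Dfn.constProp _ | with_reducible apply DTm.wk | assumption))
  have hd4 : ∀ y : M, Dfn₁ (fun T : M => Cov (del F y) T) := by
    intro y; unfold Dfn₁; (repeat' (first | with_reducible apply DTm₂.app dtm_del | with_reducible apply Dfn₂.app dfn_Cov | with_reducible apply Dfn₂.app dfn_Lev | with_reducible apply DTm₂.app dtm_Phi | with_reducible apply Dfn₁.app dfn_FinS | with_reducible apply DTm₂.app dtm_prod | with_reducible apply DTm₂.app dtm_cap | with_reducible apply DTm₂.app dtm_diff | with_reducible apply DTm₁.app dtm_Pow | with_reducible apply DTm₂.app dtm_ins | with_reducible apply DTm₂.app dtm_cup | with_reducible apply DTm₁.app dtm_Un | with_reducible apply DTm₂.app dtm_pr | with_reducible apply DTm₁.app dtm_sing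 | with_reducible apply DTm₂.app dtm_upair | with_reducible apply DTm.sep | with_reducible apply Dfn₂.app dfn_sub | with_reducible apply Dfn.all | with_reducible apply Dfn.ex | with_reducible apply Dfn.not | with_reducible apply Dfn.and | with_reducible apply Dfn.or | with_reducible apply Dfn.imp | with_reducible apply Dfn.iff | with_reducible apply Dfn.eq | with_reducible apply Dfn.mem | with_reducible exact DTm.var _ | with_reducible exact DTm.const _ | with_reducible exact Dfn.constProp _ | with_reducible apply DTm.wk | assumption))
  have hy : ∀ y : M, FinS (sep (Phi U N) (fun T => Cov F T ∧ y ∈ T)) := by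
    intro y
    by_cases hyU : y ∈ U
    · refine FinS.of_image (F := fun s => SIK.ins y s) (by unfold DTm₁; (repeat' (first | with_reducible apply DTm₂.app dtm_del | with_reducible apply Dfn₂.app dfn_Cov | with_reducible apply Dfn₂.app dfn_Lev | with_reducible apply DTm₂.app dtm_Phi | with_reducible apply Dfn₁.app dfn_FinS | with_reducible apply DTm₂.app dtm_prod | with_reducible apply DTm₂.app dtm_cap | with_reducible apply DTm₂.app dtm_diff | with_reducible apply DTm₁.app dtm_Pow | with_reducible apply DTm₂.app dtm_ins | with_reducible apply DTm₂.app dtm_cup | with_reducible apply DTm₁.app dtm_Un | with_reducible apply DTm₂.app dtm_pr | with_reducible apply DTm₁.app dtm_sing | with_reducible apply DTm₂.app dtm_upair | with_reducible apply DTm.sep | with_reducible apply Dfn₂.app dfn_sub | with_reducible apply Dfn.all | with_reducible apply Dfn.ex | with_reducible apply Dfn.not | with_reducible apply Dfn.and | with_reducible apply Dfn.or | with_reducible apply Dfn.imp | with_reducible apply Dfn.iff | with_reducible apply Dfn.eq | with_reducible apply Dfn.mem | with_reducible exact DTm.var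 _ | with_reducible exact DTm.const _ | with_reducible exact Dfn.constProp _ | with_reducible apply DTm.wk | assumption))) (hfin y hyU) ?_
      intro T hT
      rw [mem_sep (hd3 y)] at hT
      obtain ⟨hT1, hT2, hT3⟩ := hT
      refine ⟨diff T (sing y), ?_, ?_⟩
      · rw [mem_sep (hd4 y)]
        refine ⟨hN.down T y hT1 hT3, ?_⟩
        intro E hE
        rw [mem_del] at hE
        obtain ⟨x, hx, hxE⟩ := hT2 E hE.1
        refine ⟨x, ?_, hxE⟩
        rw [mem_diff, mem_sing]
        exact ⟨hx, fun h => hE.2 (h ▸ hxE)⟩
      · apply ext; intro z
        rw [mem_ins, mem_diff, mem_sing]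
        constructor
        · intro hz
          by_cases h : z = y
          · exact Or.inr h
          · exact Or.inl ⟨hz, h⟩
        · rintro (h | rfl)
          · exact h.1
          · exact hT3
    · have : sep (Phi U N) (fun T => Cov F T ∧ y ∈ T) = emp := by
        rw [eq_emp_iff]
        intro T hT
        rw [mem_sep (hd3 y)] at hT
        exact hyU (hN.step.subset hT.1 y hT.2.2)
      rw [this]; exact finS_emp
  have key : FinS (sep (Phi U N) (fun T => Cov F T ∧ ∃ x, x ∈ T ∧ x ∈ D)) := by
    refine FinS.ind (P := fun s : M => FinS (sep (Phi U N) (fun T => Cov F T ∧ ∃ x, x ∈ T ∧ x ∈ s)))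
      ?_ ?_ ?_ (hF D hD)
    · unfold Dfn₁; (repeat' (first | with_reducible apply DTm₂.app dtm_del | with_reducible apply Dfn₂.app dfn_Cov | with_reducible apply Dfn₂.app dfn_Lev | with_reducible apply DTm₂.app dtm_Phi | with_reducible apply Dfn₁.app dfn_FinS | with_reducible apply DTm₂.app dtm_prod | with_reducible apply DTm₂.app dtm_cap | with_reducible apply DTm₂.app dtm_diff | with_reducible apply DTm₁.app dtm_Pow | with_reducible apply DTm₂.app dtm_ins | with_reducible apply DTm₂.app dtm_cup | with_reducible apply DTm₁.app dtm_Un | with_reducible apply DTm₂.app dtm_pr | with_reducible apply DTm₁.app dtm_sing | with_reducible apply DTm₂.app dtm_upair | with_reducible apply DTm.sep | with_reducible apply Dfn₂.app dfn_sub | with_reducible apply Dfn.all | with_reducible apply Dfn.ex | with_reducible apply Dfn.not | with_reducible apply Dfn.and | with_reducible apply Dfn.or | with_reducible apply Dfn.imp | with_reducible apply Dfn.iff | with_reducible apply Dfn.eq | with_reducible apply Dfn.mem | with_reducible exact DTm.var _ | with_reducible exact DTm.const _ | with_reducible exact Dfn.constProp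 _ | with_reducible apply DTm.wk | assumption))
    · have : sep (Phi U N) (fun T => Cov F T ∧ ∃ x : M, x ∈ T ∧ x ∈ (emp : M)) = emp := by
        rw [eq_emp_iff]
        intro T hT
        rw [mem_sep (hd2 emp)] at hT
        obtain ⟨-, -, x, -, hx⟩ := hT
        exact not_mem_emp x hx
      rw [this]; exact finS_emp
    · intro s y _ ih
      refine (ih.cup (hy y)).sub ?_
      intro T hT
      rw [mem_sep (hd2 _)] at hT
      rw [mem_cup, mem_sep (hd2 s), mem_sep (hd3 y)]
      obtain ⟨h1, h2, x, h3, h4⟩ := hT
      rw [mem_ins] at h4
      rcases h4 with h4 | rfl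
      · exact Or.inl ⟨h1, h2, x, h3, h4⟩
      · exact Or.inr ⟨h1, h2, h3⟩
  refine key.sub ?_
  intro T hT
  rw [mem_sep hd1] at hT
  rw [mem_sep (hd2 D)]
  exact ⟨hT.1, hT.2, hT.2 D hD⟩

theorem finite_covers {U N : M} (hN : Lev U N) :
    ∀ F, (∀ E, E ∈ F → FinS E) → (∀ T, T ∈ N → ¬ Cov F T) →
      FinS (sep (Phi U N) (fun T => Cov F T)) := by
  refine Lev.ind (P := fun N => ∀ F, (∀ E, E ∈ F → FinS E) → (∀ T, T ∈ N → ¬ Cov F T) →
      FinS (sep (Phi U N) (fun T => Cov F T))) ?_ ?_ ?_ hN
  · unfold Dfn₁; (repeat' (first | with_reducible apply DTm₂.app dtm_del | with_reducible apply Dfn₂.app dfn_Cov | with_reducible apply Dfn₂.app dfn_Lev | with_reducible apply DTm₂.app dtm_Phi | with_reducible apply Dfn₁.app dfn_FinS | with_reducible apply DTm₂.app dtm_prod | with_reducible apply DTm₂.app dtm_cap | with_reducible apply DTm₂.app dtm_diff | with_reducible apply DTm₁.app dtm_Pow | with_reducible apply DTm₂.app dtm_ins | with_reducible apply DTm₂.app dtm_cup | with_reducible apply DTm₁.app dtm_Un | with_reducible apply DTm₂.app dtm_pr | with_reducible apply DTm₁.app dtm_sing | with_reducible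 apply DTm₂.app dtm_upair | with_reducible apply DTm.sep | with_reducible apply Dfn₂.app dfn_sub | with_reducible apply Dfn.all | with_reducible apply Dfn.ex | with_reducible apply Dfn.not | with_reducible apply Dfn.and | with_reducible apply Dfn.or | with_reducible apply Dfn.imp | with_reducible apply Dfn.iff | with_reducible apply Dfn.eq | with_reducible apply Dfn.mem | with_reducible exact DTm.var _ | with_reducible exact DTm.const _ | with_reducible exact Dfn.constProp _ | with_reducible apply DTm.wk | assumption))
  · intro F hF hno
    refine finite_covers_aux (Lev.base U) hF hno ?_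
    intro y _
    refine (finS_sing (emp : M)).sub ?_
    intro T hT
    rw [mem_sep (by unfold Dfn₁; (repeat' (first | with_reducible apply DTm₂.app dtm_del | with_reducible apply Dfn₂.app dfn_Cov | with_reducible apply Dfn₂.app dfn_Lev | with_reducible apply DTm₂.app dtm_Phi | with_reducible apply Dfn₁.app dfn_FinS | with_reducible apply DTm₂.app dtm_prod | with_reducible apply DTm₂.app dtm_cap | with_reducible apply DTm₂.app dtm_diff | with_reducible apply DTm₁.app dtm_Pow | with_reducible apply DTm₂.app dtm_ins | with_reducible apply DTm₂.app dtm_cup | with_reducible apply DTm₁.app dtm_Un | with_reducible apply DTm₂.app dtm_pr | with_reducible apply DTm₁.app dtm_sing | with_reducible apply DTm₂.app dtm_upair | with_reducible apply DTm.sep | with_reducible apply Dfn₂.app dfn_sub | with_reducible apply Dfn.all | with_reducible apply Dfn.ex | with_reducible apply Dfn.not | with_reducible apply Dfn.and | with_reducible apply Dfn.or | with_reducible apply Dfn.imp | with_reducible apply Dfn.iff | with_reducible apply Dfn.eq | with_reducible apply Dfn.mem | with_reducible exact DTm.var _ | with_reducible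 exact DTm.const _ | with_reducible exact Dfn.constProp _ | with_reducible apply DTm.wk | assumption)))] at hT
    exact hT.1
  · intro N hN ih F hF hno
    refine finite_covers_aux hN.step hF hno ?_
    intro y hy
    refine ih (del F y) ?_ ?_
    · intro E hE
      rw [mem_del] at hE
      exact hF E hE.1
    · intro T hT hc
      refine hno (ins y T) (hN.ins_mem hT hy) ?_
      intro E hE
      by_cases hyE : y ∈ E
      · exact ⟨y, by rw [mem_ins]; exact Or.inr rfl, hyE⟩
      · obtain ⟨x, hx, hxE⟩ := hc E (by rw [mem_del]; exact ⟨hE, hyE⟩)
        exact ⟨x, by rw [mem_ins]; exact Or.inl hx, hxE⟩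

/-- **Kernel lemma.**  `W i d` says that `d` belongs to the family attached to `i`. If for each
`i ∈ a` this is a nonempty pairwise intersecting family of finite subsets of `i`, then there is a
definable assignment `i ↦ K i` of nonempty finite subsets of `i`.

Proof.  A cover for `i` is a finite `T ⊆ i` that meets each `d` with `W i d`; each such `d` is a
cover.  Take the covers of minimal size: there are only finitely many of them (`finite_covers`).
`K i` is the union of the covers of minimal size. -/
theorem kernel (a : M) (W : M → M → Prop) (hW : Dfn₂ W)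
    (h1 : ∀ i, i ∈ a → ∃ d, W i d)
    (h2 : ∀ i, i ∈ a → ∀ d, W i d → FinS d ∧ d ≤ i)
    (h3 : ∀ i, i ∈ a → ∀ d d', W i d → W i d' → ∃ x, x ∈ d ∧ x ∈ d') :
    ∃ K : M → M, DTm₁ K ∧ ∀ i, i ∈ a → FinS (K i) ∧ (∃ x, x ∈ K i) ∧ K i ≤ i := by
  have hF : DTm₁ (fun i : M => sep (Pow i) (fun d => W i d)) := by
    unfold DTm₁
    refine Dfn.eq (DTm.var 0) (DTm.sep (DTm₁.app dtm_Pow (DTm.var _)) ?_)
    exact Dfn₂.app hW (DTm.var _) (DTm.var 0)
  obtain ⟨F, hFdef⟩ : ∃ F : M → M, F = fun i : M => sep (Pow i) (fun d => W i d) := ⟨_, rfl⟩
  rw [← hFdef] at hF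
  have hWi : ∀ i : M, Dfn₁ (fun d : M => W i d) := fun i =>
    Dfn₂.app hW (DTm.const i) (DTm.var 0)
  have memF : ∀ i d : M, d ∈ F i ↔ d ≤ i ∧ W i d := by
    intro i d
    rw [hFdef]
    show d ∈ sep (Pow i) (fun d => W i d) ↔ _
    rw [mem_sep (hWi i), mem_Pow]
  -- the minimality property
  have hQ : Dfn₂ (fun i T : M => ∃ N, Lev (Un a) N ∧ T ∈ N ∧ Cov (F i) T ∧
      ∀ N', Lev (Un a) N' → (∃ T', T' ∈ N' ∧ Cov (F i) T') → T ∈ N') := by
    unfold Dfn₂
    have e1 : ∀ {n : ℕ} {t : (Fin n → M) → M}, DTm t → DTm (fun v => F (t v)) :=
      fun ht => DTm₁.app hF ht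
    refine Dfn.ex (Dfn.and ?_ (Dfn.and ?_ (Dfn.and (Dfn₂.app dfn_Cov (e1 ?_) ?_)
      (Dfn.all (Dfn.imp ?_ (Dfn.imp (Dfn.ex (Dfn.and ?_ (Dfn₂.app dfn_Cov (e1 ?_) ?_))) ?_)))))) <;>
      (repeat' (first | with_reducible apply DTm₂.app dtm_del | with_reducible apply Dfn₂.app dfn_Cov | with_reducible apply Dfn₂.app dfn_Lev | with_reducible apply DTm₂.app dtm_Phi | with_reducible apply Dfn₁.app dfn_FinS | with_reducible apply DTm₂.app dtm_prod | with_reducible apply DTm₂.app dtm_cap | with_reducible apply DTm₂.app dtm_diff | with_reducible apply DTm₁.app dtm_Pow | with_reducible apply DTm₂.app dtm_ins | with_reducible apply DTm₂.app dtm_cup | with_reducible apply DTm₁.app dtm_Un | with_reducible apply DTm₂.app dtm_pr | with_reducible apply DTm₁.app dtm_sing | with_reducible apply DTm₂.app dtm_upair | with_reducible apply DTm.sep | with_reducible apply Dfn₂.app dfn_sub | with_reducible apply Dfn.all | with_reducible apply Dfn.ex | with_reducible apply Dfn.not | with_reducible apply Dfn.and | with_reducible apply Dfn.or | with_reducible apply Dfn.imp | with_reducible apply Dfn.iff | with_reducible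 apply Dfn.eq | with_reducible apply Dfn.mem | with_reducible exact DTm.var _ | with_reducible exact DTm.const _ | with_reducible exact Dfn.constProp _ | with_reducible apply DTm.wk | assumption))
  obtain ⟨Q, hQdef⟩ : ∃ Q : M → M → Prop, Q = fun i T : M => ∃ N, Lev (Un a) N ∧ T ∈ N ∧
      Cov (F i) T ∧ ∀ N', Lev (Un a) N' → (∃ T', T' ∈ N' ∧ Cov (F i) T') → T ∈ N' := ⟨_, rfl⟩
  rw [← hQdef] at hQ
  have hK : ∀ i : M, Dfn₁ (fun x : M => ∃ T, Q i T ∧ x ∈ T) := by
    intro i
    exact Dfn.ex (Dfn.and (Dfn₂.app hQ (DTm.const i) (DTm.var 0))
      (Dfn.mem (DTm.var 1) (DTm.var 0)))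
  refine ⟨fun i => sep i (fun x => ∃ T, Q i T ∧ x ∈ T), ?_, ?_⟩
  · unfold DTm₁
    refine Dfn.eq (DTm.var 0) (DTm.sep (DTm.var _) ?_)
    exact Dfn.ex (Dfn.and (Dfn₂.app hQ (DTm.var _) (DTm.var 0))
      (Dfn.mem (DTm.var 1) (DTm.var 0)))
  · intro i hi
    have hiU : i ≤ Un a := fun x hx => by rw [mem_Un]; exact ⟨i, hi, hx⟩
    obtain ⟨d, hd⟩ := h1 i hi
    have hdF : d ∈ F i := (memF i d).2 ⟨(h2 i hi d hd).2, hd⟩
    have hFfin : ∀ E, E ∈ F i → FinS E := fun E hE => (h2 i hi E ((memF i E).1 hE).2).1
    -- a level without a cover whose successor has one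
    have hlev : ∃ N, Lev (Un a) N ∧ (∀ T, T ∈ N → ¬ Cov (F i) T) ∧
        ∃ T, T ∈ Phi (Un a) N ∧ Cov (F i) T := by
      by_contra hcon
      push Not at hcon
      have hall : ∀ N, Lev (Un a) N → ∀ T, T ∈ N → ¬ Cov (F i) T := by
        intro N hN
        refine Lev.ind (P := fun N => ∀ T, T ∈ N → ¬ Cov (F i) T) ?_ ?_ ?_ hN
        · unfold Dfn₁; (repeat' (first | with_reducible apply DTm₂.app dtm_del | with_reducible apply Dfn₂.app dfn_Cov | with_reducible apply Dfn₂.app dfn_Lev | with_reducible apply DTm₂.app dtm_Phi | with_reducible apply Dfn₁.app dfn_FinS | with_reducible apply DTm₂.app dtm_prod | with_reducible apply DTm₂.app dtm_cap | with_reducible apply DTm₂.app dtm_diff | with_reducible apply DTm₁.app dtm_Pow | with_reducible apply DTm₂.app dtm_ins | with_reducible apply DTm₂.app dtm_cup | with_reducible apply DTm₁.app dtm_Un | with_reducible apply DTm₂.app dtm_pr | with_reducible apply DTm₁.app dtm_sing | with_reducible apply DTm₂.app dtm_upair | with_reducible apply DTm.sep | with_reducible apply Dfn₂.app dfn_sub | with_reducible apply Dfn.all | with_reducible apply Dfn.ex |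 with_reducible apply Dfn.not | with_reducible apply Dfn.and | with_reducible apply Dfn.or | with_reducible apply Dfn.imp | with_reducible apply Dfn.iff | with_reducible apply Dfn.eq | with_reducible apply Dfn.mem | with_reducible exact DTm.var _ | with_reducible exact DTm.const _ | with_reducible exact Dfn.constProp _ | with_reducible apply DTm.wk | assumption))
        · intro T hT hc
          rw [mem_sing] at hT
          obtain ⟨x, hx, -⟩ := hc d hdF
          rw [hT] at hx
          exact not_mem_emp x hx
        · intro N hN hno T hT
          exact hcon N hN hno T hT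
      obtain ⟨N, hN, hdN⟩ := exists_Lev (h2 i hi d hd).1 ((h2 i hi d hd).2.trans hiU)
      refine hall N hN d hdN ?_
      intro E hE
      exact h3 i hi d E hd ((memF i E).1 hE).2
    obtain ⟨N, hN, hno, T, hT, hTc⟩ := hlev
    have hCfin := finite_covers hN (F i) hFfin hno
    have hCd : Dfn₁ (fun T : M => Cov (F i) T) := by unfold Dfn₁; (repeat' (first | with_reducible apply DTm₂.app dtm_del | with_reducible apply Dfn₂.app dfn_Cov | with_reducible apply Dfn₂.app dfn_Lev | with_reducible apply DTm₂.app dtm_Phi | with_reducible apply Dfn₁.app dfn_FinS | with_reducible apply DTm₂.app dtm_prod | with_reducible apply DTm₂.app dtm_cap | with_reducible apply DTm₂.app dtm_diff | with_reducible apply DTm₁.app dtm_Pow | with_reducible apply DTm₂.app dtm_ins | with_reducible apply DTm₂.app dtm_cup | with_reducible apply DTm₁.app dtm_Un | with_reducible apply DTm₂.app dtm_pr | with_reducible apply DTm₁.app dtm_sing | with_reducible apply DTm₂.app dtm_upair | with_reducible apply DTm.sep | with_reducible apply Dfn₂.app dfn_sub | with_reducible apply Dfn.all | with_reducible apply Dfn.ex | with_reducible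 apply Dfn.not | with_reducible apply Dfn.and | with_reducible apply Dfn.or | with_reducible apply Dfn.imp | with_reducible apply Dfn.iff | with_reducible apply Dfn.eq | with_reducible apply Dfn.mem | with_reducible exact DTm.var _ | with_reducible exact DTm.const _ | with_reducible exact Dfn.constProp _ | with_reducible apply DTm.wk | assumption))
    refine ⟨?_, ?_, ?_⟩
    · have hUn : FinS (Un (sep (Phi (Un a) N) (fun T => Cov (F i) T))) := by
        refine hCfin.Un ?_
        intro p hp
        rw [mem_sep hCd] at hp
        exact hN.step.finS p hp.1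
      refine hUn.sub ?_
      intro x hx
      rw [mem_sep (hK i)] at hx
      obtain ⟨-, T', hT', hxT'⟩ := hx
      rw [hQdef] at hT'
      obtain ⟨N', hN', hTN', hc', hmin⟩ := hT'
      rw [mem_Un]
      refine ⟨T', ?_, hxT'⟩
      rw [mem_sep hCd]
      exact ⟨hmin (Phi (Un a) N) hN.step ⟨T, hT, hTc⟩, hc'⟩
    · obtain ⟨x, hxT, hxd⟩ := hTc d hdF
      refine ⟨x, ?_⟩
      rw [mem_sep (hK i)]
      refine ⟨(h2 i hi d hd).2 x hxd, T, ?_, hxT⟩
      rw [hQdef]
      refine ⟨Phi (Un a) N, hN.step, hT, hTc, ?_⟩
      rintro N' hN' ⟨T', hT', hc'⟩
      rcases hN.total N' hN' with h | h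
      · exact (hno T' (h T' hT') hc').elim
      · exact h T hT
    · intro x hx
      rw [mem_sep (hK i)] at hx
      exact hx.1

end SIK
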