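import Pool.Agent.W_MP_238801_lc.RO
import Pool.Agent.W_MP_238801_lc.Kernel

/-!
# Injectivity of complete Boolean algebras implies the Axiom of Choice, inside a model of ZF
-/

universe u

set_option linter.unusedSectionVars false
set_option linter.unreachableTactic false
set_option linter.unusedTactic false

namespace SIK

variable {M : Type u} [ZFModel M]

/-! ### Choice for finite sets -/

/-- `{i} × s` inside `P` -/
noncomputable def cyl (P i s : M) : M := sep P (fun p => ∃ x, p = pr i x ∧ x ∈ s)

theorem mem_cyl {P i s p : M} : p ∈ cyl P i s ↔ p ∈ P ∧ ∃ x, p = pr i x ∧ x ∈ s := by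
  unfold cyl; rw [mem_sep]; unfold Dfn₁; (repeat' (first | with_reducible apply DTm₂.app dtm_del | with_reducible apply Dfn₂.app dfn_Cov | with_reducible apply Dfn₂.app dfn_Lev | with_reducible apply DTm₂.app dtm_Phi | with_reducible apply Dfn₁.app dfn_FinS | with_reducible apply DTm₂.app dtm_RO | with_reducible apply DTm₃.app dtm_cpl | with_reducible apply DTm₃.app dtm_rc | with_reducible apply DTm₂.app dtm_prod | with_reducible apply DTm₂.app dtm_cap | with_reducible apply DTm₂.app dtm_diff | with_reducible apply DTm₁.app dtm_Pow | with_reducible apply DTm₂.app dtm_ins | with_reducible apply DTm₂.app dtm_cup | with_reducible apply DTm₁.app dtm_Un | with_reducible apply DTm₂.app dtm_pr | with_reducible apply DTm₁.app dtm_sing | with_reducible apply DTm₂.app dtm_upair | with_reducible apply DTm.sep | with_reducible apply Dfn₂.app dfn_sub | with_reducible apply Dfn.all | with_reducible apply Dfn.ex | with_reducible apply Dfn.not | with_reducible apply Dfn.and | with_reducible apply Dfn.or | with_reducible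 apply Dfn.imp | with_reducible apply Dfn.iff | with_reducible apply Dfn.eq | with_reducible apply Dfn.mem | with_reducible exact DTm.var _ | with_reducible exact DTm.const _ | with_reducible exact Dfn.constProp _ | with_reducible apply DTm.wk | assumption))

theorem dtm_cyl : DTm₃ (cyl : M → M → M → M) := by
  unfold DTm₃ cyl; (repeat' (first | with_reducible apply DTm₂.app dtm_del | with_reducible apply Dfn₂.app dfn_Cov | with_reducible apply Dfn₂.app dfn_Lev | with_reducible apply DTm₂.app dtm_Phi | with_reducible apply Dfn₁.app dfn_FinS | with_reducible apply DTm₂.app dtm_RO | with_reducible apply DTm₃.app dtm_cpl | with_reducible apply DTm₃.app dtm_rc | with_reducible apply DTm₂.app dtm_prod | with_reducible apply DTm₂.app dtm_cap | with_reducible apply DTm₂.app dtm_diff | with_reducible apply DTm₁.app dtm_Pow | with_reducible apply DTm₂.app dtm_ins | with_reducible apply DTm₂.app dtm_cup | with_reducible apply DTm₁.app dtm_Un | with_reducible apply DTm₂.app dtm_pr | with_reducible apply DTm₁.app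 dtm_sing | with_reducible apply DTm₂.app dtm_upair | with_reducible apply DTm.sep | with_reducible apply Dfn₂.app dfn_sub | with_reducible apply Dfn.all | with_reducible apply Dfn.ex | with_reducible apply Dfn.not | with_reducible apply Dfn.and | with_reducible apply Dfn.or | with_reducible apply Dfn.imp | with_reducible apply Dfn.iff | with_reducible apply Dfn.eq | with_reducible apply Dfn.mem | with_reducible exact DTm.var _ | with_reducible exact DTm.const _ | with_reducible exact Dfn.constProp _ | with_reducible apply DTm.wk | assumption))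

theorem finite_choice (hI : Injectivity (ZFModel.E (M := M))) (a : M) (K : M → M)
    (hK : DTm₁ K) (hf : ∀ i, i ∈ a → FinS (K i) ∧ (∃ x, x ∈ K i) ∧ K i ≤ i) :
    ∃ f : M, (∀ p, p ∈ f → ∃ x y, x ∈ a ∧ p = pr x y) ∧
      ∀ x, x ∈ a → ∃ y, y ∈ x ∧ ∀ z, pr x z ∈ f ↔ z = y := by
  have dK : Dfn₁ (fun p : M => ∃ i x, p = pr i x ∧ x ∈ K i) := by
    unfold Dfn₁
    apply Dfn.ex; apply Dfn.ex; apply Dfn.and
    · (repeat' (first | with_reducible apply DTm₃.app dtm_cyl | with_reducible apply DTm₂.app dtm_del | with_reducible apply Dfn₂.app dfn_Cov | with_reducible apply Dfn₂.app dfn_Lev | with_reducible apply DTm₂.app dtm_Phi | with_reducible apply Dfn₁.app dfn_FinS | with_reducible apply DTm₂.app dtm_RO | with_reducible apply DTm₃.app dtm_cpl | with_reducible apply DTm₃.app dtm_rc | with_reducible apply DTm₂.app dtm_prod | with_reducible apply DTm₂.app dtm_cap | with_reducible apply DTm₂.app dtm_diff | with_reducible apply DTm₁.app dtm_Pow | with_reducible apply DTm₂.app dtm_ins | with_reducible apply DTm₂.app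 dtm_cup | with_reducible apply DTm₁.app dtm_Un | with_reducible apply DTm₂.app dtm_pr | with_reducible apply DTm₁.app dtm_sing | with_reducible apply DTm₂.app dtm_upair | with_reducible apply DTm.sep | with_reducible apply Dfn₂.app dfn_sub | with_reducible apply Dfn.all | with_reducible apply Dfn.ex | with_reducible apply Dfn.not | with_reducible apply Dfn.and | with_reducible apply Dfn.or | with_reducible apply Dfn.imp | with_reducible apply Dfn.iff | with_reducible apply Dfn.eq | with_reducible apply Dfn.mem | with_reducible exact DTm.var _ | with_reducible exact DTm.const _ | with_reducible exact Dfn.constProp _ | with_reducible apply DTm.wk | assumption))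
    · exact Dfn.mem (DTm.var _) (hK.app (DTm.var _))
  obtain ⟨P0, hP00⟩ : ∃ P0 : M, ∀ p, p ∈ P0 ↔ p ∈ prod a (Un a) ∧
      ∃ i x, p = pr i x ∧ x ∈ K i := exists_sep dK _
  have hP0 : ∀ i x, pr i x ∈ P0 ↔ i ∈ a ∧ x ∈ K i := by
    intro i x
    rw [hP00, pr_mem_prod]
    constructor
    · rintro ⟨⟨hi, hx⟩, i', x', hp, hx'⟩
      obtain ⟨rfl, rfl⟩ := pr_inj hp
      exact ⟨hi, hx'⟩
    · rintro ⟨hi, hx⟩
      exact ⟨⟨hi, mem_Un.2 ⟨i, hi, (hf i hi).2.2 x hx⟩⟩, i, x, rfl, hx⟩
  have hP0' : ∀ p, p ∈ P0 → ∃ i x, p = pr i x ∧ i ∈ a ∧ x ∈ K i := by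
    intro p hp
    obtain ⟨i, x, rfl, hx⟩ := ((hP00 p).1 hp).2
    exact ⟨i, x, rfl, ((hP0 i x).1 hp).1, hx⟩
  obtain ⟨R, hR⟩ := exists_rel (P := fun x y : M => x = y) (by unfold Dfn₂; (repeat' (first | with_reducible apply DTm₃.app dtm_cyl | with_reducible apply DTm₂.app dtm_del | with_reducible apply Dfn₂.app dfn_Cov | with_reducible apply Dfn₂.app dfn_Lev | with_reducible apply DTm₂.app dtm_Phi | with_reducible apply Dfn₁.app dfn_FinS | with_reducible apply DTm₂.app dtm_RO | with_reducible apply DTm₃.app dtm_cpl | with_reducible apply DTm₃.app dtm_rc | with_reducible apply DTm₂.app dtm_prod | with_reducible apply DTm₂.app dtm_cap | with_reducible apply DTm₂.app dtm_diff | with_reducible apply DTm₁.app dtm_Pow | with_reducible apply DTm₂.app dtm_ins | with_reducible apply DTm₂.app dtm_cup | with_reducible apply DTm₁.app dtm_Un | with_reducible apply DTm₂.app dtm_pr | with_reducible apply DTm₁.app dtm_sing | with_reducible apply DTm₂.app dtm_upair | with_reducible apply DTm.sep | with_reducible apply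 Dfn₂.app dfn_sub | with_reducible apply Dfn.all | with_reducible apply Dfn.ex | with_reducible apply Dfn.not | with_reducible apply Dfn.and | with_reducible apply Dfn.or | with_reducible apply Dfn.imp | with_reducible apply Dfn.iff | with_reducible apply Dfn.eq | with_reducible apply Dfn.mem | with_reducible exact DTm.var _ | with_reducible exact DTm.const _ | with_reducible exact Dfn.constProp _ | with_reducible apply DTm.wk | assumption))) P0 P0
  obtain ⟨R', hR'⟩ := exists_rel
    (P := fun x y : M => ∃ i x' y', x = pr i x' ∧ y = pr i y') (by unfold Dfn₂; (repeat' (first | with_reducible apply DTm₃.app dtm_cyl | with_reducible apply DTm₂.app dtm_del | with_reducible apply Dfn₂.app dfn_Cov | with_reducible apply Dfn₂.app dfn_Lev | with_reducible apply DTm₂.app dtm_Phi | with_reducible apply Dfn₁.app dfn_FinS | with_reducible apply DTm₂.app dtm_RO | with_reducible apply DTm₃.app dtm_cpl | with_reducible apply DTm₃.app dtm_rc | with_reducible apply DTm₂.app dtm_prod | with_reducible apply DTm₂.app dtm_cap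 | with_reducible apply DTm₂.app dtm_diff | with_reducible apply DTm₁.app dtm_Pow | with_reducible apply DTm₂.app dtm_ins | with_reducible apply DTm₂.app dtm_cup | with_reducible apply DTm₁.app dtm_Un | with_reducible apply DTm₂.app dtm_pr | with_reducible apply DTm₁.app dtm_sing | with_reducible apply DTm₂.app dtm_upair | with_reducible apply DTm.sep | with_reducible apply Dfn₂.app dfn_sub | with_reducible apply Dfn.all | with_reducible apply Dfn.ex | with_reducible apply Dfn.not | with_reducible apply Dfn.and | with_reducible apply Dfn.or | with_reducible apply Dfn.imp | with_reducible apply Dfn.iff | with_reducible apply Dfn.eq | with_reducible apply Dfn.mem | with_reducible exact DTm.var _ | with_reducible exact DTm.const _ | with_reducible exact Dfn.constProp _ | with_reducible apply DTm.wk | assumption))) P0 P0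
  have pre : IsPre P0 R := by
    refine ⟨fun s hs => (hR s s).2 ⟨hs, hs, rfl⟩, fun r s t hr hs ht h1 h2 => ?_⟩
    rw [hR] at *
    exact ⟨hr, ht, h1.2.2.trans h2.2.2⟩
  have pre' : IsPre P0 R' := by
    refine ⟨fun s hs => (hR' s s).2 ⟨hs, hs, ?_⟩, fun r s t hr hs ht h1 h2 => ?_⟩
    · obtain ⟨i, x, rfl, -, -⟩ := hP0' s hs
      exact ⟨i, x, x, rfl, rfl⟩
    · rw [hR'] at *
      obtain ⟨-, -, i, x, y, rfl, rfl⟩ := h1
      obtain ⟨-, -, i', x', y', h, rfl⟩ := h2
      obtain ⟨rfl, rfl⟩ := pr_inj h
      exact ⟨hr, ht, i, x, y', rfl, rfl⟩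
  have hRO : ∀ u, u ≤ P0 → u ∈ RO P0 R := by
    intro u hu
    refine (mem_RO' pre).2 ⟨hu, fun s t hs ht hts => ?_, fun s hs hd => ?_⟩
    · rw [hR] at hts
      rw [hts.2.2]; exact hs
    · obtain ⟨r, hr, hrs, hru⟩ := hd s hs (pre.refl s hs)
      rw [hR] at hrs
      rw [← hrs.2.2]; exact hru
  have hrc : ∀ u, u ≤ P0 → rc P0 R u = u := fun u hu => (mem_RO.1 (hRO u hu)).2
  obtain ⟨r, g, hg, hsub, hid, hcap, hsup⟩ := retraction hI pre pre'
    (fun s t hs ht h => by
      rw [hR] at h
      rw [h.2.2]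
      exact pre'.refl t ht)
    (fun s t hs ht h => ⟨s, hs, pre.refl s hs, by
      rw [hR'] at *
      obtain ⟨-, -, i, x, y, rfl, rfl⟩ := h
      exact ⟨hs, ht, i, y, x, rfl, rfl⟩⟩)
  -- the element of the algebra attached to a subset of `P0`
  let el : ∀ u : M, u ≤ P0 → El ZFModel.E (RO P0 R) := fun u hu => ⟨u, hRO u hu⟩
  have hcylsub : ∀ i s : M, cyl P0 i s ≤ P0 := fun i s p hp => (mem_cyl.1 hp).1
  let G : M → M → M := fun i s => (g (el (cyl P0 i s) (hcylsub i s))).1
  have hG : ∀ i s v, v = G i s ↔ v ∈ RO P0 R' ∧ pr (cyl P0 i s) v ∈ r := by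
    intro i s v
    constructor
    · rintro rfl
      exact ⟨(g _).2, (hg (el (cyl P0 i s) (hcylsub i s)) _).1 rfl⟩
    · rintro ⟨hv, hr⟩
      have := (hg (el (cyl P0 i s) (hcylsub i s)) ⟨v, hv⟩).2 hr
      exact (congrArg Subtype.val this).symm
  have dG : DTm₂ G := by
    refine Dfn.congr (P := fun v => v 0 ∈ RO P0 R' ∧ pr (cyl P0 (v 1) (v 2)) (v 0) ∈ r)
      (by (repeat' (first | with_reducible apply DTm₃.app dtm_cyl | with_reducible apply DTm₂.app dtm_del | with_reducible apply Dfn₂.app dfn_Cov | with_reducible apply Dfn₂.app dfn_Lev | with_reducible apply DTm₂.app dtm_Phi | with_reducible apply Dfn₁.app dfn_FinS | with_reducible apply DTm₂.app dtm_RO | with_reducible apply DTm₃.app dtm_cpl | with_reducible apply DTm₃.app dtm_rc | with_reducible apply DTm₂.app dtm_prod | with_reducible apply DTm₂.app dtm_cap | with_reducible apply DTm₂.app dtm_diff | with_reducible apply DTm₁.app dtm_Pow | with_reducible apply DTm₂.app dtm_ins | with_reducible apply DTm₂.app dtm_cup | with_reducible apply DTm₁.app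 dtm_Un | with_reducible apply DTm₂.app dtm_pr | with_reducible apply DTm₁.app dtm_sing | with_reducible apply DTm₂.app dtm_upair | with_reducible apply DTm.sep | with_reducible apply Dfn₂.app dfn_sub | with_reducible apply Dfn.all | with_reducible apply Dfn.ex | with_reducible apply Dfn.not | with_reducible apply Dfn.and | with_reducible apply Dfn.or | with_reducible apply Dfn.imp | with_reducible apply Dfn.iff | with_reducible apply Dfn.eq | with_reducible apply Dfn.mem | with_reducible exact DTm.var _ | with_reducible exact DTm.const _ | with_reducible exact Dfn.constProp _ | with_reducible apply DTm.wk | assumption))) (fun v => hG _ _ _)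
  have hGRO : ∀ i s, G i s ∈ RO P0 R' := fun i s => (g _).2
  have hGsat : ∀ i s j x y, pr j x ∈ G i s → y ∈ K j → pr j y ∈ G i s := by
    intro i s j x y hx hy
    have hx0 := (mem_RO.1 (hGRO i s)).1 _ hx
    have hj := (hP0 j x).1 hx0
    refine RO_lower pre' (hGRO i s) hx ((hP0 j y).2 ⟨hj.1, hy⟩) ?_
    rw [hR']
    exact ⟨(hP0 j y).2 ⟨hj.1, hy⟩, hx0, j, y, x, rfl, rfl⟩
  -- the whole fibre
  have hfib : ∀ i, i ∈ a → cyl P0 i (K i) ∈ RO P0 R' := by
    intro i hi
    refine (mem_RO' pre').2 ⟨hcylsub _ _, fun s t hs ht hts => ?_, fun s hs hd => ?_⟩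
    · rw [hR'] at hts
      obtain ⟨-, -, j, x, y, rfl, rfl⟩ := hts
      obtain ⟨-, z, hz, -⟩ := mem_cyl.1 hs
      obtain ⟨rfl, rfl⟩ := pr_inj hz
      exact mem_cyl.2 ⟨ht, x, rfl, ((hP0 j x).1 ht).2⟩
    · obtain ⟨q, hq, hqs, hqu⟩ := hd s hs (pre'.refl s hs)
      rw [hR'] at hqs
      obtain ⟨-, -, j, x, y, rfl, rfl⟩ := hqs
      obtain ⟨-, z, hz, -⟩ := mem_cyl.1 hqu
      obtain ⟨rfl, rfl⟩ := pr_inj hz
      exact mem_cyl.2 ⟨hs, y, rfl, ((hP0 j y).1 hs).2⟩
  have hGfib : ∀ i, i ∈ a → G i (K i) = cyl P0 i (K i) := fun i hi =>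
    hid (el _ (hcylsub i (K i))) (hfib i hi)
  have hGmono : ∀ i s t, s ≤ t → G i s ≤ G i t := by
    intro i s t hst
    have : G i s = cap (G i s) (G i t) := by
      apply hcap
      apply ext
      intro p
      rw [mem_cap]
      refine ⟨fun hp => ⟨hp, ?_⟩, fun hp => hp.1⟩
      obtain ⟨hp0, x, rfl, hx⟩ := mem_cyl.1 hp
      exact mem_cyl.2 ⟨hp0, x, rfl, hst x hx⟩
    rw [this]
    exact fun p hp => (mem_cap.1 hp).2
  have hG0 : ∀ i, G i emp = emp := by
    intro i
    have h0 : cyl P0 i emp = emp := by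
      rw [eq_emp_iff]
      intro p hp
      obtain ⟨-, x, -, hx⟩ := mem_cyl.1 hp
      exact not_mem_emp x hx
    have := hid (el _ (hcylsub i emp)) (by
      show cyl P0 i emp ∈ RO P0 R'
      rw [h0]; exact emp_mem_RO pre')
    exact this.trans h0
  have hGins : ∀ i x s, G i (ins x s) = cup (G i s) (G i (sing x)) := by
    intro i x s
    have h1 : G i (ins x s) = rc P0 R (cup (G i s) (G i (sing x))) := by
      apply hsup
      show cyl P0 i (ins x s) = rc P0 R (cup (cyl P0 i s) (cyl P0 i (sing x)))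
      rw [hrc _ (fun p hp => by
        rcases mem_cup.1 hp with hp | hp
        · exact hcylsub _ _ p hp
        · exact hcylsub _ _ p hp)]
      apply ext
      intro p
      rw [mem_cup, mem_cyl, mem_cyl, mem_cyl]
      simp only [mem_ins, mem_sing]
      constructor
      · rintro ⟨hp, y, rfl, hy | rfl⟩
        · exact Or.inl ⟨hp, y, rfl, hy⟩
        · exact Or.inr ⟨hp, y, rfl, rfl⟩
      · rintro (⟨hp, y, rfl, hy⟩ | ⟨hp, y, rfl, rfl⟩)
        · exact ⟨hp, y, rfl, Or.inl hy⟩
        · exact ⟨hp, y, rfl, Or.inr rfl⟩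
    rw [h1, hrc]
    intro p hp
    rcases mem_cup.1 hp with hp | hp
    · exact (mem_RO.1 (hGRO _ _)).1 p hp
    · exact (mem_RO.1 (hGRO _ _)).1 p hp
  have hind : ∀ i s, FinS s → (∃ p, p ∈ G i s) → ∃ x, x ∈ s ∧ ∃ p, p ∈ G i (sing x) := by
    intro i s hs
    refine FinS.ind (P := fun s => (∃ p, p ∈ G i s) → ∃ x, x ∈ s ∧ ∃ p, p ∈ G i (sing x))
      ?_ ?_ ?_ hs
    · unfold Dfn₁
      apply Dfn.imp
      · apply Dfn.ex
        exact Dfn.mem (DTm.var _) (dG.app (DTm.const _) (DTm.var _))
      · apply Dfn.ex; apply Dfn.and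
        · (repeat' (first | with_reducible apply DTm₃.app dtm_cyl | with_reducible apply DTm₂.app dtm_del | with_reducible apply Dfn₂.app dfn_Cov | with_reducible apply Dfn₂.app dfn_Lev | with_reducible apply DTm₂.app dtm_Phi | with_reducible apply Dfn₁.app dfn_FinS | with_reducible apply DTm₂.app dtm_RO | with_reducible apply DTm₃.app dtm_cpl | with_reducible apply DTm₃.app dtm_rc | with_reducible apply DTm₂.app dtm_prod | with_reducible apply DTm₂.app dtm_cap | with_reducible apply DTm₂.app dtm_diff | with_reducible apply DTm₁.app dtm_Pow | with_reducible apply DTm₂.app dtm_ins | with_reducible apply DTm₂.app dtm_cup | with_reducible apply DTm₁.app dtm_Un | with_reducible apply DTm₂.app dtm_pr | with_reducible apply DTm₁.app dtm_sing | with_reducible apply DTm₂.app dtm_upair | with_reducible apply DTm.sep | with_reducible apply Dfn₂.app dfn_sub | with_reducible apply Dfn.all | with_reducible apply Dfn.ex | with_reducible apply Dfn.not | with_reducible apply Dfn.and | with_reducible apply Dfn.or |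 with_reducible apply Dfn.imp | with_reducible apply Dfn.iff | with_reducible apply Dfn.eq | with_reducible apply Dfn.mem | with_reducible exact DTm.var _ | with_reducible exact DTm.const _ | with_reducible exact Dfn.constProp _ | with_reducible apply DTm.wk | assumption))
        · apply Dfn.ex
          exact Dfn.mem (DTm.var _) (dG.app (DTm.const _) (dtm_sing.app (DTm.var _)))
    · rintro ⟨p, hp⟩
      rw [hG0] at hp
      exact (not_mem_emp p hp).elim
    · intro s x _ ih ⟨p, hp⟩
      rw [hGins, mem_cup] at hp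
      rcases hp with hp | hp
      · obtain ⟨y, hy, h⟩ := ih ⟨p, hp⟩
        exact ⟨y, mem_ins.2 (Or.inl hy), h⟩
      · exact ⟨x, mem_ins.2 (Or.inr rfl), p, hp⟩
  -- nonempty values are the whole fibre
  have hfull : ∀ i, i ∈ a → ∀ s, s ≤ K i → (∃ p, p ∈ G i s) → ∀ y, y ∈ K i →
      pr i y ∈ G i s := by
    intro i hi s hs ⟨p, hp⟩ y hy
    have h1 := hGmono i s (K i) hs p hp
    rw [hGfib i hi] at h1
    obtain ⟨-, x, rfl, -⟩ := mem_cyl.1 h1
    exact hGsat i s i x y hp hy
  have huniq : ∀ i, i ∈ a → ∀ x y, x ∈ K i → y ∈ K i → (∃ p, p ∈ G i (sing x)) →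
      (∃ p, p ∈ G i (sing y)) → x = y := by
    intro i hi x y hx hy h1 h2
    by_contra hxy
    have e1 := hfull i hi (sing x) (fun z hz => by rw [mem_sing] at hz; rw [hz]; exact hx) h1 x hx
    have e2 := hfull i hi (sing y) (fun z hz => by rw [mem_sing] at hz; rw [hz]; exact hy) h2 x hx
    have h0 : G i emp = cap (G i (sing x)) (G i (sing y)) := by
      apply hcap
      show cyl P0 i emp = cap (cyl P0 i (sing x)) (cyl P0 i (sing y))
      apply ext
      intro p
      rw [mem_cap, mem_cyl, mem_cyl, mem_cyl]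
      constructor
      · rintro ⟨-, z, -, hz⟩
        exact (not_mem_emp z hz).elim
      · rintro ⟨⟨hp, z, rfl, hz⟩, ⟨-, w, hw, hw'⟩⟩
        rw [mem_sing] at hz hw'
        obtain ⟨-, rfl⟩ := pr_inj hw
        exact (hxy (hz.symm.trans hw')).elim
    have := mem_cap.2 ⟨e1, e2⟩
    rw [← h0, hG0] at this
    exact not_mem_emp _ this
  -- the choice function
  have df : Dfn₂ (fun i x : M => x ∈ K i ∧ ∃ p, p ∈ G i (sing x)) := by
    unfold Dfn₂
    apply Dfn.and
    · exact Dfn.mem (DTm.var _) (hK.app (DTm.var _))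
    · apply Dfn.ex
      exact Dfn.mem (DTm.var _) (dG.app (DTm.var _) (dtm_sing.app (DTm.var _)))
  obtain ⟨f0, hf0⟩ := exists_rel df a (Un a)
  refine ⟨sep f0 (fun p => ∃ x y, x ∈ a ∧ p = pr x y), ?_, ?_⟩
  · intro p hp
    rw [mem_sep (by unfold Dfn₁; (repeat' (first | with_reducible apply DTm₃.app dtm_cyl | with_reducible apply DTm₂.app dtm_del | with_reducible apply Dfn₂.app dfn_Cov | with_reducible apply Dfn₂.app dfn_Lev | with_reducible apply DTm₂.app dtm_Phi | with_reducible apply Dfn₁.app dfn_FinS | with_reducible apply DTm₂.app dtm_RO | with_reducible apply DTm₃.app dtm_cpl | with_reducible apply DTm₃.app dtm_rc | with_reducible apply DTm₂.app dtm_prod | with_reducible apply DTm₂.app dtm_cap | with_reducible apply DTm₂.app dtm_diff | with_reducible apply DTm₁.app dtm_Pow | with_reducible apply DTm₂.app dtm_ins | with_reducible apply DTm₂.app dtm_cup | with_reducible apply DTm₁.app dtm_Un | with_reducible apply DTm₂.app dtm_pr | with_reducible apply DTm₁.app dtm_sing | with_reducible apply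 DTm₂.app dtm_upair | with_reducible apply DTm.sep | with_reducible apply Dfn₂.app dfn_sub | with_reducible apply Dfn.all | with_reducible apply Dfn.ex | with_reducible apply Dfn.not | with_reducible apply Dfn.and | with_reducible apply Dfn.or | with_reducible apply Dfn.imp | with_reducible apply Dfn.iff | with_reducible apply Dfn.eq | with_reducible apply Dfn.mem | with_reducible exact DTm.var _ | with_reducible exact DTm.const _ | with_reducible exact Dfn.constProp _ | with_reducible apply DTm.wk | assumption)))] at hp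
    exact hp.2
  · intro i hi
    obtain ⟨hfin, ⟨x0, hx0⟩, hsubi⟩ := hf i hi
    obtain ⟨y, hy, hpy⟩ := hind i (K i) hfin ⟨pr i x0, by
      rw [hGfib i hi]
      exact mem_cyl.2 ⟨(hP0 i x0).2 ⟨hi, hx0⟩, x0, rfl, hx0⟩⟩
    refine ⟨y, hsubi y hy, fun z => ?_⟩
    rw [mem_sep (by unfold Dfn₁; (repeat' (first | with_reducible apply DTm₃.app dtm_cyl | with_reducible apply DTm₂.app dtm_del | with_reducible apply Dfn₂.app dfn_Cov | with_reducible apply Dfn₂.app dfn_Lev | with_reducible apply DTm₂.app dtm_Phi | with_reducible apply Dfn₁.app dfn_FinS | with_reducible apply DTm₂.app dtm_RO | with_reducible apply DTm₃.app dtm_cpl | with_reducible apply DTm₃.app dtm_rc | with_reducible apply DTm₂.app dtm_prod | with_reducible apply DTm₂.app dtm_cap | with_reducible apply DTm₂.app dtm_diff | with_reducible apply DTm₁.app dtm_Pow | with_reducible apply DTm₂.app dtm_ins | with_reducible apply DTm₂.app dtm_cup | with_reducible apply DTm₁.app dtm_Un | with_reducible apply DTm₂.app dtm_pr | with_reducible apply DTm₁.app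 dtm_sing | with_reducible apply DTm₂.app dtm_upair | with_reducible apply DTm.sep | with_reducible apply Dfn₂.app dfn_sub | with_reducible apply Dfn.all | with_reducible apply Dfn.ex | with_reducible apply Dfn.not | with_reducible apply Dfn.and | with_reducible apply Dfn.or | with_reducible apply Dfn.imp | with_reducible apply Dfn.iff | with_reducible apply Dfn.eq | with_reducible apply Dfn.mem | with_reducible exact DTm.var _ | with_reducible exact DTm.const _ | with_reducible exact Dfn.constProp _ | with_reducible apply DTm.wk | assumption))), hf0]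
    constructor
    · rintro ⟨⟨-, -, hz, hpz⟩, -⟩
      exact huniq i hi z y hz hy hpz hpy
    · rintro rfl
      exact ⟨⟨hi, mem_Un.2 ⟨i, hi, hsubi z hy⟩, hy, hpy⟩, i, z, hi, rfl⟩

/-! ### The main argument -/

/-- `(i, p, q)` -/
noncomputable def tr (i p q : M) : M := pr i (pr p q)

theorem dtm_tr : DTm₃ (tr : M → M → M → M) := by
  unfold DTm₃ tr; (repeat' (first | with_reducible apply DTm₃.app dtm_cyl | with_reducible apply DTm₂.app dtm_del | with_reducible apply Dfn₂.app dfn_Cov | with_reducible apply Dfn₂.app dfn_Lev | with_reducible apply DTm₂.app dtm_Phi | with_reducible apply Dfn₁.app dfn_FinS | with_reducible apply DTm₂.app dtm_RO | with_reducible apply DTm₃.app dtm_cpl | with_reducible apply DTm₃.app dtm_rc | with_reducible apply DTm₂.app dtm_prod | with_reducible apply DTm₂.app dtm_cap | with_reducible apply DTm₂.app dtm_diff | with_reducible apply DTm₁.app dtm_Pow | with_reducible apply DTm₂.app dtm_ins | with_reducible apply DTm₂.app dtm_cup | with_reducible apply DTm₁.app dtm_Un | with_reducible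 apply DTm₂.app dtm_pr | with_reducible apply DTm₁.app dtm_sing | with_reducible apply DTm₂.app dtm_upair | with_reducible apply DTm.sep | with_reducible apply Dfn₂.app dfn_sub | with_reducible apply Dfn.all | with_reducible apply Dfn.ex | with_reducible apply Dfn.not | with_reducible apply Dfn.and | with_reducible apply Dfn.or | with_reducible apply Dfn.imp | with_reducible apply Dfn.iff | with_reducible apply Dfn.eq | with_reducible apply Dfn.mem | with_reducible exact DTm.var _ | with_reducible exact DTm.const _ | with_reducible exact Dfn.constProp _ | with_reducible apply DTm.wk | assumption))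

theorem tr_inj {i p q i' p' q' : M} (h : tr i p q = tr i' p' q') : i = i' ∧ p = p' ∧ q = q' := by
  obtain ⟨h1, h2⟩ := pr_inj h
  exact ⟨h1, pr_inj h2⟩

/-- `(i, p, q)` is a condition: `p`, `q` are disjoint finite subsets of `i`, `i ∈ a`. -/
def Cd (a i p q : M) : Prop :=
  i ∈ a ∧ FinS p ∧ FinS q ∧ p ≤ i ∧ q ≤ i ∧ ∀ x, x ∈ p → x ∉ q

theorem dfn_Cd : Dfn₄ (Cd : M → M → M → M → Prop) := by
  unfold Dfn₄ Cd; (repeat' (first | with_reducible apply DTm₃.app dtm_tr | with_reducible apply DTm₃.app dtm_cyl | with_reducible apply DTm₂.app dtm_del | with_reducible apply Dfn₂.app dfn_Cov | with_reducible apply Dfn₂.app dfn_Lev | with_reducible apply DTm₂.app dtm_Phi | with_reducible apply Dfn₁.app dfn_FinS | with_reducible apply DTm₂.app dtm_RO | with_reducible apply DTm₃.app dtm_cpl | with_reducible apply DTm₃.app dtm_rc | with_reducible apply DTm₂.app dtm_prod | with_reducible apply DTm₂.app dtm_cap | with_reducible apply DTm₂.app dtm_diff | with_reducible apply DTm₁.app dtm_Pow | with_reducible apply DTm₂.app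 dtm_ins | with_reducible apply DTm₂.app dtm_cup | with_reducible apply DTm₁.app dtm_Un | with_reducible apply DTm₂.app dtm_pr | with_reducible apply DTm₁.app dtm_sing | with_reducible apply DTm₂.app dtm_upair | with_reducible apply DTm.sep | with_reducible apply Dfn₂.app dfn_sub | with_reducible apply Dfn.all | with_reducible apply Dfn.ex | with_reducible apply Dfn.not | with_reducible apply Dfn.and | with_reducible apply Dfn.or | with_reducible apply Dfn.imp | with_reducible apply Dfn.iff | with_reducible apply Dfn.eq | with_reducible apply Dfn.mem | with_reducible exact DTm.var _ | with_reducible exact DTm.const _ | with_reducible exact Dfn.constProp _ | with_reducible apply DTm.wk | assumption))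

theorem Cd.swap {a i p q : M} (h : Cd a i p q) : Cd a i q p :=
  ⟨h.1, h.2.2.1, h.2.1, h.2.2.2.2.1, h.2.2.2.1, fun x hx hx' => h.2.2.2.2.2 x hx' hx⟩

/-- the side `ε` of a pair -/
def sd (ε : Bool) (p q : M) : M := if ε then p else q

/-- The two-element version of the lemma: for `ε : Bool`, the condition `(i,p,q)` with the point
`y` put on side `ε`. -/
theorem Cd.insert {a i p q y : M} (h : Cd a i p q) (ε : Bool) (hy : y ∈ i)
    (hyp : y ∉ p) (hyq : y ∉ q) :
    ∃ p' q', Cd a i p' q' ∧ p ≤ p' ∧ q ≤ q' ∧ y ∈ sd ε p' q' := by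
  obtain ⟨h1, h2, h3, h4, h5, h6⟩ := h
  cases ε
  · refine ⟨p, ins y q, ⟨h1, h2, h3.ins y, h4, ?_, ?_⟩, Sub.refl _, ?_, ?_⟩
    · intro x hx
      rcases mem_ins.1 hx with hx | rfl
      · exact h5 x hx
      · exact hy
    · intro x hx hx'
      rcases mem_ins.1 hx' with hx' | rfl
      · exact h6 x hx hx'
      · exact hyp hx
    · exact fun x hx => mem_ins.2 (Or.inl hx)
    · exact mem_ins.2 (Or.inr rfl)
  · refine ⟨ins y p, q, ⟨h1, h2.ins y, h3, ?_, h5, ?_⟩, ?_, Sub.refl _, ?_⟩
    · intro x hx
      rcases mem_ins.1 hx with hx | rfl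
      · exact h4 x hx
      · exact hy
    · intro x hx hx'
      rcases mem_ins.1 hx with hx | rfl
      · exact h6 x hx hx'
      · exact hyq hx'
    · exact fun x hx => mem_ins.2 (Or.inl hx)
    · exact mem_ins.2 (Or.inr rfl)

theorem choice_of_injectivity (hI : Injectivity (ZFModel.E (M := M))) :
    Choice (ZFModel.E (M := M)) := by
  intro a hne
  -- the set of conditions
  have dC : Dfn₁ (fun s : M => ∃ i p q, s = tr i p q ∧ Cd a i p q) := by unfold Dfn₁; (repeat' (first | with_reducible apply Dfn₄.app dfn_Cd | with_reducible apply DTm₃.app dtm_tr | with_reducible apply DTm₃.app dtm_cyl | with_reducible apply DTm₂.app dtm_del | with_reducible apply Dfn₂.app dfn_Cov | with_reducible apply Dfn₂.app dfn_Lev | with_reducible apply DTm₂.app dtm_Phi | with_reducible apply Dfn₁.app dfn_FinS | with_reducible apply DTm₂.app dtm_RO | with_reducible apply DTm₃.app dtm_cpl | with_reducible apply DTm₃.app dtm_rc | with_reducible apply DTm₂.app dtm_prod | with_reducible apply DTm₂.app dtm_cap | with_reducible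 apply DTm₂.app dtm_diff | with_reducible apply DTm₁.app dtm_Pow | with_reducible apply DTm₂.app dtm_ins | with_reducible apply DTm₂.app dtm_cup | with_reducible apply DTm₁.app dtm_Un | with_reducible apply DTm₂.app dtm_pr | with_reducible apply DTm₁.app dtm_sing | with_reducible apply DTm₂.app dtm_upair | with_reducible apply DTm.sep | with_reducible apply Dfn₂.app dfn_sub | with_reducible apply Dfn.all | with_reducible apply Dfn.ex | with_reducible apply Dfn.not | with_reducible apply Dfn.and | with_reducible apply Dfn.or | with_reducible apply Dfn.imp | with_reducible apply Dfn.iff | with_reducible apply Dfn.eq | with_reducible apply Dfn.mem | with_reducible exact DTm.var _ | with_reducible exact DTm.const _ | with_reducible exact Dfn.constProp _ | with_reducible apply DTm.wk | assumption))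
  obtain ⟨P0, hP00⟩ : ∃ P0 : M, ∀ s, s ∈ P0 ↔
      s ∈ prod a (prod (Pow (Un a)) (Pow (Un a))) ∧ ∃ i p q, s = tr i p q ∧ Cd a i p q :=
    exists_sep dC _
  have hP0' : ∀ s, s ∈ P0 → ∃ i p q, s = tr i p q ∧ Cd a i p q := fun s hs => ((hP00 s).1 hs).2
  have hP0 : ∀ i p q, tr i p q ∈ P0 ↔ Cd a i p q := by
    intro i p q
    constructor
    · intro h
      obtain ⟨i', p', q', h1, h2⟩ := hP0' _ h
      obtain ⟨rfl, rfl, rfl⟩ := tr_inj h1
      exact h2
    · intro h
      refine (hP00 _).2 ⟨?_, i, p, q, rfl, h⟩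
      unfold tr
      rw [pr_mem_prod, pr_mem_prod, mem_Pow, mem_Pow]
      exact ⟨h.1, fun x hx => mem_Un.2 ⟨i, h.1, h.2.2.2.1 x hx⟩,
        fun x hx => mem_Un.2 ⟨i, h.1, h.2.2.2.2.1 x hx⟩⟩
  obtain ⟨R, hR0⟩ := exists_rel (P := fun s t : M => ∃ i p q p' q', s = tr i p q ∧
    t = tr i p' q' ∧ p' ≤ p ∧ q' ≤ q) (by unfold Dfn₂; (repeat' (first | with_reducible apply Dfn₄.app dfn_Cd | with_reducible apply DTm₃.app dtm_tr | with_reducible apply DTm₃.app dtm_cyl | with_reducible apply DTm₂.app dtm_del | with_reducible apply Dfn₂.app dfn_Cov | with_reducible apply Dfn₂.app dfn_Lev | with_reducible apply DTm₂.app dtm_Phi | with_reducible apply Dfn₁.app dfn_FinS | with_reducible apply DTm₂.app dtm_RO | with_reducible apply DTm₃.app dtm_cpl | with_reducible apply DTm₃.app dtm_rc | with_reducible apply DTm₂.app dtm_prod | with_reducible apply DTm₂.app dtm_cap | with_reducible apply DTm₂.app dtm_diff | with_reducible apply DTm₁.app dtm_Pow | with_reducible apply DTm₂.app dtm_ins | with_reducible apply DTm₂.app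 dtm_cup | with_reducible apply DTm₁.app dtm_Un | with_reducible apply DTm₂.app dtm_pr | with_reducible apply DTm₁.app dtm_sing | with_reducible apply DTm₂.app dtm_upair | with_reducible apply DTm.sep | with_reducible apply Dfn₂.app dfn_sub | with_reducible apply Dfn.all | with_reducible apply Dfn.ex | with_reducible apply Dfn.not | with_reducible apply Dfn.and | with_reducible apply Dfn.or | with_reducible apply Dfn.imp | with_reducible apply Dfn.iff | with_reducible apply Dfn.eq | with_reducible apply Dfn.mem | with_reducible exact DTm.var _ | with_reducible exact DTm.const _ | with_reducible exact Dfn.constProp _ | with_reducible apply DTm.wk | assumption))) P0 P0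
  obtain ⟨R', hR0'⟩ := exists_rel (P := fun s t : M => ∃ i p q p' q', s = tr i p q ∧
    t = tr i p' q' ∧ ((p' ≤ p ∧ q' ≤ q) ∨ (q' ≤ p ∧ p' ≤ q))) (by unfold Dfn₂; (repeat' (first | with_reducible apply Dfn₄.app dfn_Cd | with_reducible apply DTm₃.app dtm_tr | with_reducible apply DTm₃.app dtm_cyl | with_reducible apply DTm₂.app dtm_del | with_reducible apply Dfn₂.app dfn_Cov | with_reducible apply Dfn₂.app dfn_Lev | with_reducible apply DTm₂.app dtm_Phi | with_reducible apply Dfn₁.app dfn_FinS | with_reducible apply DTm₂.app dtm_RO | with_reducible apply DTm₃.app dtm_cpl | with_reducible apply DTm₃.app dtm_rc | with_reducible apply DTm₂.app dtm_prod | with_reducible apply DTm₂.app dtm_cap | with_reducible apply DTm₂.app dtm_diff | with_reducible apply DTm₁.app dtm_Pow | with_reducible apply DTm₂.app dtm_ins | with_reducible apply DTm₂.app dtm_cup | with_reducible apply DTm₁.app dtm_Un | with_reducible apply DTm₂.app dtm_pr | with_reducible apply DTm₁.app dtm_sing | with_reducible apply DTm₂.app dtm_upair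 | with_reducible apply DTm.sep | with_reducible apply Dfn₂.app dfn_sub | with_reducible apply Dfn.all | with_reducible apply Dfn.ex | with_reducible apply Dfn.not | with_reducible apply Dfn.and | with_reducible apply Dfn.or | with_reducible apply Dfn.imp | with_reducible apply Dfn.iff | with_reducible apply Dfn.eq | with_reducible apply Dfn.mem | with_reducible exact DTm.var _ | with_reducible exact DTm.const _ | with_reducible exact Dfn.constProp _ | with_reducible apply DTm.wk | assumption))) P0 P0
  have hR : ∀ i p q j p' q', pr (tr i p q) (tr j p' q') ∈ R ↔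
      Cd a i p q ∧ Cd a j p' q' ∧ i = j ∧ p' ≤ p ∧ q' ≤ q := by
    intro i p q j p' q'
    rw [hR0, hP0, hP0]
    constructor
    · rintro ⟨h1, h2, i', p1, q1, p2, q2, e1, e2, h⟩
      obtain ⟨rfl, rfl, rfl⟩ := tr_inj e1
      obtain ⟨rfl, rfl, rfl⟩ := tr_inj e2
      exact ⟨h1, h2, rfl, h⟩
    · rintro ⟨h1, h2, rfl, h⟩
      exact ⟨h1, h2, i, p, q, p', q', rfl, rfl, h⟩
  have hR' : ∀ i p q j p' q', pr (tr i p q) (tr j p' q') ∈ R' ↔
      Cd a i p q ∧ Cd a j p' q' ∧ i = j ∧ ((p' ≤ p ∧ q' ≤ q) ∨ (q' ≤ p ∧ p' ≤ q)) := by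
    intro i p q j p' q'
    rw [hR0', hP0, hP0]
    constructor
    · rintro ⟨h1, h2, i', p1, q1, p2, q2, e1, e2, h⟩
      obtain ⟨rfl, rfl, rfl⟩ := tr_inj e1
      obtain ⟨rfl, rfl, rfl⟩ := tr_inj e2
      exact ⟨h1, h2, rfl, h⟩
    · rintro ⟨h1, h2, rfl, h⟩
      exact ⟨h1, h2, i, p, q, p', q', rfl, rfl, h⟩
  have pre : IsPre P0 R := by
    constructor
    · intro s hs
      obtain ⟨i, p, q, rfl, h⟩ := hP0' s hs
      exact (hR _ _ _ _ _ _).2 ⟨h, h, rfl, Sub.refl _, Sub.refl _⟩
    · intro r s t hr hs ht h1 h2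
      obtain ⟨i, p, q, rfl, h⟩ := hP0' r hr
      obtain ⟨j, p', q', rfl, h'⟩ := hP0' s hs
      obtain ⟨k, p'', q'', rfl, h''⟩ := hP0' t ht
      rw [hR] at *
      obtain ⟨-, -, rfl, h3, h4⟩ := h1
      obtain ⟨-, -, rfl, h5, h6⟩ := h2
      exact ⟨h, h'', rfl, h5.trans h3, h6.trans h4⟩
  have pre' : IsPre P0 R' := by
    constructor
    · intro s hs
      obtain ⟨i, p, q, rfl, h⟩ := hP0' s hs
      exact (hR' _ _ _ _ _ _).2 ⟨h, h, rfl, Or.inl ⟨Sub.refl _, Sub.refl _⟩⟩
    · intro r s t hr hs ht h1 h2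
      obtain ⟨i, p, q, rfl, h⟩ := hP0' r hr
      obtain ⟨j, p', q', rfl, h'⟩ := hP0' s hs
      obtain ⟨k, p'', q'', rfl, h''⟩ := hP0' t ht
      rw [hR'] at *
      obtain ⟨-, -, rfl, h3⟩ := h1
      obtain ⟨-, -, rfl, h5⟩ := h2
      refine ⟨h, h'', rfl, ?_⟩
      rcases h3 with ⟨h3, h4⟩ | ⟨h3, h4⟩ <;> rcases h5 with ⟨h5, h6⟩ | ⟨h5, h6⟩
      · exact Or.inl ⟨h5.trans h3, h6.trans h4⟩
      · exact Or.inr ⟨h5.trans h3, h6.trans h4⟩
      · exact Or.inr ⟨h6.trans h3, h5.trans h4⟩
      · exact Or.inl ⟨h6.trans h3, h5.trans h4⟩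
  have hcomp : ∀ s t, s ∈ P0 → t ∈ P0 → pr t s ∈ R' →
      ∃ t', t' ∈ P0 ∧ pr t' s ∈ R ∧ pr t' t ∈ R' := by
    intro s t hs ht hts
    obtain ⟨i, p, q, rfl, h⟩ := hP0' s hs
    obtain ⟨j, p', q', rfl, h'⟩ := hP0' t ht
    rw [hR'] at hts
    obtain ⟨-, -, rfl, hts⟩ := hts
    rcases hts with ⟨h1, h2⟩ | ⟨h1, h2⟩
    · exact ⟨tr j p' q', ht, (hR _ _ _ _ _ _).2 ⟨h', h, rfl, h1, h2⟩,
        (hR' _ _ _ _ _ _).2 ⟨h', h', rfl, Or.inl ⟨Sub.refl _, Sub.refl _⟩⟩⟩
    · exact ⟨tr j q' p', (hP0 _ _ _).2 h'.swap, (hR _ _ _ _ _ _).2 ⟨h'.swap, h, rfl, h2, h1⟩,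
        (hR' _ _ _ _ _ _).2 ⟨h'.swap, h', rfl, Or.inr ⟨Sub.refl _, Sub.refl _⟩⟩⟩
  obtain ⟨r, g, hg, hsub, hid, hcap, hsup⟩ := retraction hI pre pre'
    (fun s t hs ht h => by
      obtain ⟨i, p, q, rfl, h1⟩ := hP0' s hs
      obtain ⟨j, p', q', rfl, h2⟩ := hP0' t ht
      rw [hR] at h
      rw [hR']
      exact ⟨h.1, h.2.1, h.2.2.1, Or.inl h.2.2.2⟩) hcomp
  -- the basic sets `C ε i y`
  have dCC : ∀ (ε : Bool) (i y : M), Dfn₁ (fun s : M => ∃ p q, s = tr i p q ∧ y ∈ sd ε p q) := by
    intro ε i y
    unfold Dfn₁ sd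
    cases ε <;> simp only [if_true, if_false, Bool.false_eq_true] <;> (repeat' (first | with_reducible apply Dfn₄.app dfn_Cd | with_reducible apply DTm₃.app dtm_tr | with_reducible apply DTm₃.app dtm_cyl | with_reducible apply DTm₂.app dtm_del | with_reducible apply Dfn₂.app dfn_Cov | with_reducible apply Dfn₂.app dfn_Lev | with_reducible apply DTm₂.app dtm_Phi | with_reducible apply Dfn₁.app dfn_FinS | with_reducible apply DTm₂.app dtm_RO | with_reducible apply DTm₃.app dtm_cpl | with_reducible apply DTm₃.app dtm_rc | with_reducible apply DTm₂.app dtm_prod | with_reducible apply DTm₂.app dtm_cap | with_reducible apply DTm₂.app dtm_diff | with_reducible apply DTm₁.app dtm_Pow | with_reducible apply DTm₂.app dtm_ins | with_reducible apply DTm₂.app dtm_cup | with_reducible apply DTm₁.app dtm_Un | with_reducible apply DTm₂.app dtm_pr | with_reducible apply DTm₁.app dtm_sing | with_reducible apply DTm₂.app dtm_upair | with_reducible apply DTm.sep | with_reducible apply Dfn₂.app dfn_sub | with_reducible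 apply Dfn.all | with_reducible apply Dfn.ex | with_reducible apply Dfn.not | with_reducible apply Dfn.and | with_reducible apply Dfn.or | with_reducible apply Dfn.imp | with_reducible apply Dfn.iff | with_reducible apply Dfn.eq | with_reducible apply Dfn.mem | with_reducible exact DTm.var _ | with_reducible exact DTm.const _ | with_reducible exact Dfn.constProp _ | with_reducible apply DTm.wk | assumption))
  let C : Bool → M → M → M := fun ε i y => sep P0 (fun s => ∃ p q, s = tr i p q ∧ y ∈ sd ε p q)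
  have dC2 : ∀ ε, DTm₂ (C ε) := by
    intro ε
    unfold DTm₂
    simp only [C, sd]
    cases ε <;> simp only [if_true, if_false, Bool.false_eq_true] <;> (repeat' (first | with_reducible apply Dfn₄.app dfn_Cd | with_reducible apply DTm₃.app dtm_tr | with_reducible apply DTm₃.app dtm_cyl | with_reducible apply DTm₂.app dtm_del | with_reducible apply Dfn₂.app dfn_Cov | with_reducible apply Dfn₂.app dfn_Lev | with_reducible apply DTm₂.app dtm_Phi | with_reducible apply Dfn₁.app dfn_FinS | with_reducible apply DTm₂.app dtm_RO | with_reducible apply DTm₃.app dtm_cpl | with_reducible apply DTm₃.app dtm_rc | with_reducible apply DTm₂.app dtm_prod | with_reducible apply DTm₂.app dtm_cap | with_reducible apply DTm₂.app dtm_diff | with_reducible apply DTm₁.app dtm_Pow | with_reducible apply DTm₂.app dtm_ins | with_reducible apply DTm₂.app dtm_cup | with_reducible apply DTm₁.app dtm_Un | with_reducible apply DTm₂.app dtm_pr | with_reducible apply DTm₁.app dtm_sing | with_reducible apply DTm₂.app dtm_upair | with_reducible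 apply DTm.sep | with_reducible apply Dfn₂.app dfn_sub | with_reducible apply Dfn.all | with_reducible apply Dfn.ex | with_reducible apply Dfn.not | with_reducible apply Dfn.and | with_reducible apply Dfn.or | with_reducible apply Dfn.imp | with_reducible apply Dfn.iff | with_reducible apply Dfn.eq | with_reducible apply Dfn.mem | with_reducible exact DTm.var _ | with_reducible exact DTm.const _ | with_reducible exact Dfn.constProp _ | with_reducible apply DTm.wk | assumption))
  have hCm : ∀ ε i y j p q, tr j p q ∈ C ε i y ↔ Cd a j p q ∧ j = i ∧ y ∈ sd ε p q := by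
    intro ε i y j p q
    rw [mem_sep (dCC ε i y), hP0]
    constructor
    · rintro ⟨h, p', q', e, h'⟩
      obtain ⟨rfl, rfl, rfl⟩ := tr_inj e
      exact ⟨h, rfl, h'⟩
    · rintro ⟨h, rfl, h'⟩
      exact ⟨h, p, q, rfl, h'⟩
  have hCP : ∀ ε i y, C ε i y ≤ P0 := fun ε i y s hs => ((mem_sep (dCC ε i y)).1 hs).1
  have hCRO : ∀ ε i y, y ∈ i → C ε i y ∈ RO P0 R := by
    intro ε i y hy
    refine (mem_RO' pre).2 ⟨hCP ε i y, ?_, ?_⟩
    · intro s t hs ht hts
      obtain ⟨j, p, q, rfl, h⟩ := hP0' s (hCP _ _ _ s hs)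
      obtain ⟨k, p', q', rfl, h'⟩ := hP0' t ht
      rw [hCm] at hs ⊢
      rw [hR] at hts
      obtain ⟨-, -, rfl, h1, h2⟩ := hts
      refine ⟨h', hs.2.1, ?_⟩
      cases ε
      · exact h2 _ hs.2.2
      · exact h1 _ hs.2.2
    · intro s hs hd
      obtain ⟨j, p, q, rfl, h⟩ := hP0' s hs
      have hj : j = i := by
        obtain ⟨t, ht, hts, htC⟩ := hd _ hs (pre.refl _ hs)
        obtain ⟨k, p', q', rfl, h'⟩ := hP0' t ht
        rw [hCm] at htC
        rw [hR] at hts
        rw [← htC.2.1, hts.2.2.1]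
      subst hj
      rw [hCm]
      refine ⟨h, rfl, ?_⟩
      by_contra hcon
      -- find an extension with `y` on the other side
      have : ∃ p' q', Cd a j p' q' ∧ p ≤ p' ∧ q ≤ q' ∧ y ∈ sd (!ε) p' q' := by
        by_cases hy' : y ∈ sd (!ε) p q
        · exact ⟨p, q, h, Sub.refl _, Sub.refl _, hy'⟩
        · have h1 : y ∉ p ∧ y ∉ q := by
            cases ε
            · exact ⟨hy', hcon⟩
            · exact ⟨hcon, hy'⟩
          exact h.insert (!ε) hy h1.1 h1.2
      obtain ⟨p', q', h', h1, h2, h3⟩ := this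
      obtain ⟨t, ht, hts, htC⟩ := hd (tr j p' q') ((hP0 _ _ _).2 h')
        ((hR _ _ _ _ _ _).2 ⟨h', h, rfl, h1, h2⟩)
      obtain ⟨k, p2, q2, rfl, h''⟩ := hP0' t ht
      rw [hCm] at htC
      rw [hR] at hts
      obtain ⟨-, -, rfl, h4, h5⟩ := hts
      have h6 := htC.2.2
      cases ε
      · exact h''.2.2.2.2.2 y (h4 _ h3) h6
      · exact h''.2.2.2.2.2 y h6 (h5 _ h3)
  -- the whole fibre
  have dE : ∀ i : M, Dfn₁ (fun s : M => ∃ p q, s = tr i p q) := by
    intro i; unfold Dfn₁; (repeat' (first | with_reducible apply Dfn₄.app dfn_Cd | with_reducible apply DTm₃.app dtm_tr | with_reducible apply DTm₃.app dtm_cyl | with_reducible apply DTm₂.app dtm_del | with_reducible apply Dfn₂.app dfn_Cov | with_reducible apply Dfn₂.app dfn_Lev | with_reducible apply DTm₂.app dtm_Phi | with_reducible apply Dfn₁.app dfn_FinS | with_reducible apply DTm₂.app dtm_RO | with_reducible apply DTm₃.app dtm_cpl | with_reducible apply DTm₃.app dtm_rc | with_reducible apply DTm₂.app dtm_prod | with_reducible apply DTm₂.app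 dtm_cap | with_reducible apply DTm₂.app dtm_diff | with_reducible apply DTm₁.app dtm_Pow | with_reducible apply DTm₂.app dtm_ins | with_reducible apply DTm₂.app dtm_cup | with_reducible apply DTm₁.app dtm_Un | with_reducible apply DTm₂.app dtm_pr | with_reducible apply DTm₁.app dtm_sing | with_reducible apply DTm₂.app dtm_upair | with_reducible apply DTm.sep | with_reducible apply Dfn₂.app dfn_sub | with_reducible apply Dfn.all | with_reducible apply Dfn.ex | with_reducible apply Dfn.not | with_reducible apply Dfn.and | with_reducible apply Dfn.or | with_reducible apply Dfn.imp | with_reducible apply Dfn.iff | with_reducible apply Dfn.eq | with_reducible apply Dfn.mem | with_reducible exact DTm.var _ | with_reducible exact DTm.const _ | with_reducible exact Dfn.constProp _ | with_reducible apply DTm.wk | assumption))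
  have hEm : ∀ i j p q, tr j p q ∈ sep P0 (fun s => ∃ p q, s = tr i p q) ↔
      Cd a j p q ∧ j = i := by
    intro i j p q
    rw [mem_sep (dE i), hP0]
    constructor
    · rintro ⟨h, p', q', e⟩
      obtain ⟨rfl, rfl, rfl⟩ := tr_inj e
      exact ⟨h, rfl⟩
    · rintro ⟨h, rfl⟩
      exact ⟨h, p, q, rfl⟩
  have hERO : ∀ i, sep P0 (fun s => ∃ p q, s = tr i p q) ∈ RO P0 R' := by
    intro i
    refine (mem_RO' pre').2 ⟨fun s hs => ((mem_sep (dE i)).1 hs).1, ?_, ?_⟩
    · intro s t hs ht hts
      obtain ⟨j, p, q, rfl, h⟩ := hP0' s (((mem_sep (dE i)).1 hs).1)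
      obtain ⟨k, p', q', rfl, h'⟩ := hP0' t ht
      rw [hEm] at hs ⊢
      rw [hR'] at hts
      exact ⟨h', hts.2.2.1.trans hs.2⟩
    · intro s hs hd
      obtain ⟨j, p, q, rfl, h⟩ := hP0' s hs
      obtain ⟨t, ht, hts, htC⟩ := hd _ hs (pre'.refl _ hs)
      obtain ⟨k, p', q', rfl, h'⟩ := hP0' t ht
      rw [hEm] at htC ⊢
      rw [hR'] at hts
      exact ⟨h, hts.2.2.1.symm.trans htC.2⟩
  -- the family
  let W1 : Bool → M → M → Prop := fun ε i d => ∃ p q y u, d = cup p q ∧ Cd a i p q ∧ y ∈ i ∧
    y ∈ sd ε p q ∧ u ∈ RO P0 R' ∧ pr (C ε i y) u ∈ r ∧ tr i p q ∈ u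
  have dW1 : ∀ ε, Dfn₂ (W1 ε) := by
    intro ε
    unfold Dfn₂
    simp only [W1, sd]
    apply Dfn.ex; apply Dfn.ex; apply Dfn.ex; apply Dfn.ex
    refine Dfn.and (by (repeat' (first | with_reducible apply Dfn₄.app dfn_Cd | with_reducible apply DTm₃.app dtm_tr | with_reducible apply DTm₃.app dtm_cyl | with_reducible apply DTm₂.app dtm_del | with_reducible apply Dfn₂.app dfn_Cov | with_reducible apply Dfn₂.app dfn_Lev | with_reducible apply DTm₂.app dtm_Phi | with_reducible apply Dfn₁.app dfn_FinS | with_reducible apply DTm₂.app dtm_RO | with_reducible apply DTm₃.app dtm_cpl | with_reducible apply DTm₃.app dtm_rc | with_reducible apply DTm₂.app dtm_prod | with_reducible apply DTm₂.app dtm_cap | with_reducible apply DTm₂.app dtm_diff | with_reducible apply DTm₁.app dtm_Pow | with_reducible apply DTm₂.app dtm_ins | with_reducible apply DTm₂.app dtm_cup | with_reducible apply DTm₁.app dtm_Un | with_reducible apply DTm₂.app dtm_pr | with_reducible apply DTm₁.app dtm_sing | with_reducible apply DTm₂.app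 dtm_upair | with_reducible apply DTm.sep | with_reducible apply Dfn₂.app dfn_sub | with_reducible apply Dfn.all | with_reducible apply Dfn.ex | with_reducible apply Dfn.not | with_reducible apply Dfn.and | with_reducible apply Dfn.or | with_reducible apply Dfn.imp | with_reducible apply Dfn.iff | with_reducible apply Dfn.eq | with_reducible apply Dfn.mem | with_reducible exact DTm.var _ | with_reducible exact DTm.const _ | with_reducible exact Dfn.constProp _ | with_reducible apply DTm.wk | assumption))) (Dfn.and (by (repeat' (first | with_reducible apply Dfn₄.app dfn_Cd | with_reducible apply DTm₃.app dtm_tr | with_reducible apply DTm₃.app dtm_cyl | with_reducible apply DTm₂.app dtm_del | with_reducible apply Dfn₂.app dfn_Cov | with_reducible apply Dfn₂.app dfn_Lev | with_reducible apply DTm₂.app dtm_Phi | with_reducible apply Dfn₁.app dfn_FinS | with_reducible apply DTm₂.app dtm_RO | with_reducible apply DTm₃.app dtm_cpl | with_reducible apply DTm₃.app dtm_rc | with_reducible apply DTm₂.app dtm_prod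 | with_reducible apply DTm₂.app dtm_cap | with_reducible apply DTm₂.app dtm_diff | with_reducible apply DTm₁.app dtm_Pow | with_reducible apply DTm₂.app dtm_ins | with_reducible apply DTm₂.app dtm_cup | with_reducible apply DTm₁.app dtm_Un | with_reducible apply DTm₂.app dtm_pr | with_reducible apply DTm₁.app dtm_sing | with_reducible apply DTm₂.app dtm_upair | with_reducible apply DTm.sep | with_reducible apply Dfn₂.app dfn_sub | with_reducible apply Dfn.all | with_reducible apply Dfn.ex | with_reducible apply Dfn.not | with_reducible apply Dfn.and | with_reducible apply Dfn.or | with_reducible apply Dfn.imp | with_reducible apply Dfn.iff | with_reducible apply Dfn.eq | with_reducible apply Dfn.mem | with_reducible exact DTm.var _ | with_reducible exact DTm.const _ | with_reducible exact Dfn.constProp _ | with_reducible apply DTm.wk | assumption))) (Dfn.and (by (repeat' (first | with_reducible apply Dfn₄.app dfn_Cd | with_reducible apply DTm₃.app dtm_tr | with_reducible apply DTm₃.app dtm_cyl | with_reducible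 apply DTm₂.app dtm_del | with_reducible apply Dfn₂.app dfn_Cov | with_reducible apply Dfn₂.app dfn_Lev | with_reducible apply DTm₂.app dtm_Phi | with_reducible apply Dfn₁.app dfn_FinS | with_reducible apply DTm₂.app dtm_RO | with_reducible apply DTm₃.app dtm_cpl | with_reducible apply DTm₃.app dtm_rc | with_reducible apply DTm₂.app dtm_prod | with_reducible apply DTm₂.app dtm_cap | with_reducible apply DTm₂.app dtm_diff | with_reducible apply DTm₁.app dtm_Pow | with_reducible apply DTm₂.app dtm_ins | with_reducible apply DTm₂.app dtm_cup | with_reducible apply DTm₁.app dtm_Un | with_reducible apply DTm₂.app dtm_pr | with_reducible apply DTm₁.app dtm_sing | with_reducible apply DTm₂.app dtm_upair | with_reducible apply DTm.sep | with_reducible apply Dfn₂.app dfn_sub | with_reducible apply Dfn.all | with_reducible apply Dfn.ex | with_reducible apply Dfn.not | with_reducible apply Dfn.and | with_reducible apply Dfn.or | with_reducible apply Dfn.imp | with_reducible apply Dfn.iff | with_reducible apply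 Dfn.eq | with_reducible apply Dfn.mem | with_reducible exact DTm.var _ | with_reducible exact DTm.const _ | with_reducible exact Dfn.constProp _ | with_reducible apply DTm.wk | assumption))) (Dfn.and ?_ (Dfn.and (by (repeat' (first | with_reducible apply Dfn₄.app dfn_Cd | with_reducible apply DTm₃.app dtm_tr | with_reducible apply DTm₃.app dtm_cyl | with_reducible apply DTm₂.app dtm_del | with_reducible apply Dfn₂.app dfn_Cov | with_reducible apply Dfn₂.app dfn_Lev | with_reducible apply DTm₂.app dtm_Phi | with_reducible apply Dfn₁.app dfn_FinS | with_reducible apply DTm₂.app dtm_RO | with_reducible apply DTm₃.app dtm_cpl | with_reducible apply DTm₃.app dtm_rc | with_reducible apply DTm₂.app dtm_prod | with_reducible apply DTm₂.app dtm_cap | with_reducible apply DTm₂.app dtm_diff | with_reducible apply DTm₁.app dtm_Pow | with_reducible apply DTm₂.app dtm_ins | with_reducible apply DTm₂.app dtm_cup | with_reducible apply DTm₁.app dtm_Un | with_reducible apply DTm₂.app dtm_pr | with_reducible apply DTm₁.app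 dtm_sing | with_reducible apply DTm₂.app dtm_upair | with_reducible apply DTm.sep | with_reducible apply Dfn₂.app dfn_sub | with_reducible apply Dfn.all | with_reducible apply Dfn.ex | with_reducible apply Dfn.not | with_reducible apply Dfn.and | with_reducible apply Dfn.or | with_reducible apply Dfn.imp | with_reducible apply Dfn.iff | with_reducible apply Dfn.eq | with_reducible apply Dfn.mem | with_reducible exact DTm.var _ | with_reducible exact DTm.const _ | with_reducible exact Dfn.constProp _ | with_reducible apply DTm.wk | assumption)))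
      (Dfn.and ?_ (by (repeat' (first | with_reducible apply Dfn₄.app dfn_Cd | with_reducible apply DTm₃.app dtm_tr | with_reducible apply DTm₃.app dtm_cyl | with_reducible apply DTm₂.app dtm_del | with_reducible apply Dfn₂.app dfn_Cov | with_reducible apply Dfn₂.app dfn_Lev | with_reducible apply DTm₂.app dtm_Phi | with_reducible apply Dfn₁.app dfn_FinS | with_reducible apply DTm₂.app dtm_RO | with_reducible apply DTm₃.app dtm_cpl | with_reducible apply DTm₃.app dtm_rc | with_reducible apply DTm₂.app dtm_prod | with_reducible apply DTm₂.app dtm_cap | with_reducible apply DTm₂.app dtm_diff | with_reducible apply DTm₁.app dtm_Pow | with_reducible apply DTm₂.app dtm_ins | with_reducible apply DTm₂.app dtm_cup | with_reducible apply DTm₁.app dtm_Un | with_reducible apply DTm₂.app dtm_pr | with_reducible apply DTm₁.app dtm_sing | with_reducible apply DTm₂.app dtm_upair | with_reducible apply DTm.sep | with_reducible apply Dfn₂.app dfn_sub | with_reducible apply Dfn.all | with_reducible apply Dfn.ex | with_reducible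 apply Dfn.not | with_reducible apply Dfn.and | with_reducible apply Dfn.or | with_reducible apply Dfn.imp | with_reducible apply Dfn.iff | with_reducible apply Dfn.eq | with_reducible apply Dfn.mem | with_reducible exact DTm.var _ | with_reducible exact DTm.const _ | with_reducible exact Dfn.constProp _ | with_reducible apply DTm.wk | assumption))))))))
    · cases ε <;> simp only [if_true, if_false, Bool.false_eq_true] <;> (repeat' (first | with_reducible apply Dfn₄.app dfn_Cd | with_reducible apply DTm₃.app dtm_tr | with_reducible apply DTm₃.app dtm_cyl | with_reducible apply DTm₂.app dtm_del | with_reducible apply Dfn₂.app dfn_Cov | with_reducible apply Dfn₂.app dfn_Lev | with_reducible apply DTm₂.app dtm_Phi | with_reducible apply Dfn₁.app dfn_FinS | with_reducible apply DTm₂.app dtm_RO | with_reducible apply DTm₃.app dtm_cpl | with_reducible apply DTm₃.app dtm_rc | with_reducible apply DTm₂.app dtm_prod | with_reducible apply DTm₂.app dtm_cap | with_reducible apply DTm₂.app dtm_diff | with_reducible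 apply DTm₁.app dtm_Pow | with_reducible apply DTm₂.app dtm_ins | with_reducible apply DTm₂.app dtm_cup | with_reducible apply DTm₁.app dtm_Un | with_reducible apply DTm₂.app dtm_pr | with_reducible apply DTm₁.app dtm_sing | with_reducible apply DTm₂.app dtm_upair | with_reducible apply DTm.sep | with_reducible apply Dfn₂.app dfn_sub | with_reducible apply Dfn.all | with_reducible apply Dfn.ex | with_reducible apply Dfn.not | with_reducible apply Dfn.and | with_reducible apply Dfn.or | with_reducible apply Dfn.imp | with_reducible apply Dfn.iff | with_reducible apply Dfn.eq | with_reducible apply Dfn.mem | with_reducible exact DTm.var _ | with_reducible exact DTm.const _ | with_reducible exact Dfn.constProp _ | with_reducible apply DTm.wk | assumption))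
    · exact Dfn.mem (dtm_pr.app ((dC2 ε).app (DTm.var _) (DTm.var _)) (DTm.var _)) (DTm.const _)
  -- description of `W1` through `g`
  have hW1 : ∀ ε i d, W1 ε i d ↔ ∃ p q y, ∃ hy : y ∈ i, d = cup p q ∧ Cd a i p q ∧
      y ∈ sd ε p q ∧ tr i p q ∈ (g ⟨C ε i y, hCRO ε i y hy⟩).1 := by
    intro ε i d
    constructor
    · rintro ⟨p, q, y, u, h1, h2, hy, h3, hu, h4, h5⟩
      refine ⟨p, q, y, hy, h1, h2, h3, ?_⟩
      rw [(hg ⟨C ε i y, hCRO ε i y hy⟩ ⟨u, hu⟩).2 h4]
      exact h5
    · rintro ⟨p, q, y, hy, h1, h2, h3, h4⟩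
      exact ⟨p, q, y, _, h1, h2, hy, h3, (g _).2, (hg ⟨C ε i y, hCRO ε i y hy⟩ _).1 rfl, h4⟩
  let W : M → M → Prop := fun i d => W1 true i d ∨ W1 false i d
  have dW : Dfn₂ W := Dfn.or (dW1 true) (dW1 false)
  have hW : ∀ i d, W i d ↔ ∃ ε, W1 ε i d := by
    intro i d
    constructor
    · rintro (h | h)
      · exact ⟨true, h⟩
      · exact ⟨false, h⟩
    · rintro ⟨ε, h⟩
      cases ε
      · exact Or.inr h
      · exact Or.inl h
  -- invariance of the values of `g` under swapping
  have hswap : ∀ x i p q, tr i p q ∈ (g x).1 → tr i q p ∈ (g x).1 := by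
    intro x i p q h
    have h0 := (hP0 _ _ _).1 ((mem_RO.1 (g x).2).1 _ h)
    exact RO_lower pre' (g x).2 h ((hP0 _ _ _).2 h0.swap)
      ((hR' _ _ _ _ _ _).2 ⟨h0.swap, h0, rfl, Or.inr ⟨Sub.refl _, Sub.refl _⟩⟩)
  have hext : ∀ x i p q p' q', tr i p q ∈ (g x).1 → Cd a i p' q' → p ≤ p' → q ≤ q' →
      tr i p' q' ∈ (g x).1 := by
    intro x i p q p' q' h h' h1 h2
    have h0 := (hP0 _ _ _).1 ((mem_RO.1 (g x).2).1 _ h)
    exact RO_lower pre' (g x).2 h ((hP0 _ _ _).2 h')
      ((hR' _ _ _ _ _ _).2 ⟨h', h0, rfl, Or.inl ⟨h1, h2⟩⟩)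
  -- (1) nonempty
  have h1 : ∀ i, i ∈ a → ∃ d, W i d := by
    intro i hi
    obtain ⟨y, hy⟩ := hne i hi
    have e1 : (g ⟨sep P0 (fun s => ∃ p q, s = tr i p q), hsub _ (hERO i)⟩).1 =
        rc P0 R (cup (g ⟨C true i y, hCRO true i y hy⟩).1 (g ⟨C false i y, hCRO false i y hy⟩).1) := by
      apply hsup
      show sep P0 (fun s => ∃ p q, s = tr i p q) = rc P0 R (cup (C true i y) (C false i y))
      apply ext
      intro s
      constructor
      · intro hs
        obtain ⟨j, p, q, rfl, h⟩ := hP0' s (((mem_sep (dE i)).1 hs).1)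
        rw [hEm] at hs
        obtain ⟨-, rfl⟩ := hs
        refine mem_rc.2 ⟨(hP0 _ _ _).2 h, fun t ht hts => ?_⟩
        obtain ⟨k, p', q', rfl, h'⟩ := hP0' t ht
        rw [hR] at hts
        obtain ⟨-, -, rfl, -, -⟩ := hts
        by_cases hyp : y ∈ p'
        · exact ⟨_, ht, pre.refl _ ht, mem_cup.2 (Or.inl ((hCm _ _ _ _ _ _).2 ⟨h', rfl, hyp⟩))⟩
        · by_cases hyq : y ∈ q'
          · exact ⟨_, ht, pre.refl _ ht, mem_cup.2 (Or.inr ((hCm _ _ _ _ _ _).2 ⟨h', rfl, hyq⟩))⟩
          · obtain ⟨p2, q2, h2, h3, h4, h5⟩ := h'.insert true hy hyp hyq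
            exact ⟨tr k p2 q2, (hP0 _ _ _).2 h2, (hR _ _ _ _ _ _).2 ⟨h2, h', rfl, h3, h4⟩,
              mem_cup.2 (Or.inl ((hCm _ _ _ _ _ _).2 ⟨h2, rfl, h5⟩))⟩
      · intro hs
        obtain ⟨hs0, hs⟩ := mem_rc.1 hs
        obtain ⟨t, ht, hts, htC⟩ := hs s hs0 (pre.refl s hs0)
        obtain ⟨j, p, q, rfl, h⟩ := hP0' s hs0
        obtain ⟨k, p', q', rfl, h'⟩ := hP0' t ht
        rw [hR] at hts
        rw [hEm]
        refine ⟨h, ?_⟩
        rw [← hts.2.2.1]
        rcases mem_cup.1 htC with h2 | h2
        · exact ((hCm _ _ _ _ _ _).1 h2).2.1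
        · exact ((hCm _ _ _ _ _ _).1 h2).2.1
    have e0 := (hid ⟨_, hsub _ (hERO i)⟩ (hERO i)).symm.trans e1
    have e2 : tr i emp emp ∈ sep P0 (fun s => ∃ p q, s = tr i p q) := by
      rw [hEm]
      refine ⟨⟨hi, finS_emp, finS_emp, ?_, ?_, ?_⟩, rfl⟩
      · exact fun x hx => (not_mem_emp x hx).elim
      · exact fun x hx => (not_mem_emp x hx).elim
      · exact fun x hx => (not_mem_emp x hx).elim
    have e3 : tr i emp emp ∈ rc P0 R (cup (g ⟨C true i y, hCRO true i y hy⟩).1
        (g ⟨C false i y, hCRO false i y hy⟩).1) := by rw [← e0]; exact e2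
    obtain ⟨e4, e5⟩ := mem_rc.1 e3
    obtain ⟨t, ht, hts, htC⟩ := e5 _ e4 (pre.refl _ e4)
    obtain ⟨k, p, q, rfl, h⟩ := hP0' t ht
    rw [hR] at hts
    obtain ⟨-, -, rfl, -, -⟩ := hts
    have e6 : ∃ ε, tr k p q ∈ (g ⟨C ε k y, hCRO ε k y hy⟩).1 := by
      rcases mem_cup.1 htC with h2 | h2
      · exact ⟨true, h2⟩
      · exact ⟨false, h2⟩
    obtain ⟨ε, e6⟩ := e6
    have e7 : ∃ p' q', Cd a k p' q' ∧ y ∈ sd ε p' q' ∧
        tr k p' q' ∈ (g ⟨C ε k y, hCRO ε k y hy⟩).1 := by
      by_cases hy1 : y ∈ sd ε p q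
      · exact ⟨p, q, h, hy1, e6⟩
      · by_cases hy2 : y ∈ sd ε q p
        · exact ⟨q, p, h.swap, hy2, hswap _ _ _ _ e6⟩
        · have h3 : y ∉ p ∧ y ∉ q := by
            cases ε
            · exact ⟨hy2, hy1⟩
            · exact ⟨hy1, hy2⟩
          obtain ⟨p', q', h4, h5, h6, h7⟩ := h.insert ε hy h3.1 h3.2
          exact ⟨p', q', h4, h7, hext _ _ _ _ _ _ e6 h4 h5 h6⟩
    obtain ⟨p', q', h4, h5, h6⟩ := e7
    exact ⟨cup p' q', (hW _ _).2 ⟨ε, (hW1 _ _ _).2 ⟨p', q', y, hy, rfl, h4, h5, h6⟩⟩⟩
  -- (2) finite subsets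
  have h2 : ∀ i, i ∈ a → ∀ d, W i d → FinS d ∧ d ≤ i := by
    intro i hi d hd
    obtain ⟨ε, hd⟩ := (hW i d).1 hd
    obtain ⟨p, q, y, u, rfl, hc, -⟩ := hd
    refine ⟨hc.2.1.cup hc.2.2.1, fun x hx => ?_⟩
    rcases mem_cup.1 hx with hx | hx
    · exact hc.2.2.2.1 x hx
    · exact hc.2.2.2.2.1 x hx
  -- (3) intersecting
  have h3 : ∀ i, i ∈ a → ∀ d d', W i d → W i d' → ∃ x, x ∈ d ∧ x ∈ d' := by
    intro i hi d d' hd hd'
    obtain ⟨ε, hd⟩ := (hW i d).1 hd
    obtain ⟨δ, hd'⟩ := (hW i d').1 hd'
    obtain ⟨p, q, y, hy, rfl, hc, hys, hgy⟩ := (hW1 _ _ _).1 hd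
    obtain ⟨p', q', y', hy', rfl, hc', hys', hgy'⟩ := (hW1 _ _ _).1 hd'
    by_contra hcon
    push Not at hcon
    -- the common extension of `(p, q)` and `(q', p')`
    have hnew : Cd a i (cup p q') (cup q p') := by
      refine ⟨hi, hc.2.1.cup hc'.2.2.1, hc.2.2.1.cup hc'.2.1, ?_, ?_, ?_⟩
      · intro x hx
        rcases mem_cup.1 hx with hx | hx
        · exact hc.2.2.2.1 x hx
        · exact hc'.2.2.2.2.1 x hx
      · intro x hx
        rcases mem_cup.1 hx with hx | hx
        · exact hc.2.2.2.2.1 x hx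
        · exact hc'.2.2.2.1 x hx
      · intro x hx hx'
        rcases mem_cup.1 hx with hx | hx <;> rcases mem_cup.1 hx' with hx' | hx'
        · exact hc.2.2.2.2.2 x hx hx'
        · exact hcon x (mem_cup.2 (Or.inl hx)) (mem_cup.2 (Or.inl hx'))
        · exact hcon x (mem_cup.2 (Or.inr hx')) (mem_cup.2 (Or.inr hx))
        · exact hc'.2.2.2.2.2 x hx' hx
    have hs0 : tr i (cup p q') (cup q p') ∈ P0 := (hP0 _ _ _).2 hnew
    have g1 : tr i (cup p q') (cup q p') ∈ (g ⟨C ε i y, hCRO ε i y hy⟩).1 :=
      hext _ _ _ _ _ _ hgy hnew (fun x hx => mem_cup.2 (Or.inl hx))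
        (fun x hx => mem_cup.2 (Or.inl hx))
    have g2 : tr i (cup p q') (cup q p') ∈ (g ⟨C δ i y', hCRO δ i y' hy'⟩).1 :=
      hext _ _ _ _ _ _ (hswap _ _ _ _ hgy') hnew (fun x hx => mem_cup.2 (Or.inr hx))
        (fun x hx => mem_cup.2 (Or.inr hx))
    -- the invariant element `b`
    let z : M := cup (cap (C ε i y) (C (!δ) i y')) (cap (C (!ε) i y) (C δ i y'))
    have hzl : ∀ s t, s ∈ z → t ∈ P0 → pr t s ∈ R' → t ∈ z := by
      intro s t hs ht hts
      have hs00 : s ∈ P0 := by
        rcases mem_cup.1 hs with hs | hs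
        · exact hCP _ _ _ _ (mem_cap.1 hs).1
        · exact hCP _ _ _ _ (mem_cap.1 hs).1
      obtain ⟨j, p1, q1, rfl, hj⟩ := hP0' s hs00
      obtain ⟨k, p2, q2, rfl, hk⟩ := hP0' t ht
      rw [hR'] at hts
      obtain ⟨-, -, rfl, hts⟩ := hts
      show tr k p2 q2 ∈ cup (cap (C ε i y) (C (!δ) i y')) (cap (C (!ε) i y) (C δ i y'))
      have hs' : tr k p1 q1 ∈ cup (cap (C ε i y) (C (!δ) i y')) (cap (C (!ε) i y) (C δ i y')) := hs
      simp only [mem_cup, mem_cap, hCm] at hs' ⊢
      rcases hts with ⟨h4, h5⟩ | ⟨h4, h5⟩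
      · have key : ∀ ε x, x ∈ sd ε p1 q1 → x ∈ sd ε p2 q2 := by
          intro ε x
          cases ε
          · exact h5 x
          · exact h4 x
        rcases hs' with ⟨⟨a1, a2, a3⟩, ⟨a4, a5, a6⟩⟩ | ⟨⟨a1, a2, a3⟩, ⟨a4, a5, a6⟩⟩
        · exact Or.inl ⟨⟨hk, a2, key _ _ a3⟩, ⟨hk, a5, key _ _ a6⟩⟩
        · exact Or.inr ⟨⟨hk, a2, key _ _ a3⟩, ⟨hk, a5, key _ _ a6⟩⟩
      · have key : ∀ ε x, x ∈ sd ε p1 q1 → x ∈ sd (!ε) p2 q2 := by
          intro ε x
          cases ε
          · exact h4 x
          · exact h5 x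
        rcases hs' with ⟨⟨a1, a2, a3⟩, ⟨a4, a5, a6⟩⟩ | ⟨⟨a1, a2, a3⟩, ⟨a4, a5, a6⟩⟩
        · refine Or.inr ⟨⟨hk, a2, key _ _ a3⟩, ⟨hk, a5, ?_⟩⟩
          have := key _ _ a6
          rwa [Bool.not_not] at this
        · refine Or.inl ⟨⟨hk, a2, ?_⟩, ⟨hk, a5, key _ _ a6⟩⟩
          have := key _ _ a3
          rwa [Bool.not_not] at this
    have hb : rc P0 R' z ∈ RO P0 R' := rc_mem_RO pre' z
    have g3 : tr i (cup p q') (cup q p') ∈ rc P0 R' z := by
      refine mem_rc.2 ⟨hs0, fun t ht hts => ⟨t, ht, pre'.refl t ht, hzl _ t ?_ ht hts⟩⟩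
      show _ ∈ cup (cap (C ε i y) (C (!δ) i y')) (cap (C (!ε) i y) (C δ i y'))
      rw [mem_cup, mem_cap, hCm, hCm]
      refine Or.inl ⟨⟨hnew, rfl, ?_⟩, ⟨hnew, rfl, ?_⟩⟩
      · cases ε
        · exact mem_cup.2 (Or.inl hys)
        · exact mem_cup.2 (Or.inl hys)
      · cases δ
        · exact mem_cup.2 (Or.inr hys')
        · exact mem_cup.2 (Or.inr hys')
    -- the product is `∅`
    let v : M := cap (C ε i y) (C δ i y')
    have hv : v ∈ RO P0 R := cap_mem_RO pre (hCRO ε i y hy) (hCRO δ i y' hy')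
    have hbv : emp = cap (rc P0 R' z) v := by
      apply Eq.symm
      rw [eq_emp_iff]
      intro s hs
      obtain ⟨hs1, hs2⟩ := mem_cap.1 hs
      obtain ⟨hs00, hs1⟩ := mem_rc.1 hs1
      obtain ⟨t, ht, hts, htz⟩ := hs1 s hs00 (pre'.refl s hs00)
      obtain ⟨t', ht', ht's, ht't⟩ := hcomp s t hs00 ht hts
      have h4 := hzl t t' htz ht' ht't
      have h5 := RO_lower pre hv hs2 ht' ht's
      obtain ⟨j, p1, q1, rfl, hj⟩ := hP0' t' ht'
      have h4' : tr j p1 q1 ∈ cup (cap (C ε i y) (C (!δ) i y')) (cap (C (!ε) i y) (C δ i y')) := h4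
      have h5' : tr j p1 q1 ∈ cap (C ε i y) (C δ i y') := h5
      simp only [mem_cup, mem_cap, hCm] at h4' h5'
      have key : ∀ ε x, x ∈ sd ε p1 q1 → x ∈ sd (!ε) p1 q1 → False := by
        intro ε x hx hx'
        cases ε
        · exact hj.2.2.2.2.2 x hx' hx
        · exact hj.2.2.2.2.2 x hx hx'
      rcases h4' with h4 | h4
      · exact key _ _ h5'.2.2.2 h4.2.2.2
      · exact key _ _ h5'.1.2.2 h4.1.2.2
    have e1 : (g ⟨v, hv⟩).1 = cap (g ⟨C ε i y, hCRO ε i y hy⟩).1 (g ⟨C δ i y', hCRO δ i y' hy'⟩).1 :=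
      hcap _ _ _ rfl
    have e2 : (g ⟨emp, emp_mem_RO pre⟩).1 = cap (g ⟨rc P0 R' z, hsub _ hb⟩).1 (g ⟨v, hv⟩).1 :=
      hcap _ _ _ hbv
    have e3 : (g ⟨emp, emp_mem_RO pre⟩).1 = emp := hid _ (emp_mem_RO pre')
    have e4 : (g ⟨rc P0 R' z, hsub _ hb⟩).1 = rc P0 R' z := hid _ hb
    have : tr i (cup p q') (cup q p') ∈ (emp : M) := by
      rw [← e3, e2, e4, e1]
      exact mem_cap.2 ⟨g3, mem_cap.2 ⟨g1, g2⟩⟩
    exact not_mem_emp _ this
  obtain ⟨K, dK, hK⟩ := kernel a W dW h1 h2 h3
  obtain ⟨f, hf1, hf2⟩ := finite_choice hI a K dK hK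
  refine ⟨f, fun p hp => ?_, fun x hx => ?_⟩
  · obtain ⟨x, y, hx, rfl⟩ := hf1 p hp
    exact ⟨x, y, hx, isPair_iff.2 rfl⟩
  · obtain ⟨y, hy, h⟩ := hf2 x hx
    exact ⟨y, hy, fun z => by rw [pairIn_iff]; exact h z⟩

end SIK
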