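import Pool.Agent.W_MP_238801_lc.Defs

/-!
# Definability calculus and basic set operations inside a model of ZF
-/

universe u

set_option linter.unusedSectionVars false
set_option linter.unreachableTactic false
set_option linter.unusedTactic false

namespace SIK

/-- Bundled model of ZF. -/
class ZFModel (M : Type u) where
  E : M → M → Prop
  isZF : IsZF E

/-- membership of the model -/
instance instMembershipModel {M : Type u} [ZFModel M] : Membership M M := ⟨fun a x => ZFModel.E x a⟩

variable {M : Type u} [ZFModel M]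


/-- `a ≤ b` is the subset relation of the model. -/
instance instOrderModel : PartialOrder M where
  le a b := ∀ x : M, x ∈ a → x ∈ b
  le_refl _ _ h := h
  le_trans _ _ _ h h' x hx := h' x (h x hx)
  le_antisymm a b h h' := ZFModel.isZF.ext a b (fun x => ⟨h x, h' x⟩)

/-! ### Definable predicates -/

/-- `P` is definable by a formula with parameters. -/
def Dfn {n : ℕ} (P : (Fin n → M) → Prop) : Prop :=
  ∃ φ : Fml M n, ∀ v, φ.Sat ZFModel.E v ↔ P v

/-- `t` is a definable function of the variables. -/
def DTm {n : ℕ} (t : (Fin n → M) → M) : Prop :=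
  Dfn (fun w : Fin (n + 1) → M => w 0 = t (fun i => w i.succ))

theorem Dfn.congr {n : ℕ} {P Q : (Fin n → M) → Prop} (h : Dfn P) (hPQ : ∀ v, Q v ↔ P v) :
    Dfn Q := by
  obtain ⟨φ, hφ⟩ := h
  exact ⟨φ, fun v => (hφ v).trans (hPQ v).symm⟩

theorem DTm.congr {n : ℕ} {s t : (Fin n → M) → M} (h : DTm s) (hst : ∀ v, t v = s v) :
    DTm t := by
  have : t = s := funext hst
  rw [this]; exact h

theorem Dfn.not {n : ℕ} {P : (Fin n → M) → Prop} (h : Dfn P) : Dfn (fun v => ¬ P v) := by
  obtain ⟨φ, hφ⟩ := h
  exact ⟨.neg φ, fun v => by simp [Fml.Sat, hφ]⟩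

theorem Dfn.and {n : ℕ} {P Q : (Fin n → M) → Prop} (h : Dfn P) (h' : Dfn Q) :
    Dfn (fun v => P v ∧ Q v) := by
  obtain ⟨φ, hφ⟩ := h
  obtain ⟨ψ, hψ⟩ := h'
  exact ⟨.and φ ψ, fun v => by simp [Fml.Sat, hφ, hψ]⟩

theorem Dfn.or {n : ℕ} {P Q : (Fin n → M) → Prop} (h : Dfn P) (h' : Dfn Q) :
    Dfn (fun v => P v ∨ Q v) :=
  (h.not.and h'.not).not.congr (fun v => by tauto)

theorem Dfn.imp {n : ℕ} {P Q : (Fin n → M) → Prop} (h : Dfn P) (h' : Dfn Q) :
    Dfn (fun v => P v → Q v) :=
  (h.not.or h').congr (fun v => by tauto)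

theorem Dfn.iff {n : ℕ} {P Q : (Fin n → M) → Prop} (h : Dfn P) (h' : Dfn Q) :
    Dfn (fun v => P v ↔ Q v) :=
  ((h.imp h').and (h'.imp h)).congr (fun v => by tauto)

theorem Dfn.all {n : ℕ} {Q : (Fin n → M) → M → Prop}
    (h : Dfn (fun w : Fin (n + 1) → M => Q (fun i => w i.succ) (w 0))) :
    Dfn (fun v => ∀ x, Q v x) := by
  obtain ⟨φ, hφ⟩ := h
  exact ⟨.all φ, fun v => by simp [Fml.Sat, hφ]⟩

theorem Dfn.ex {n : ℕ} {Q : (Fin n → M) → M → Prop}
    (h : Dfn (fun w : Fin (n + 1) → M => Q (fun i => w i.succ) (w 0))) :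
    Dfn (fun v => ∃ x, Q v x) :=
  (Dfn.all (Q := fun v x => ¬ Q v x) h.not).not.congr (fun v => by simp)

theorem Dfn.constProp {n : ℕ} (p : Prop) : Dfn (fun _ : Fin n → M => p) := by
  obtain ⟨a, -⟩ := (ZFModel.isZF (M := M)).infinity
  by_cases hp : p
  · exact ⟨.eq (.inr a) (.inr a), fun v => by simp [Fml.Sat, hp]⟩
  · exact ⟨.neg (.eq (.inr a) (.inr a)), fun v => by simp [Fml.Sat, hp]⟩

/-! Renaming -/

/-- lift a renaming under a binder -/
def liftRen {m n : ℕ} (ρ : Fin m → Fin n) : Fin (m + 1) → Fin (n + 1) :=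
  Fin.cons 0 (fun i => (ρ i).succ)

def Fml.ren : {m n : ℕ} → (Fin m → Fin n) → Fml M m → Fml M n
  | _, _, ρ, .mem s t => .mem (s.map ρ id) (t.map ρ id)
  | _, _, ρ, .eq s t => .eq (s.map ρ id) (t.map ρ id)
  | _, _, ρ, .neg φ => .neg (φ.ren ρ)
  | _, _, ρ, .and φ ψ => .and (φ.ren ρ) (ψ.ren ρ)
  | _, _, ρ, .all φ => .all (φ.ren (liftRen ρ))

theorem val_map {m n : ℕ} (ρ : Fin m → Fin n) (v : Fin n → M) (s : Fin m ⊕ M) :
    val v (s.map ρ id) = val (fun i => v (ρ i)) s := by
  cases s <;> simp [val]

theorem cons_liftRen {m n : ℕ} (ρ : Fin m → Fin n) (v : Fin n → M) (x : M) :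
    (fun i => (Fin.cons x v : Fin (n + 1) → M) (liftRen ρ i)) =
      (Fin.cons x (fun i => v (ρ i)) : Fin (m + 1) → M) := by
  funext i
  refine Fin.cases ?_ (fun j => ?_) i
  · simp [liftRen]
  · simp [liftRen]

theorem Fml.sat_ren {m : ℕ} (φ : Fml M m) : ∀ {n : ℕ} (ρ : Fin m → Fin n) (v : Fin n → M),
    (φ.ren ρ).Sat ZFModel.E v ↔ φ.Sat ZFModel.E (fun i => v (ρ i)) := by
  induction φ with
  | mem s t => intro n ρ v; simp [Fml.ren, Fml.Sat, val_map]
  | eq s t => intro n ρ v; simp [Fml.ren, Fml.Sat, val_map]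
  | neg φ ih => intro n ρ v; simp [Fml.ren, Fml.Sat, ih]
  | and φ ψ ih ih' => intro n ρ v; simp [Fml.ren, Fml.Sat, ih, ih']
  | all φ ih =>
    intro n ρ v
    simp only [Fml.ren, Fml.Sat, ih, cons_liftRen]

theorem Dfn.ren {m n : ℕ} {P : (Fin m → M) → Prop} (h : Dfn P) (ρ : Fin m → Fin n) :
    Dfn (fun v => P (fun i => v (ρ i))) := by
  obtain ⟨φ, hφ⟩ := h
  exact ⟨φ.ren ρ, fun v => by rw [Fml.sat_ren, hφ]⟩

theorem DTm.var {n : ℕ} (i : Fin n) : DTm (fun v : Fin n → M => v i) :=
  ⟨.eq (.inl 0) (.inl i.succ), fun v => by simp [Fml.Sat, val]⟩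

theorem DTm.const {n : ℕ} (c : M) : DTm (fun _ : Fin n → M => c) :=
  ⟨.eq (.inl 0) (.inr c), fun v => by simp [Fml.Sat, val]⟩

theorem DTm.wk {n : ℕ} {t : (Fin n → M) → M} (h : DTm t) :
    DTm (fun w : Fin (n + 1) → M => t (fun i => w i.succ)) := by
  have := Dfn.ren h (liftRen (fun i : Fin n => i.succ))
  refine this.congr (fun v => ?_)
  simp [liftRen]

theorem Dfn.subst {n : ℕ} {Q : (Fin n → M) → M → Prop}
    (h : Dfn (fun w : Fin (n + 1) → M => Q (fun i => w i.succ) (w 0)))
    {t : (Fin n → M) → M} (ht : DTm t) : Dfn (fun v => Q v (t v)) := by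
  have : Dfn (fun v : Fin n → M => ∃ x, x = t v ∧ Q v x) :=
    Dfn.ex (Q := fun v x => x = t v ∧ Q v x) (Dfn.and ht h)
  exact this.congr (fun v => by simp)

theorem Dfn.mem {n : ℕ} {s t : (Fin n → M) → M} (hs : DTm s) (ht : DTm t) :
    Dfn (fun v => s v ∈ t v) := by
  refine Dfn.subst (Q := fun v x => s v ∈ x) ?_ ht
  refine Dfn.subst (Q := fun (w : Fin (n + 1) → M) y => y ∈ w 0) ?_ hs.wk
  exact ⟨.mem (.inl 0) (.inl (Fin.succ 0)), fun v => by simp only [Fml.Sat, val]; exact Iff.rfl⟩

theorem Dfn.eq {n : ℕ} {s t : (Fin n → M) → M} (hs : DTm s) (ht : DTm t) :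
    Dfn (fun v => s v = t v) := by
  refine Dfn.subst (Q := fun v x => s v = x) ?_ ht
  refine Dfn.subst (Q := fun (w : Fin (n + 1) → M) y => y = w 0) ?_ hs.wk
  exact ⟨.eq (.inl 0) (.inl (Fin.succ 0)), fun v => by simp [Fml.Sat, val]⟩

theorem dfn_sat_comp {k : ℕ} (φ : Fml M k) : ∀ {n : ℕ} (t : Fin k → (Fin n → M) → M),
    (∀ j, DTm (t j)) → Dfn (fun v => φ.Sat ZFModel.E (fun j => t j v)) := by
  induction φ with
  | mem s t' =>
    intro n t ht
    have key : ∀ s : Fin _ ⊕ M, DTm (fun v : Fin n → M => val (fun j => t j v) s) := by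
      intro s
      cases s with
      | inl j => exact ht j
      | inr c => exact DTm.const c
    exact Dfn.mem (key s) (key t')
  | eq s t' =>
    intro n t ht
    have key : ∀ s : Fin _ ⊕ M, DTm (fun v : Fin n → M => val (fun j => t j v) s) := by
      intro s
      cases s with
      | inl j => exact ht j
      | inr c => exact DTm.const c
    exact Dfn.eq (key s) (key t')
  | neg φ ih => intro n t ht; exact (ih t ht).not
  | and φ ψ ih ih' => intro n t ht; exact (ih t ht).and (ih' t ht)
  | all φ ih =>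
    intro n t ht
    refine Dfn.all (Q := fun v x => φ.Sat ZFModel.E (Fin.cons x (fun j => t j v))) ?_
    have := ih (n := n + 1) (Fin.cons (fun w => w 0) (fun j => fun w => t j (fun i => w i.succ)))
      (fun j => by
        refine Fin.cases ?_ (fun j => ?_) j
        · exact DTm.var 0
        · exact (ht j).wk)
    refine this.congr (fun v => ?_)
    have e : (Fin.cons (v 0) (fun j => t j (fun i => v i.succ)) : Fin _ → M) =
        (fun j => (Fin.cons (fun w => w 0) (fun j => fun w => t j (fun i => w i.succ)) :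
          Fin _ → (Fin (n + 1) → M) → M) j v) := by
      funext j
      refine Fin.cases ?_ (fun j => ?_) j
      · simp
      · simp
    rw [e]

theorem Dfn.comp {k n : ℕ} {P : (Fin k → M) → Prop} (hP : Dfn P)
    (t : Fin k → (Fin n → M) → M) (ht : ∀ j, DTm (t j)) : Dfn (fun v => P (fun j => t j v)) := by
  obtain ⟨φ, hφ⟩ := hP
  exact (dfn_sat_comp φ t ht).congr (fun v => (hφ _).symm)

/-- definable unary predicate -/
def Dfn₁ (P : M → Prop) : Prop := Dfn (fun v : Fin 1 → M => P (v 0))
def Dfn₂ (P : M → M → Prop) : Prop := Dfn (fun v : Fin 2 → M => P (v 0) (v 1))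
def Dfn₃ (P : M → M → M → Prop) : Prop := Dfn (fun v : Fin 3 → M => P (v 0) (v 1) (v 2))
def Dfn₄ (P : M → M → M → M → Prop) : Prop :=
  Dfn (fun v : Fin 4 → M => P (v 0) (v 1) (v 2) (v 3))
def Dfn₅ (P : M → M → M → M → M → Prop) : Prop :=
  Dfn (fun v : Fin 5 → M => P (v 0) (v 1) (v 2) (v 3) (v 4))

def DTm₁ (F : M → M) : Prop := Dfn (fun v : Fin 2 → M => v 0 = F (v 1))
def DTm₂ (F : M → M → M) : Prop := Dfn (fun v : Fin 3 → M => v 0 = F (v 1) (v 2))
def DTm₃ (F : M → M → M → M) : Prop := Dfn (fun v : Fin 4 → M => v 0 = F (v 1) (v 2) (v 3))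

theorem Dfn₁.app {P : M → Prop} (hP : Dfn₁ P) {n : ℕ} {t : (Fin n → M) → M} (ht : DTm t) :
    Dfn (fun v => P (t v)) :=
  Dfn.comp hP ![t] (fun j => by fin_cases j; exact ht)

theorem Dfn₂.app {P : M → M → Prop} (hP : Dfn₂ P) {n : ℕ} {s t : (Fin n → M) → M}
    (hs : DTm s) (ht : DTm t) : Dfn (fun v => P (s v) (t v)) :=
  Dfn.comp hP ![s, t] (fun j => by fin_cases j; exacts [hs, ht])

theorem Dfn₃.app {P : M → M → M → Prop} (hP : Dfn₃ P) {n : ℕ} {s t r : (Fin n → M) → M}
    (hs : DTm s) (ht : DTm t) (hr : DTm r) : Dfn (fun v => P (s v) (t v) (r v)) :=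
  Dfn.comp hP ![s, t, r] (fun j => by fin_cases j; exacts [hs, ht, hr])

theorem Dfn₄.app {P : M → M → M → M → Prop} (hP : Dfn₄ P) {n : ℕ} {s t r q : (Fin n → M) → M}
    (hs : DTm s) (ht : DTm t) (hr : DTm r) (hq : DTm q) :
    Dfn (fun v => P (s v) (t v) (r v) (q v)) :=
  Dfn.comp hP ![s, t, r, q] (fun j => by fin_cases j; exacts [hs, ht, hr, hq])

theorem Dfn₅.app {P : M → M → M → M → M → Prop} (hP : Dfn₅ P) {n : ℕ}
    {s t r q p : (Fin n → M) → M}
    (hs : DTm s) (ht : DTm t) (hr : DTm r) (hq : DTm q) (hp : DTm p) :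
    Dfn (fun v => P (s v) (t v) (r v) (q v) (p v)) :=
  Dfn.comp hP ![s, t, r, q, p] (fun j => by fin_cases j; exacts [hs, ht, hr, hq, hp])

theorem DTm₁.app {F : M → M} (hF : DTm₁ F) {n : ℕ} {t : (Fin n → M) → M} (ht : DTm t) :
    DTm (fun v => F (t v)) :=
  Dfn.comp hF ![fun w => w 0, fun w => t (fun i => w i.succ)]
    (fun j => by fin_cases j; exacts [DTm.var 0, ht.wk])

theorem DTm₂.app {F : M → M → M} (hF : DTm₂ F) {n : ℕ} {s t : (Fin n → M) → M}
    (hs : DTm s) (ht : DTm t) : DTm (fun v => F (s v) (t v)) :=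
  Dfn.comp hF ![fun w => w 0, fun w => s (fun i => w i.succ), fun w => t (fun i => w i.succ)]
    (fun j => by fin_cases j; exacts [DTm.var 0, hs.wk, ht.wk])

theorem DTm₃.app {F : M → M → M → M} (hF : DTm₃ F) {n : ℕ} {s t r : (Fin n → M) → M}
    (hs : DTm s) (ht : DTm t) (hr : DTm r) : DTm (fun v => F (s v) (t v) (r v)) :=
  Dfn.comp hF ![fun w => w 0, fun w => s (fun i => w i.succ), fun w => t (fun i => w i.succ),
    fun w => r (fun i => w i.succ)]
    (fun j => by fin_cases j; exacts [DTm.var 0, hs.wk, ht.wk, hr.wk])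



/-- prove definability of a function from a description of its graph by an extensional formula -/
theorem DTm.of_graph {n : ℕ} {t : (Fin n → M) → M} {Q : (Fin (n + 1) → M) → Prop}
    (hQ : Dfn Q) (h : ∀ w : Fin (n + 1) → M, w 0 = t (fun i => w i.succ) ↔ Q w) : DTm t :=
  hQ.congr h

/-! ### Basic sets -/

theorem ext {a b : M} (h : ∀ x, x ∈ a ↔ x ∈ b) : a = b := ZFModel.isZF.ext a b h

theorem ext_iff' {a b : M} : a = b ↔ ∀ x, x ∈ a ↔ x ∈ b :=
  ⟨fun h => h ▸ fun _ => Iff.rfl, ext⟩

theorem Sub.antisymm {a b : M} (h : a ≤ b) (h' : b ≤ a) : a = b :=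
  ext (fun x => ⟨h x, h' x⟩)

theorem Sub.refl (a : M) : a ≤ a := fun _ h => h

theorem Sub.trans {a b c : M} (h : a ≤ b) (h' : b ≤ c) : a ≤ c := fun x hx => h' x (h x hx)

theorem dfn_sub : Dfn₂ (fun a b : M => a ≤ b) := by
  show Dfn (fun v : Fin 2 → M => ∀ x : M, x ∈ v 0 → x ∈ v 1); (repeat' (first | with_reducible apply Dfn.all | with_reducible apply Dfn.ex | with_reducible apply Dfn.not | with_reducible apply Dfn.and | with_reducible apply Dfn.or | with_reducible apply Dfn.imp | with_reducible apply Dfn.iff | with_reducible apply Dfn.eq | with_reducible apply Dfn.mem | with_reducible exact DTm.var _ | with_reducible exact DTm.const _ | with_reducible exact Dfn.constProp _ | with_reducible apply DTm.wk | assumption))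

/-- Separation for definable predicates. -/
theorem exists_sep {P : M → Prop} (hP : Dfn₁ P) (a : M) :
    ∃ b : M, ∀ x : M, x ∈ b ↔ x ∈ a ∧ P x := by
  obtain ⟨φ, hφ⟩ := hP
  obtain ⟨b, hb⟩ := ZFModel.isZF.separation φ a
  exact ⟨b, fun x => (hb x).trans (and_congr Iff.rfl ((hφ ![x]).trans (by simp)))⟩

/-- Replacement for definable relations. -/
theorem exists_repl {P : M → M → Prop} (hP : Dfn₂ P) (a : M)
    (h : ∀ x, x ∈ a → ∃! y, P x y) :
    ∃ b : M, ∀ y : M, y ∈ b ↔ ∃ x, x ∈ a ∧ P x y := by
  obtain ⟨φ, hφ⟩ := hP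
  have key : ∀ x y : M, φ.Sat ZFModel.E ![x, y] ↔ P x y := fun x y => by
    rw [hφ]; simp
  obtain ⟨b, hb⟩ := ZFModel.isZF.replacement φ a (fun x hx => by
    obtain ⟨y, hy, hy'⟩ := h x hx
    exact ⟨y, (key x y).2 hy, fun z hz => hy' z ((key x z).1 hz)⟩)
  exact ⟨b, fun y => (hb y).trans (exists_congr fun x => and_congr Iff.rfl (key x y))⟩

open Classical in
/-- `{x ∈ a | P x}` -/
noncomputable def sep (a : M) (P : M → Prop) : M :=
  if h : ∃ b : M, ∀ x : M, x ∈ b ↔ x ∈ a ∧ P x then h.choose else a

theorem mem_sep_of_ex {P : M → Prop} {a : M} (h : ∃ b : M, ∀ x : M, x ∈ b ↔ x ∈ a ∧ P x) {x : M} :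
    x ∈ sep a P ↔ x ∈ a ∧ P x := by
  unfold sep
  rw [dif_pos h]
  exact h.choose_spec x

theorem mem_sep {P : M → Prop} (hP : Dfn₁ P) {a x : M} : x ∈ sep a P ↔ x ∈ a ∧ P x :=
  mem_sep_of_ex (exists_sep hP a)

theorem Dfn.slice {n : ℕ} {Q : (Fin n → M) → M → Prop}
    (h : Dfn (fun w : Fin (n + 1) → M => Q (fun i => w i.succ) (w 0))) (v : Fin n → M) :
    Dfn₁ (Q v) := by
  refine Dfn.congr (Dfn.comp h (Fin.cons (fun w => w 0) (fun j _ => v j)) ?_) ?_
  · intro j
    refine Fin.cases ?_ (fun j => ?_) j
    · exact DTm.var 0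
    · exact DTm.const _
  · intro w; simp

theorem DTm.sep {n : ℕ} {Q : (Fin n → M) → M → Prop} {t : (Fin n → M) → M} (ht : DTm t)
    (h : Dfn (fun w : Fin (n + 1) → M => Q (fun i => w i.succ) (w 0))) :
    DTm (fun v => SIK.sep (t v) (Q v)) := by
  have h1 : Dfn (fun w : Fin (n + 1) → M =>
      ∀ x, x ∈ w 0 ↔ x ∈ t (fun i => w i.succ) ∧ Q (fun i => w i.succ) x) := by
    apply Dfn.all
    apply Dfn.iff
    · exact Dfn.mem (DTm.var 0) (DTm.var (Fin.succ 0))
    · apply Dfn.and
      · exact Dfn.mem (DTm.var 0) ht.wk.wk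
      · have := Dfn.ren h (Fin.cons 0 (fun i : Fin n => i.succ.succ))
        refine this.congr (fun v => ?_)
        simp
  refine DTm.of_graph h1 (fun w => ?_)
  constructor
  · intro hw x
    rw [hw, mem_sep (Dfn.slice h _)]
  · intro hw
    apply ext
    intro x
    rw [hw, mem_sep (Dfn.slice h _)]


theorem exists_empty : ∃ e : M, ∀ x, x ∉ e := by
  obtain ⟨a, ⟨e, -, he⟩, -⟩ := ZFModel.isZF.infinity (M := M)
  exact ⟨e, he⟩

/-- empty set -/
noncomputable def emp : M := (exists_empty (M := M)).choose

theorem not_mem_emp (x : M) : x ∉ (emp : M) := (exists_empty (M := M)).choose_spec x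

theorem eq_emp_iff {a : M} : a = emp ↔ ∀ x, x ∉ a :=
  ⟨fun h x => h ▸ not_mem_emp x, fun h => ext fun x => ⟨fun hx => (h x hx).elim,
    fun hx => (not_mem_emp x hx).elim⟩⟩

theorem ne_emp_iff {a : M} : a ≠ emp ↔ ∃ x, x ∈ a := by
  rw [Ne, eq_emp_iff]; push Not; rfl

/-- unordered pair -/
noncomputable def upair (a b : M) : M := (ZFModel.isZF.pairing a b).choose

@[simp] theorem mem_upair {a b x : M} : x ∈ upair a b ↔ x = a ∨ x = b :=
  (ZFModel.isZF.pairing a b).choose_spec x

theorem dtm_upair : DTm₂ (upair : M → M → M) := by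
  refine Dfn.congr (P := fun v => ∀ x, x ∈ v 0 ↔ x = v 1 ∨ x = v 2) (by (repeat' (first | with_reducible apply DTm.sep | with_reducible apply Dfn₂.app dfn_sub | with_reducible apply Dfn.all | with_reducible apply Dfn.ex | with_reducible apply Dfn.not | with_reducible apply Dfn.and | with_reducible apply Dfn.or | with_reducible apply Dfn.imp | with_reducible apply Dfn.iff | with_reducible apply Dfn.eq | with_reducible apply Dfn.mem | with_reducible exact DTm.var _ | with_reducible exact DTm.const _ | with_reducible exact Dfn.constProp _ | with_reducible apply DTm.wk | assumption))) (fun v => ?_)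
  rw [ext_iff']; simp

/-- singleton -/
noncomputable def sing (a : M) : M := upair a a

@[simp] theorem mem_sing {a x : M} : x ∈ sing a ↔ x = a := by simp [sing]

theorem dtm_sing : DTm₁ (sing : M → M) := by
  unfold DTm₁ sing; (repeat' (first | with_reducible apply DTm₂.app dtm_upair | with_reducible apply DTm.sep | with_reducible apply Dfn₂.app dfn_sub | with_reducible apply Dfn.all | with_reducible apply Dfn.ex | with_reducible apply Dfn.not | with_reducible apply Dfn.and | with_reducible apply Dfn.or | with_reducible apply Dfn.imp | with_reducible apply Dfn.iff | with_reducible apply Dfn.eq | with_reducible apply Dfn.mem | with_reducible exact DTm.var _ | with_reducible exact DTm.const _ | with_reducible exact Dfn.constProp _ | with_reducible apply DTm.wk | assumption))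

theorem sing_inj {a b : M} (h : sing a = sing b) : a = b := by
  have : a ∈ sing b := h ▸ (by simp)
  simpa using this

/-- ordered pair -/
noncomputable def pr (a b : M) : M := upair (sing a) (upair a b)

theorem dtm_pr : DTm₂ (pr : M → M → M) := by
  unfold DTm₂ pr; (repeat' (first | with_reducible apply DTm₁.app dtm_sing | with_reducible apply DTm₂.app dtm_upair | with_reducible apply DTm.sep | with_reducible apply Dfn₂.app dfn_sub | with_reducible apply Dfn.all | with_reducible apply Dfn.ex | with_reducible apply Dfn.not | with_reducible apply Dfn.and | with_reducible apply Dfn.or | with_reducible apply Dfn.imp | with_reducible apply Dfn.iff | with_reducible apply Dfn.eq | with_reducible apply Dfn.mem | with_reducible exact DTm.var _ | with_reducible exact DTm.const _ | with_reducible exact Dfn.constProp _ | with_reducible apply DTm.wk | assumption))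

theorem upair_eq_sing {a b c : M} (h : upair a b = sing c) : a = c ∧ b = c := by
  have h1 : a ∈ sing c := h ▸ (by simp)
  have h2 : b ∈ sing c := h ▸ (by simp)
  simp only [mem_sing] at h1 h2
  exact ⟨h1, h2⟩

theorem pr_inj {a b c d : M} (h : pr a b = pr c d) : a = c ∧ b = d := by
  have hac : a = c := by
    have : sing a ∈ pr c d := h ▸ (by simp [pr])
    simp only [pr, mem_upair] at this
    rcases this with h1 | h1
    · exact sing_inj h1
    · exact (upair_eq_sing h1.symm).1.symm
  subst hac
  refine ⟨rfl, ?_⟩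
  have h1 : upair a b ∈ pr a d := h ▸ (by simp [pr])
  have h2 : upair a d ∈ pr a b := h ▸ (by simp [pr])
  simp only [pr, mem_upair] at h1 h2
  rcases h1 with h1 | h1
  · have hb := (upair_eq_sing h1).2
    rcases h2 with h2 | h2
    · rw [hb, (upair_eq_sing h2).2]
    · rw [h1] at h2
      rw [hb, (upair_eq_sing h2).2]
  · have hb : b ∈ upair a d := h1 ▸ (by simp)
    simp only [mem_upair] at hb
    rcases hb with hb | hb
    · subst hb
      have : d ∈ upair b b := h1 ▸ (by simp)
      simp only [mem_upair, or_self] at this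
      exact this.symm
    · exact hb

@[simp] theorem pr_eq_iff {a b c d : M} : pr a b = pr c d ↔ a = c ∧ b = d :=
  ⟨pr_inj, fun ⟨h, h'⟩ => by rw [h, h']⟩

theorem isPair_iff {p x y : M} : IsPair ZFModel.E p x y ↔ p = pr x y := by
  have hs : ∀ z : M, (∀ w, ZFModel.E w z ↔ w = x) ↔ z = sing x := fun z => by
    show (∀ w, w ∈ z ↔ w = x) ↔ z = sing x
    rw [ext_iff']; simp
  have hu : ∀ z : M, (∀ w, ZFModel.E w z ↔ w = x ∨ w = y) ↔ z = upair x y := fun z => by
    show (∀ w, w ∈ z ↔ w = x ∨ w = y) ↔ z = upair x y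
    rw [ext_iff']; simp
  unfold IsPair
  simp only [hs, hu]
  show (∀ z, z ∈ p ↔ z = sing x ∨ z = upair x y) ↔ p = pr x y
  rw [ext_iff']
  simp [pr]

theorem pairIn_iff {r x y : M} : PairIn ZFModel.E r x y ↔ pr x y ∈ r := by
  unfold PairIn
  simp only [isPair_iff]
  exact ⟨fun ⟨p, hp, h⟩ => hp ▸ h, fun h => ⟨_, rfl, h⟩⟩

/-- big union -/
noncomputable def Un (a : M) : M := (ZFModel.isZF.union a).choose

@[simp] theorem mem_Un {a x : M} : x ∈ Un a ↔ ∃ y, y ∈ a ∧ x ∈ y :=
  (ZFModel.isZF.union a).choose_spec x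

theorem dtm_Un : DTm₁ (Un : M → M) := by
  refine Dfn.congr (P := fun v => ∀ x, x ∈ v 0 ↔ ∃ y, y ∈ v 1 ∧ x ∈ y) (by (repeat' (first | with_reducible apply DTm₂.app dtm_pr | with_reducible apply DTm₁.app dtm_sing | with_reducible apply DTm₂.app dtm_upair | with_reducible apply DTm.sep | with_reducible apply Dfn₂.app dfn_sub | with_reducible apply Dfn.all | with_reducible apply Dfn.ex | with_reducible apply Dfn.not | with_reducible apply Dfn.and | with_reducible apply Dfn.or | with_reducible apply Dfn.imp | with_reducible apply Dfn.iff | with_reducible apply Dfn.eq | with_reducible apply Dfn.mem | with_reducible exact DTm.var _ | with_reducible exact DTm.const _ | with_reducible exact Dfn.constProp _ | with_reducible apply DTm.wk | assumption))) (fun v => ?_)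
  rw [ext_iff']; simp

/-- binary union -/
noncomputable def cup (a b : M) : M := Un (upair a b)

@[simp] theorem mem_cup {a b x : M} : x ∈ cup a b ↔ x ∈ a ∨ x ∈ b := by
  simp [cup]

theorem dtm_cup : DTm₂ (cup : M → M → M) := by
  unfold DTm₂ cup; (repeat' (first | with_reducible apply DTm₁.app dtm_Un | with_reducible apply DTm₂.app dtm_pr | with_reducible apply DTm₁.app dtm_sing | with_reducible apply DTm₂.app dtm_upair | with_reducible apply DTm.sep | with_reducible apply Dfn₂.app dfn_sub | with_reducible apply Dfn.all | with_reducible apply Dfn.ex | with_reducible apply Dfn.not | with_reducible apply Dfn.and | with_reducible apply Dfn.or | with_reducible apply Dfn.imp | with_reducible apply Dfn.iff | with_reducible apply Dfn.eq | with_reducible apply Dfn.mem | with_reducible exact DTm.var _ | with_reducible exact DTm.const _ | with_reducible exact Dfn.constProp _ | with_reducible apply DTm.wk | assumption))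

/-- `s ∪ {x}` -/
noncomputable def ins (x s : M) : M := cup s (sing x)

@[simp] theorem mem_ins {x s y : M} : y ∈ ins x s ↔ y ∈ s ∨ y = x := by
  simp [ins]

theorem dtm_ins : DTm₂ (ins : M → M → M) := by
  unfold DTm₂ ins; (repeat' (first | with_reducible apply DTm₂.app dtm_cup | with_reducible apply DTm₁.app dtm_Un | with_reducible apply DTm₂.app dtm_pr | with_reducible apply DTm₁.app dtm_sing | with_reducible apply DTm₂.app dtm_upair | with_reducible apply DTm.sep | with_reducible apply Dfn₂.app dfn_sub | with_reducible apply Dfn.all | with_reducible apply Dfn.ex | with_reducible apply Dfn.not | with_reducible apply Dfn.and | with_reducible apply Dfn.or | with_reducible apply Dfn.imp | with_reducible apply Dfn.iff | with_reducible apply Dfn.eq | with_reducible apply Dfn.mem | with_reducible exact DTm.var _ | with_reducible exact DTm.const _ | with_reducible exact Dfn.constProp _ | with_reducible apply DTm.wk | assumption))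

/-- power set -/
noncomputable def Pow (a : M) : M := (ZFModel.isZF.powerset a).choose

@[simp] theorem mem_Pow {a x : M} : x ∈ Pow a ↔ x ≤ a :=
  (ZFModel.isZF.powerset a).choose_spec x

theorem dtm_Pow : DTm₁ (Pow : M → M) := by
  refine Dfn.congr (P := fun v => ∀ x, x ∈ v 0 ↔ x ≤ v 1) (by (repeat' (first | with_reducible apply DTm₂.app dtm_ins | with_reducible apply DTm₂.app dtm_cup | with_reducible apply DTm₁.app dtm_Un | with_reducible apply DTm₂.app dtm_pr | with_reducible apply DTm₁.app dtm_sing | with_reducible apply DTm₂.app dtm_upair | with_reducible apply DTm.sep | with_reducible apply Dfn₂.app dfn_sub | with_reducible apply Dfn.all | with_reducible apply Dfn.ex | with_reducible apply Dfn.not | with_reducible apply Dfn.and | with_reducible apply Dfn.or | with_reducible apply Dfn.imp | with_reducible apply Dfn.iff | with_reducible apply Dfn.eq | with_reducible apply Dfn.mem | with_reducible exact DTm.var _ | with_reducible exact DTm.const _ | with_reducible exact Dfn.constProp _ | with_reducible apply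 DTm.wk | assumption))) (fun v => ?_)
  rw [ext_iff']; simp

/-- difference `a \ b` -/
noncomputable def diff (a b : M) : M := sep a (fun x => x ∉ b)

@[simp] theorem mem_diff {a b x : M} : x ∈ diff a b ↔ x ∈ a ∧ x ∉ b := by
  unfold diff; rw [mem_sep]; unfold Dfn₁; (repeat' (first | with_reducible apply DTm₁.app dtm_Pow | with_reducible apply DTm₂.app dtm_ins | with_reducible apply DTm₂.app dtm_cup | with_reducible apply DTm₁.app dtm_Un | with_reducible apply DTm₂.app dtm_pr | with_reducible apply DTm₁.app dtm_sing | with_reducible apply DTm₂.app dtm_upair | with_reducible apply DTm.sep | with_reducible apply Dfn₂.app dfn_sub | with_reducible apply Dfn.all | with_reducible apply Dfn.ex | with_reducible apply Dfn.not | with_reducible apply Dfn.and | with_reducible apply Dfn.or | with_reducible apply Dfn.imp | with_reducible apply Dfn.iff | with_reducible apply Dfn.eq | with_reducible apply Dfn.mem | with_reducible exact DTm.var _ | with_reducible exact DTm.const _ | with_reducible exact Dfn.constProp _ | with_reducible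 apply DTm.wk | assumption))

theorem dtm_diff : DTm₂ (diff : M → M → M) := by
  unfold DTm₂ diff; (repeat' (first | with_reducible apply DTm₁.app dtm_Pow | with_reducible apply DTm₂.app dtm_ins | with_reducible apply DTm₂.app dtm_cup | with_reducible apply DTm₁.app dtm_Un | with_reducible apply DTm₂.app dtm_pr | with_reducible apply DTm₁.app dtm_sing | with_reducible apply DTm₂.app dtm_upair | with_reducible apply DTm.sep | with_reducible apply Dfn₂.app dfn_sub | with_reducible apply Dfn.all | with_reducible apply Dfn.ex | with_reducible apply Dfn.not | with_reducible apply Dfn.and | with_reducible apply Dfn.or | with_reducible apply Dfn.imp | with_reducible apply Dfn.iff | with_reducible apply Dfn.eq | with_reducible apply Dfn.mem | with_reducible exact DTm.var _ | with_reducible exact DTm.const _ | with_reducible exact Dfn.constProp _ | with_reducible apply DTm.wk | assumption))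

/-- intersection `a ∩ b` -/
noncomputable def cap (a b : M) : M := sep a (fun x => x ∈ b)

@[simp] theorem mem_cap {a b x : M} : x ∈ cap a b ↔ x ∈ a ∧ x ∈ b := by
  unfold cap; rw [mem_sep]; unfold Dfn₁; (repeat' (first | with_reducible apply DTm₂.app dtm_diff | with_reducible apply DTm₁.app dtm_Pow | with_reducible apply DTm₂.app dtm_ins | with_reducible apply DTm₂.app dtm_cup | with_reducible apply DTm₁.app dtm_Un | with_reducible apply DTm₂.app dtm_pr | with_reducible apply DTm₁.app dtm_sing | with_reducible apply DTm₂.app dtm_upair | with_reducible apply DTm.sep | with_reducible apply Dfn₂.app dfn_sub | with_reducible apply Dfn.all | with_reducible apply Dfn.ex | with_reducible apply Dfn.not | with_reducible apply Dfn.and | with_reducible apply Dfn.or | with_reducible apply Dfn.imp | with_reducible apply Dfn.iff | with_reducible apply Dfn.eq | with_reducible apply Dfn.mem | with_reducible exact DTm.var _ | with_reducible exact DTm.const _ | with_reducible exact Dfn.constProp _ | with_reducible apply DTm.wk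 | assumption))

theorem dtm_cap : DTm₂ (cap : M → M → M) := by
  unfold DTm₂ cap; (repeat' (first | with_reducible apply DTm₂.app dtm_diff | with_reducible apply DTm₁.app dtm_Pow | with_reducible apply DTm₂.app dtm_ins | with_reducible apply DTm₂.app dtm_cup | with_reducible apply DTm₁.app dtm_Un | with_reducible apply DTm₂.app dtm_pr | with_reducible apply DTm₁.app dtm_sing | with_reducible apply DTm₂.app dtm_upair | with_reducible apply DTm.sep | with_reducible apply Dfn₂.app dfn_sub | with_reducible apply Dfn.all | with_reducible apply Dfn.ex | with_reducible apply Dfn.not | with_reducible apply Dfn.and | with_reducible apply Dfn.or | with_reducible apply Dfn.imp | with_reducible apply Dfn.iff | with_reducible apply Dfn.eq | with_reducible apply Dfn.mem | with_reducible exact DTm.var _ | with_reducible exact DTm.const _ | with_reducible exact Dfn.constProp _ | with_reducible apply DTm.wk | assumption))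

/-- cartesian product -/
noncomputable def prod (a b : M) : M :=
  sep (Pow (Pow (cup a b))) (fun p => ∃ x y, x ∈ a ∧ y ∈ b ∧ p = pr x y)

theorem mem_prod {a b p : M} : p ∈ prod a b ↔ ∃ x y, x ∈ a ∧ y ∈ b ∧ p = pr x y := by
  unfold prod
  rw [mem_sep (by unfold Dfn₁; (repeat' (first | with_reducible apply DTm₂.app dtm_cap | with_reducible apply DTm₂.app dtm_diff | with_reducible apply DTm₁.app dtm_Pow | with_reducible apply DTm₂.app dtm_ins | with_reducible apply DTm₂.app dtm_cup | with_reducible apply DTm₁.app dtm_Un | with_reducible apply DTm₂.app dtm_pr | with_reducible apply DTm₁.app dtm_sing | with_reducible apply DTm₂.app dtm_upair | with_reducible apply DTm.sep | with_reducible apply Dfn₂.app dfn_sub | with_reducible apply Dfn.all | with_reducible apply Dfn.ex | with_reducible apply Dfn.not | with_reducible apply Dfn.and | with_reducible apply Dfn.or | with_reducible apply Dfn.imp | with_reducible apply Dfn.iff | with_reducible apply Dfn.eq | with_reducible apply Dfn.mem | with_reducible exact DTm.var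 _ | with_reducible exact DTm.const _ | with_reducible exact Dfn.constProp _ | with_reducible apply DTm.wk | assumption)))]
  constructor
  · exact fun h => h.2
  · intro h
    refine ⟨?_, h⟩
    obtain ⟨x, y, hx, hy, rfl⟩ := h
    rw [mem_Pow]
    intro z hz
    rw [mem_Pow]
    intro w hw
    simp only [pr, mem_upair] at hz
    rcases hz with rfl | rfl
    · simp only [mem_sing] at hw
      subst hw; simp [hx]
    · simp only [mem_upair] at hw
      rcases hw with rfl | rfl <;> simp [hx, hy]

@[simp] theorem pr_mem_prod {a b x y : M} : pr x y ∈ prod a b ↔ x ∈ a ∧ y ∈ b := by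
  rw [mem_prod]
  constructor
  · rintro ⟨x', y', hx, hy, h⟩
    obtain ⟨rfl, rfl⟩ := pr_inj h
    exact ⟨hx, hy⟩
  · rintro ⟨hx, hy⟩
    exact ⟨x, y, hx, hy, rfl⟩

theorem dtm_prod : DTm₂ (prod : M → M → M) := by
  unfold DTm₂ prod; (repeat' (first | with_reducible apply DTm₂.app dtm_cap | with_reducible apply DTm₂.app dtm_diff | with_reducible apply DTm₁.app dtm_Pow | with_reducible apply DTm₂.app dtm_ins | with_reducible apply DTm₂.app dtm_cup | with_reducible apply DTm₁.app dtm_Un | with_reducible apply DTm₂.app dtm_pr | with_reducible apply DTm₁.app dtm_sing | with_reducible apply DTm₂.app dtm_upair | with_reducible apply DTm.sep | with_reducible apply Dfn₂.app dfn_sub | with_reducible apply Dfn.all | with_reducible apply Dfn.ex | with_reducible apply Dfn.not | with_reducible apply Dfn.and | with_reducible apply Dfn.or | with_reducible apply Dfn.imp | with_reducible apply Dfn.iff | with_reducible apply Dfn.eq | with_reducible apply Dfn.mem | with_reducible exact DTm.var _ | with_reducible exact DTm.const _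 | with_reducible exact Dfn.constProp _ | with_reducible apply DTm.wk | assumption))

/-- A definable relation restricted to `a × b` is a set. -/
theorem exists_rel {P : M → M → Prop} (hP : Dfn₂ P) (a b : M) :
    ∃ r : M, ∀ x y, pr x y ∈ r ↔ x ∈ a ∧ y ∈ b ∧ P x y := by
  have h1 : Dfn₁ (fun p : M => ∃ x y, p = pr x y ∧ P x y) := by
    unfold Dfn₁
    apply Dfn.ex; apply Dfn.ex; apply Dfn.and
    · (repeat' (first | with_reducible apply DTm₂.app dtm_prod | with_reducible apply DTm₂.app dtm_cap | with_reducible apply DTm₂.app dtm_diff | with_reducible apply DTm₁.app dtm_Pow | with_reducible apply DTm₂.app dtm_ins | with_reducible apply DTm₂.app dtm_cup | with_reducible apply DTm₁.app dtm_Un | with_reducible apply DTm₂.app dtm_pr | with_reducible apply DTm₁.app dtm_sing | with_reducible apply DTm₂.app dtm_upair | with_reducible apply DTm.sep | with_reducible apply Dfn₂.app dfn_sub | with_reducible apply Dfn.all | with_reducible apply Dfn.ex | with_reducible apply Dfn.not | with_reducible apply Dfn.and | with_reducible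 apply Dfn.or | with_reducible apply Dfn.imp | with_reducible apply Dfn.iff | with_reducible apply Dfn.eq | with_reducible apply Dfn.mem | with_reducible exact DTm.var _ | with_reducible exact DTm.const _ | with_reducible exact Dfn.constProp _ | with_reducible apply DTm.wk | assumption))
    · exact hP.app (DTm.var _) (DTm.var _)
  refine ⟨sep (prod a b) (fun p => ∃ x y, p = pr x y ∧ P x y), fun x y => ?_⟩
  rw [mem_sep h1, pr_mem_prod]
  constructor
  · rintro ⟨⟨hx, hy⟩, x', y', h, hP'⟩
    obtain ⟨rfl, rfl⟩ := pr_inj h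
    exact ⟨hx, hy, hP'⟩
  · rintro ⟨hx, hy, h⟩
    exact ⟨⟨hx, hy⟩, x, y, rfl, h⟩

theorem isSetRel_iff {a b : M} {R : El ZFModel.E a → El ZFModel.E b → Prop} :
    IsSetRel ZFModel.E R ↔ ∃ r : M, ∀ (x : El ZFModel.E a) (y : El ZFModel.E b),
      R x y ↔ pr x.1 y.1 ∈ r := by
  unfold IsSetRel
  simp only [pairIn_iff]

theorem isSetRel_of_dfn {a b : M} {P : M → M → Prop} (hP : Dfn₂ P) :
    IsSetRel ZFModel.E (fun (x : El ZFModel.E a) (y : El ZFModel.E b) => P x.1 y.1) := by
  rw [isSetRel_iff]
  obtain ⟨r, hr⟩ := exists_rel hP a b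
  exact ⟨r, fun x y => by simp only [hr]; exact ⟨fun h => ⟨x.2, y.2, h⟩, fun h => h.2.2⟩⟩

end SIK
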