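import Pool.Agent.W_MP_238801_lc.Base

/-!
# Zorn's lemma inside a model of ZF + AC
-/

universe u

set_option linter.unusedSectionVars false
set_option linter.unreachableTactic false
set_option linter.unusedTactic false

namespace SIK

variable {M : Type u} [ZFModel M]

namespace ZornAux

/-- strictly larger elements of `S` -/
noncomputable def upS (S s : M) : M := sep S (fun h => s ≤ h ∧ ¬ s = h)

theorem mem_upS {S s h : M} : h ∈ upS S s ↔ h ∈ S ∧ s ≤ h ∧ ¬ s = h := by
  unfold upS; rw [mem_sep]; unfold Dfn₁; (repeat' (first | with_reducible apply DTm₂.app dtm_prod | with_reducible apply DTm₂.app dtm_cap | with_reducible apply DTm₂.app dtm_diff | with_reducible apply DTm₁.app dtm_Pow | with_reducible apply DTm₂.app dtm_ins | with_reducible apply DTm₂.app dtm_cup | with_reducible apply DTm₁.app dtm_Un | with_reducible apply DTm₂.app dtm_pr | with_reducible apply DTm₁.app dtm_sing | with_reducible apply DTm₂.app dtm_upair | with_reducible apply DTm.sep | with_reducible apply Dfn₂.app dfn_sub | with_reducible apply Dfn.all | with_reducible apply Dfn.ex | with_reducible apply Dfn.not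 | with_reducible apply Dfn.and | with_reducible apply Dfn.or | with_reducible apply Dfn.imp | with_reducible apply Dfn.iff | with_reducible apply Dfn.eq | with_reducible apply Dfn.mem | with_reducible exact DTm.var _ | with_reducible exact DTm.const _ | with_reducible exact Dfn.constProp _ | with_reducible apply DTm.wk | assumption))

theorem dtm_upS : DTm₂ (upS : M → M → M) := by
  unfold DTm₂ upS; (repeat' (first | with_reducible apply DTm₂.app dtm_prod | with_reducible apply DTm₂.app dtm_cap | with_reducible apply DTm₂.app dtm_diff | with_reducible apply DTm₁.app dtm_Pow | with_reducible apply DTm₂.app dtm_ins | with_reducible apply DTm₂.app dtm_cup | with_reducible apply DTm₁.app dtm_Un | with_reducible apply DTm₂.app dtm_pr | with_reducible apply DTm₁.app dtm_sing | with_reducible apply DTm₂.app dtm_upair | with_reducible apply DTm.sep | with_reducible apply Dfn₂.app dfn_sub | with_reducible apply Dfn.all | with_reducible apply Dfn.ex | with_reducible apply Dfn.not | with_reducible apply Dfn.and | with_reducible apply Dfn.or | with_reducible apply Dfn.imp | with_reducible apply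 Dfn.iff | with_reducible apply Dfn.eq | with_reducible apply Dfn.mem | with_reducible exact DTm.var _ | with_reducible exact DTm.const _ | with_reducible exact Dfn.constProp _ | with_reducible apply DTm.wk | assumption))

/-- the chosen strictly larger element -/
noncomputable def chi (S f s : M) : M := Un (sep S (fun t => pr (upS S s) t ∈ f))

theorem dtm_chi : DTm₃ (chi : M → M → M → M) := by
  unfold DTm₃ chi; (repeat' (first | with_reducible apply DTm₂.app dtm_upS | with_reducible apply DTm₂.app dtm_prod | with_reducible apply DTm₂.app dtm_cap | with_reducible apply DTm₂.app dtm_diff | with_reducible apply DTm₁.app dtm_Pow | with_reducible apply DTm₂.app dtm_ins | with_reducible apply DTm₂.app dtm_cup | with_reducible apply DTm₁.app dtm_Un | with_reducible apply DTm₂.app dtm_pr | with_reducible apply DTm₁.app dtm_sing | with_reducible apply DTm₂.app dtm_upair | with_reducible apply DTm.sep | with_reducible apply Dfn₂.app dfn_sub | with_reducible apply Dfn.all | with_reducible apply Dfn.ex | with_reducible apply Dfn.not | with_reducible apply Dfn.and | with_reducible apply Dfn.or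 | with_reducible apply Dfn.imp | with_reducible apply Dfn.iff | with_reducible apply Dfn.eq | with_reducible apply Dfn.mem | with_reducible exact DTm.var _ | with_reducible exact DTm.const _ | with_reducible exact Dfn.constProp _ | with_reducible apply DTm.wk | assumption))

theorem chi_eq {S f s y : M} (hy : y ∈ S) (h : ∀ z, pr (upS S s) z ∈ f ↔ z = y) :
    chi S f s = y := by
  unfold chi
  apply ext
  intro x
  have hd : Dfn₁ (fun t : M => pr (upS S s) t ∈ f) := by unfold Dfn₁; (repeat' (first | with_reducible apply DTm₃.app dtm_chi | with_reducible apply DTm₂.app dtm_upS | with_reducible apply DTm₂.app dtm_prod | with_reducible apply DTm₂.app dtm_cap | with_reducible apply DTm₂.app dtm_diff | with_reducible apply DTm₁.app dtm_Pow | with_reducible apply DTm₂.app dtm_ins | with_reducible apply DTm₂.app dtm_cup | with_reducible apply DTm₁.app dtm_Un | with_reducible apply DTm₂.app dtm_pr | with_reducible apply DTm₁.app dtm_sing | with_reducible apply DTm₂.app dtm_upair | with_reducible apply DTm.sep | with_reducible apply Dfn₂.app dfn_sub | with_reducible apply Dfn.all | with_reducible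 apply Dfn.ex | with_reducible apply Dfn.not | with_reducible apply Dfn.and | with_reducible apply Dfn.or | with_reducible apply Dfn.imp | with_reducible apply Dfn.iff | with_reducible apply Dfn.eq | with_reducible apply Dfn.mem | with_reducible exact DTm.var _ | with_reducible exact DTm.const _ | with_reducible exact Dfn.constProp _ | with_reducible apply DTm.wk | assumption))
  rw [mem_Un]
  constructor
  · rintro ⟨t, ht, hx⟩
    rw [mem_sep hd, h] at ht
    rw [← ht.2]; exact hx
  · intro hx
    exact ⟨y, by rw [mem_sep hd, h]; exact ⟨hy, rfl⟩, hx⟩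

/-- `c` is a chain -/
def Chn (c : M) : Prop := ∀ x y, x ∈ c → y ∈ c → x ≤ y ∨ y ≤ x

theorem dfn_Chn : Dfn₁ (Chn : M → Prop) := by
  unfold Dfn₁ Chn; (repeat' (first | with_reducible apply DTm₃.app dtm_chi | with_reducible apply DTm₂.app dtm_upS | with_reducible apply DTm₂.app dtm_prod | with_reducible apply DTm₂.app dtm_cap | with_reducible apply DTm₂.app dtm_diff | with_reducible apply DTm₁.app dtm_Pow | with_reducible apply DTm₂.app dtm_ins | with_reducible apply DTm₂.app dtm_cup | with_reducible apply DTm₁.app dtm_Un | with_reducible apply DTm₂.app dtm_pr | with_reducible apply DTm₁.app dtm_sing | with_reducible apply DTm₂.app dtm_upair | with_reducible apply DTm.sep | with_reducible apply Dfn₂.app dfn_sub | with_reducible apply Dfn.all | with_reducible apply Dfn.ex | with_reducible apply Dfn.not | with_reducible apply Dfn.and | with_reducible apply Dfn.or | with_reducible apply Dfn.imp | with_reducible apply Dfn.iff | with_reducible apply Dfn.eq | with_reducible apply Dfn.mem | with_reducible exact DTm.var _ | with_reducible exact DTm.const _ | with_reducible exact Dfn.constProp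 _ | with_reducible apply DTm.wk | assumption))

/-- `G` is closed -/
def Clo (S f s₀ G : M) : Prop :=
  s₀ ∈ G ∧ (∀ s, s ∈ G → s ∈ S → chi S f s ∈ G) ∧
    (∀ c, c ≤ G → c ≤ S → (∃ x, x ∈ c) → Chn c → Un c ∈ G)

theorem dfn_Clo : Dfn₄ (Clo : M → M → M → M → Prop) := by
  unfold Dfn₄ Clo; (repeat' (first | with_reducible apply Dfn₁.app dfn_Chn | with_reducible apply DTm₃.app dtm_chi | with_reducible apply DTm₂.app dtm_upS | with_reducible apply DTm₂.app dtm_prod | with_reducible apply DTm₂.app dtm_cap | with_reducible apply DTm₂.app dtm_diff | with_reducible apply DTm₁.app dtm_Pow | with_reducible apply DTm₂.app dtm_ins | with_reducible apply DTm₂.app dtm_cup | with_reducible apply DTm₁.app dtm_Un | with_reducible apply DTm₂.app dtm_pr | with_reducible apply DTm₁.app dtm_sing | with_reducible apply DTm₂.app dtm_upair | with_reducible apply DTm.sep | with_reducible apply Dfn₂.app dfn_sub | with_reducible apply Dfn.all | with_reducible apply Dfn.ex | with_reducible apply Dfn.not | with_reducible apply Dfn.and | with_reducible apply Dfn.or | with_reducible apply Dfn.imp | with_reducible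 apply Dfn.iff | with_reducible apply Dfn.eq | with_reducible apply Dfn.mem | with_reducible exact DTm.var _ | with_reducible exact DTm.const _ | with_reducible exact Dfn.constProp _ | with_reducible apply DTm.wk | assumption))

/-- smallest closed set -/
noncomputable def Tw (S f s₀ : M) : M := sep S (fun x => ∀ G, Clo S f s₀ G → x ∈ G)

theorem mem_Tw {S f s₀ x : M} : x ∈ Tw S f s₀ ↔ x ∈ S ∧ ∀ G, Clo S f s₀ G → x ∈ G := by
  unfold Tw; rw [mem_sep]; unfold Dfn₁; (repeat' (first | with_reducible apply Dfn₄.app dfn_Clo | with_reducible apply Dfn₁.app dfn_Chn | with_reducible apply DTm₃.app dtm_chi | with_reducible apply DTm₂.app dtm_upS | with_reducible apply DTm₂.app dtm_prod | with_reducible apply DTm₂.app dtm_cap | with_reducible apply DTm₂.app dtm_diff | with_reducible apply DTm₁.app dtm_Pow | with_reducible apply DTm₂.app dtm_ins | with_reducible apply DTm₂.app dtm_cup | with_reducible apply DTm₁.app dtm_Un | with_reducible apply DTm₂.app dtm_pr | with_reducible apply DTm₁.app dtm_sing | with_reducible apply DTm₂.app dtm_upair | with_reducible apply DTm.sep | with_reducible apply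 Dfn₂.app dfn_sub | with_reducible apply Dfn.all | with_reducible apply Dfn.ex | with_reducible apply Dfn.not | with_reducible apply Dfn.and | with_reducible apply Dfn.or | with_reducible apply Dfn.imp | with_reducible apply Dfn.iff | with_reducible apply Dfn.eq | with_reducible apply Dfn.mem | with_reducible exact DTm.var _ | with_reducible exact DTm.const _ | with_reducible exact Dfn.constProp _ | with_reducible apply DTm.wk | assumption))

end ZornAux

open ZornAux in
/-- Zorn's lemma in the model, for a set `S` of sets ordered by inclusion: if `S` is nonempty and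
closed under unions of nonempty chains, it has a maximal element. -/
theorem zorn_in_model (hC : Choice (ZFModel.E (M := M))) (S : M) (hne : ∃ h, h ∈ S)
    (hch : ∀ c : M, c ≤ S → (∃ x, x ∈ c) →
      (∀ x y, x ∈ c → y ∈ c → x ≤ y ∨ y ≤ x) → Un c ∈ S) :
    ∃ m, m ∈ S ∧ ∀ h, h ∈ S → m ≤ h → h = m := by
  by_contra hcon
  have hcon' : ∀ s, s ∈ S → ∃ h, h ∈ upS S s := by
    intro s hs
    by_contra hn
    apply hcon
    refine ⟨s, hs, fun h hh hsh => ?_⟩
    by_contra hne'
    exact hn ⟨h, mem_upS.2 ⟨hh, hsh, fun e => hne' e.symm⟩⟩
  -- the choice function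
  have hdA : Dfn₁ (fun h : M => ∃ x, x ∈ h) := by unfold Dfn₁; (repeat' (first | with_reducible apply Dfn₄.app dfn_Clo | with_reducible apply Dfn₁.app dfn_Chn | with_reducible apply DTm₃.app dtm_chi | with_reducible apply DTm₂.app dtm_upS | with_reducible apply DTm₂.app dtm_prod | with_reducible apply DTm₂.app dtm_cap | with_reducible apply DTm₂.app dtm_diff | with_reducible apply DTm₁.app dtm_Pow | with_reducible apply DTm₂.app dtm_ins | with_reducible apply DTm₂.app dtm_cup | with_reducible apply DTm₁.app dtm_Un | with_reducible apply DTm₂.app dtm_pr | with_reducible apply DTm₁.app dtm_sing | with_reducible apply DTm₂.app dtm_upair | with_reducible apply DTm.sep | with_reducible apply Dfn₂.app dfn_sub | with_reducible apply Dfn.all | with_reducible apply Dfn.ex | with_reducible apply Dfn.not | with_reducible apply Dfn.and | with_reducible apply Dfn.or | with_reducible apply Dfn.imp | with_reducible apply Dfn.iff | with_reducible apply Dfn.eq | with_reducible apply Dfn.mem | with_reducible exact DTm.var _ | with_reducible exact DTm.const _ | with_reducible exact Dfn.constProp _ |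 with_reducible apply DTm.wk | assumption))
  obtain ⟨f, -, hf⟩ := hC (sep (Pow S) (fun h => ∃ x, x ∈ h)) (fun x hx => by
    exact ((mem_sep hdA).1 hx).2)
  have hchi : ∀ s, s ∈ S → chi S f s ∈ S ∧ s ≤ chi S f s ∧ ¬ s = chi S f s := by
    intro s hs
    obtain ⟨y, hy, hz⟩ := hf (upS S s) (by
      refine (mem_sep hdA).2 ⟨?_, hcon' s hs⟩
      rw [mem_Pow]
      intro h hh
      exact (mem_upS.1 hh).1)
    simp only [pairIn_iff] at hz
    have hy' := mem_upS.1 hy
    rw [chi_eq hy'.1 hz]
    exact hy'
  obtain ⟨s₀, hs₀⟩ := hne
  set T := Tw S f s₀ with hT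
  have hTS : ∀ x, x ∈ T → x ∈ S := fun x hx => (mem_Tw.1 hx).1
  have T0 : s₀ ∈ T := mem_Tw.2 ⟨hs₀, fun G hG => hG.1⟩
  have T1 : ∀ s, s ∈ T → chi S f s ∈ T := by
    intro s hs
    refine mem_Tw.2 ⟨(hchi s (hTS s hs)).1, fun G hG => ?_⟩
    exact hG.2.1 s ((mem_Tw.1 hs).2 G hG) (hTS s hs)
  have T2 : ∀ c, c ≤ T → (∃ x, x ∈ c) → Chn c → Un c ∈ T := by
    intro c hc hcn hcc
    refine mem_Tw.2 ⟨hch c (fun x hx => hTS x (hc x hx)) hcn hcc, fun G hG => ?_⟩
    exact hG.2.2 c (fun x hx => (mem_Tw.1 (hc x hx)).2 G hG) (fun x hx => hTS x (hc x hx)) hcn hcc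
  have ind : ∀ P : M → Prop, Dfn₁ P → P s₀ → (∀ s, s ∈ T → P s → P (chi S f s)) →
      (∀ c, c ≤ T → (∃ x, x ∈ c) → Chn c → (∀ x, x ∈ c → P x) → P (Un c)) →
      ∀ x, x ∈ T → P x := by
    intro P hP p0 p1 p2 x hx
    have hG : Clo S f s₀ (sep T P) := by
      refine ⟨?_, ?_, ?_⟩
      · rw [mem_sep hP]; exact ⟨T0, p0⟩
      · intro s hs _
        rw [mem_sep hP] at hs ⊢
        exact ⟨T1 s hs.1, p1 s hs.1 hs.2⟩
      · intro c hc _ hcn hcc
        have hc' : ∀ x, x ∈ c → x ∈ T ∧ P x := fun x hx => (mem_sep hP).1 (hc x hx)
        rw [mem_sep hP]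
        exact ⟨T2 c (fun x hx => (hc' x hx).1) hcn hcc,
          p2 c (fun x hx => (hc' x hx).1) hcn hcc (fun x hx => (hc' x hx).2)⟩
    exact ((mem_sep hP).1 ((mem_Tw.1 hx).2 _ hG)).2
  -- `s₀` is the least element
  have hleast : ∀ x, x ∈ T → s₀ ≤ x := by
    apply ind (fun x => s₀ ≤ x) (by unfold Dfn₁; (repeat' (first | with_reducible apply Dfn₄.app dfn_Clo | with_reducible apply Dfn₁.app dfn_Chn | with_reducible apply DTm₃.app dtm_chi | with_reducible apply DTm₂.app dtm_upS | with_reducible apply DTm₂.app dtm_prod | with_reducible apply DTm₂.app dtm_cap | with_reducible apply DTm₂.app dtm_diff | with_reducible apply DTm₁.app dtm_Pow | with_reducible apply DTm₂.app dtm_ins | with_reducible apply DTm₂.app dtm_cup | with_reducible apply DTm₁.app dtm_Un | with_reducible apply DTm₂.app dtm_pr | with_reducible apply DTm₁.app dtm_sing | with_reducible apply DTm₂.app dtm_upair | with_reducible apply DTm.sep | with_reducible apply Dfn₂.app dfn_sub | with_reducible apply Dfn.all | with_reducible apply Dfn.ex | with_reducible apply Dfn.not | with_reducible apply Dfn.and | with_reducible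 apply Dfn.or | with_reducible apply Dfn.imp | with_reducible apply Dfn.iff | with_reducible apply Dfn.eq | with_reducible apply Dfn.mem | with_reducible exact DTm.var _ | with_reducible exact DTm.const _ | with_reducible exact Dfn.constProp _ | with_reducible apply DTm.wk | assumption))) (Sub.refl _)
    · intro s hs h
      exact h.trans (hchi s (hTS s hs)).2.1
    · rintro c _ ⟨x, hx⟩ _ h y hy
      rw [mem_Un]
      exact ⟨x, hx, h x hx y hy⟩
  -- extreme points
  have lemA : ∀ t, t ∈ T → (∀ s, s ∈ T → s ≤ t → ¬ s = t → chi S f s ≤ t) →
      ∀ x, x ∈ T → x ≤ t ∨ chi S f t ≤ x := by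
    intro t ht hext
    apply ind (fun x => x ≤ t ∨ chi S f t ≤ x) (by unfold Dfn₁; (repeat' (first | with_reducible apply Dfn₄.app dfn_Clo | with_reducible apply Dfn₁.app dfn_Chn | with_reducible apply DTm₃.app dtm_chi | with_reducible apply DTm₂.app dtm_upS | with_reducible apply DTm₂.app dtm_prod | with_reducible apply DTm₂.app dtm_cap | with_reducible apply DTm₂.app dtm_diff | with_reducible apply DTm₁.app dtm_Pow | with_reducible apply DTm₂.app dtm_ins | with_reducible apply DTm₂.app dtm_cup | with_reducible apply DTm₁.app dtm_Un | with_reducible apply DTm₂.app dtm_pr | with_reducible apply DTm₁.app dtm_sing | with_reducible apply DTm₂.app dtm_upair | with_reducible apply DTm.sep | with_reducible apply Dfn₂.app dfn_sub | with_reducible apply Dfn.all | with_reducible apply Dfn.ex | with_reducible apply Dfn.not | with_reducible apply Dfn.and | with_reducible apply Dfn.or | with_reducible apply Dfn.imp | with_reducible apply Dfn.iff | with_reducible apply Dfn.eq | with_reducible apply Dfn.mem | with_reducible exact DTm.var _ | with_reducible exact DTm.const _ | with_reducible exact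 Dfn.constProp _ | with_reducible apply DTm.wk | assumption)))
    · exact Or.inl (hleast t ht)
    · intro s hs h
      rcases h with h | h
      · by_cases hst : s = t
        · right; rw [hst]
        · left; exact hext s hs h hst
      · right; exact h.trans (hchi s (hTS s hs)).2.1
    · intro c hc hcn hcc h
      by_cases hall : ∀ x, x ∈ c → x ≤ t
      · left
        intro y hy
        rw [mem_Un] at hy
        obtain ⟨x, hx, hyx⟩ := hy
        exact hall x hx y hyx
      · right
        push Not at hall
        obtain ⟨x, hx, hxt⟩ := hall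
        rcases h x hx with h | h
        · exact absurd h hxt
        · intro y hy
          rw [mem_Un]
          exact ⟨x, hx, h y hy⟩
  have lemB : ∀ t, t ∈ T → (∀ s, s ∈ T → s ≤ t → ¬ s = t → chi S f s ≤ t) := by
    apply ind (fun t => ∀ s, s ∈ T → s ≤ t → ¬ s = t → chi S f s ≤ t) (by unfold Dfn₁; (repeat' (first | with_reducible apply Dfn₄.app dfn_Clo | with_reducible apply Dfn₁.app dfn_Chn | with_reducible apply DTm₃.app dtm_chi | with_reducible apply DTm₂.app dtm_upS | with_reducible apply DTm₂.app dtm_prod | with_reducible apply DTm₂.app dtm_cap | with_reducible apply DTm₂.app dtm_diff | with_reducible apply DTm₁.app dtm_Pow | with_reducible apply DTm₂.app dtm_ins | with_reducible apply DTm₂.app dtm_cup | with_reducible apply DTm₁.app dtm_Un | with_reducible apply DTm₂.app dtm_pr | with_reducible apply DTm₁.app dtm_sing | with_reducible apply DTm₂.app dtm_upair | with_reducible apply DTm.sep | with_reducible apply Dfn₂.app dfn_sub | with_reducible apply Dfn.all | with_reducible apply Dfn.ex | with_reducible apply Dfn.not | with_reducible apply Dfn.and | with_reducible apply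 Dfn.or | with_reducible apply Dfn.imp | with_reducible apply Dfn.iff | with_reducible apply Dfn.eq | with_reducible apply Dfn.mem | with_reducible exact DTm.var _ | with_reducible exact DTm.const _ | with_reducible exact Dfn.constProp _ | with_reducible apply DTm.wk | assumption)))
    · intro s hs h1 h2
      exact absurd (h1.antisymm (hleast s hs)) h2
    · intro t ht hext s hs h1 h2
      rcases lemA t ht hext s hs with h | h
      · by_cases hst : s = t
        · rw [hst]
        · exact (hext s hs h hst).trans (hchi t (hTS t ht)).2.1
      · exact absurd (h1.antisymm h) h2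
    · intro c hc hcn hcc hext s hs h1 h2
      by_cases hall : ∀ x, x ∈ c → chi S f x ≤ s
      · exfalso
        apply h2
        apply h1.antisymm
        intro y hy
        rw [mem_Un] at hy
        obtain ⟨x, hx, hyx⟩ := hy
        exact hall x hx y ((hchi x (hTS x (hc x hx))).2.1 y hyx)
      · push Not at hall
        obtain ⟨x, hx, hxs⟩ := hall
        have hxU : x ≤ Un c := fun y hy => by rw [mem_Un]; exact ⟨x, hx, hy⟩
        rcases lemA x (hc x hx) (hext x hx) s hs with h | h
        · by_cases hsx : s = x
          · subst hsx
            rcases lemA s hs (hext s hx) (Un c) (T2 c hc hcn hcc) with h' | h'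
            · exact absurd (h1.antisymm h') h2
            · exact h'
          · exact (hext x hx s hs h hsx).trans hxU
        · exact absurd h hxs
  have hchain : Chn T := by
    intro x y hx hy
    rcases lemA y hy (lemB y hy) x hx with h | h
    · exact Or.inl h
    · exact Or.inr ((hchi y (hTS y hy)).2.1.trans h)
  have hU := T2 T (Sub.refl _) ⟨s₀, T0⟩ hchain
  have hU' := hchi _ (hTS _ hU)
  apply hU'.2.2
  apply hU'.2.1.antisymm
  intro y hy
  rw [mem_Un]
  exact ⟨_, T1 _ hU, hy⟩

end SIK
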