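import Pool.Agent.W_MP_238801_lc.OneStep
import Pool.Agent.W_MP_238801_lc.Zorn

/-!
# Sikorski's extension theorem inside a model of ZF + AC
-/

universe u

set_option linter.unusedSectionVars false
set_option linter.unreachableTactic false
set_option linter.unusedTactic false

namespace SIK

/-- A functional relation between Boolean algebras which is closed under joins and complements is
the graph of a homomorphism defined on a subalgebra. -/
theorem hom_of_graph {A B : Type*} [BooleanAlgebra A] [BooleanAlgebra B] (H : A → B → Prop)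
    (h0 : H ⊥ ⊥) (hf : ∀ x y y', H x y → H x y' → y = y')
    (hs : ∀ x y x' y', H x y → H x' y' → H (x ⊔ x') (y ⊔ y'))
    (hc : ∀ x y, H x y → H xᶜ yᶜ) :
    ∃ (L : BooleanSubalgebra A) (φ : BoundedLatticeHom L B),
      ∀ x y, H x y ↔ ∃ hx : x ∈ L, φ ⟨x, hx⟩ = y := by
  have hi : ∀ x y x' y', H x y → H x' y' → H (x ⊓ x') (y ⊓ y') := by
    intro x y x' y' h h'
    have := hc _ _ (hs _ _ _ _ (hc _ _ h) (hc _ _ h'))
    simpa [compl_sup] using this
  have h1 : H ⊤ ⊤ := by simpa using hc _ _ h0
  let L : BooleanSubalgebra A :=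
    { carrier := {x | ∃ y, H x y}
      supClosed' := by
        rintro x ⟨y, hy⟩ x' ⟨y', hy'⟩
        exact ⟨_, hs _ _ _ _ hy hy'⟩
      infClosed' := by
        rintro x ⟨y, hy⟩ x' ⟨y', hy'⟩
        exact ⟨_, hi _ _ _ _ hy hy'⟩
      compl_mem' := by
        rintro x ⟨y, hy⟩
        exact ⟨_, hc _ _ hy⟩
      bot_mem' := ⟨_, h0⟩ }
  have hL : ∀ x, x ∈ L ↔ ∃ y, H x y := fun x => Iff.rfl
  let F : L → B := fun x => ((hL x.1).1 x.2).choose
  have hF : ∀ x : L, H x.1 (F x) := fun x => ((hL x.1).1 x.2).choose_spec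
  have hF' : ∀ (x : L) y, H x.1 y → F x = y := fun x y h => hf _ _ _ (hF x) h
  let φ : BoundedLatticeHom L B :=
    { toFun := F
      map_sup' := fun x y => hF' _ _ (hs _ _ _ _ (hF x) (hF y))
      map_inf' := fun x y => hF' _ _ (hi _ _ _ _ (hF x) (hF y))
      map_top' := hF' _ _ h1
      map_bot' := hF' _ _ h0 }
  refine ⟨L, φ, fun x y => ⟨fun h => ⟨⟨y, h⟩, hF' ⟨x, _⟩ y h⟩, ?_⟩⟩
  rintro ⟨hx, rfl⟩
  exact hF ⟨x, hx⟩

variable {M : Type u} [ZFModel M]

open Classical in
/-- a binary operation on the elements of `a`, as a function on `M` -/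
noncomputable def lop2 (a : M) (op : El ZFModel.E a → El ZFModel.E a → El ZFModel.E a)
    (x y : M) : M :=
  if h : x ∈ a ∧ y ∈ a then (op ⟨x, h.1⟩ ⟨y, h.2⟩).1 else emp

theorem lop2_coe {a : M} (op : El ZFModel.E a → El ZFModel.E a → El ZFModel.E a)
    (x y : El ZFModel.E a) : lop2 a op x.1 y.1 = (op x y).1 := by
  unfold lop2
  rw [dif_pos ⟨x.2, y.2⟩]
  rfl

open Classical in
/-- a unary operation on the elements of `a`, as a function on `M` -/
noncomputable def lop1 (a : M) (op : El ZFModel.E a → El ZFModel.E a)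
    (x : M) : M :=
  if h : x ∈ a then (op ⟨x, h⟩).1 else emp

theorem lop1_coe {a : M} (op : El ZFModel.E a → El ZFModel.E a)
    (x : El ZFModel.E a) : lop1 a op x.1 = (op x).1 := by
  unfold lop1
  have hx : x.1 ∈ a := x.2
  rw [dif_pos hx]
  rfl

theorem dtm_lop2 {a : M} {op : El ZFModel.E a → El ZFModel.E a → El ZFModel.E a}
    {P : M → M → M → Prop} (hP : Dfn₃ P)
    (h : ∀ x y z : El ZFModel.E a, P x.1 y.1 z.1 ↔ op x y = z) : DTm₂ (lop2 a op) := by
  have h1 : Dfn (fun v : Fin 3 → M =>
      (v 1 ∈ a ∧ v 2 ∈ a) ∧ v 0 ∈ a ∧ P (v 1) (v 2) (v 0)) := by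
    apply Dfn.and
    · (repeat' (first | with_reducible apply Dfn₄.app dfn_Clo | with_reducible apply Dfn₁.app dfn_Chn | with_reducible apply DTm₃.app dtm_chi | with_reducible apply DTm₂.app dtm_upS | with_reducible apply DTm₂.app dtm_prod | with_reducible apply DTm₂.app dtm_cap | with_reducible apply DTm₂.app dtm_diff | with_reducible apply DTm₁.app dtm_Pow | with_reducible apply DTm₂.app dtm_ins | with_reducible apply DTm₂.app dtm_cup | with_reducible apply DTm₁.app dtm_Un | with_reducible apply DTm₂.app dtm_pr | with_reducible apply DTm₁.app dtm_sing | with_reducible apply DTm₂.app dtm_upair | with_reducible apply DTm.sep | with_reducible apply Dfn₂.app dfn_sub | with_reducible apply Dfn.all | with_reducible apply Dfn.ex | with_reducible apply Dfn.not | with_reducible apply Dfn.and | with_reducible apply Dfn.or | with_reducible apply Dfn.imp | with_reducible apply Dfn.iff | with_reducible apply Dfn.eq | with_reducible apply Dfn.mem | with_reducible exact DTm.var _ | with_reducible exact DTm.const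 _ | with_reducible exact Dfn.constProp _ | with_reducible apply DTm.wk | assumption))
    · apply Dfn.and
      · (repeat' (first | with_reducible apply Dfn₄.app dfn_Clo | with_reducible apply Dfn₁.app dfn_Chn | with_reducible apply DTm₃.app dtm_chi | with_reducible apply DTm₂.app dtm_upS | with_reducible apply DTm₂.app dtm_prod | with_reducible apply DTm₂.app dtm_cap | with_reducible apply DTm₂.app dtm_diff | with_reducible apply DTm₁.app dtm_Pow | with_reducible apply DTm₂.app dtm_ins | with_reducible apply DTm₂.app dtm_cup | with_reducible apply DTm₁.app dtm_Un | with_reducible apply DTm₂.app dtm_pr | with_reducible apply DTm₁.app dtm_sing | with_reducible apply DTm₂.app dtm_upair | with_reducible apply DTm.sep | with_reducible apply Dfn₂.app dfn_sub | with_reducible apply Dfn.all | with_reducible apply Dfn.ex | with_reducible apply Dfn.not | with_reducible apply Dfn.and | with_reducible apply Dfn.or | with_reducible apply Dfn.imp | with_reducible apply Dfn.iff | with_reducible apply Dfn.eq |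 with_reducible apply Dfn.mem | with_reducible exact DTm.var _ | with_reducible exact DTm.const _ | with_reducible exact Dfn.constProp _ | with_reducible apply DTm.wk | assumption))
      · exact hP.app (DTm.var _) (DTm.var _) (DTm.var _)
  have h2 : Dfn (fun v : Fin 3 → M => ¬ (v 1 ∈ a ∧ v 2 ∈ a) ∧ v 0 = emp) := by (repeat' (first | with_reducible apply Dfn₄.app dfn_Clo | with_reducible apply Dfn₁.app dfn_Chn | with_reducible apply DTm₃.app dtm_chi | with_reducible apply DTm₂.app dtm_upS | with_reducible apply DTm₂.app dtm_prod | with_reducible apply DTm₂.app dtm_cap | with_reducible apply DTm₂.app dtm_diff | with_reducible apply DTm₁.app dtm_Pow | with_reducible apply DTm₂.app dtm_ins | with_reducible apply DTm₂.app dtm_cup | with_reducible apply DTm₁.app dtm_Un | with_reducible apply DTm₂.app dtm_pr | with_reducible apply DTm₁.app dtm_sing | with_reducible apply DTm₂.app dtm_upair | with_reducible apply DTm.sep | with_reducible apply Dfn₂.app dfn_sub | with_reducible apply Dfn.all | with_reducible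 apply Dfn.ex | with_reducible apply Dfn.not | with_reducible apply Dfn.and | with_reducible apply Dfn.or | with_reducible apply Dfn.imp | with_reducible apply Dfn.iff | with_reducible apply Dfn.eq | with_reducible apply Dfn.mem | with_reducible exact DTm.var _ | with_reducible exact DTm.const _ | with_reducible exact Dfn.constProp _ | with_reducible apply DTm.wk | assumption))
  refine (h1.or h2).congr (fun v => ?_)
  unfold lop2
  by_cases hv : v 1 ∈ a ∧ v 2 ∈ a
  · rw [dif_pos hv]
    constructor
    · intro h0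
      left
      refine ⟨hv, ?_, ?_⟩
      · rw [h0]; exact (op _ _).2
      · rw [h0]
        exact (h ⟨_, hv.1⟩ ⟨_, hv.2⟩ _).2 rfl
    · rintro (⟨-, h3, h4⟩ | ⟨h3, -⟩)
      · have := (h ⟨_, hv.1⟩ ⟨_, hv.2⟩ ⟨v 0, h3⟩).1 h4
        rw [this]
      · exact (h3 hv).elim
  · rw [dif_neg hv]
    constructor
    · intro h0
      exact Or.inr ⟨hv, h0⟩
    · rintro (⟨h3, -⟩ | ⟨-, h3⟩)
      · exact (hv h3).elim
      · exact h3

theorem dtm_lop1 {a : M} {op : El ZFModel.E a → El ZFModel.E a}
    {P : M → M → Prop} (hP : Dfn₂ P)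
    (h : ∀ x z : El ZFModel.E a, P x.1 z.1 ↔ op x = z) : DTm₁ (lop1 a op) := by
  have h1 : Dfn (fun v : Fin 2 → M =>
      v 1 ∈ a ∧ v 0 ∈ a ∧ P (v 1) (v 0)) := by
    apply Dfn.and
    · (repeat' (first | with_reducible apply Dfn₄.app dfn_Clo | with_reducible apply Dfn₁.app dfn_Chn | with_reducible apply DTm₃.app dtm_chi | with_reducible apply DTm₂.app dtm_upS | with_reducible apply DTm₂.app dtm_prod | with_reducible apply DTm₂.app dtm_cap | with_reducible apply DTm₂.app dtm_diff | with_reducible apply DTm₁.app dtm_Pow | with_reducible apply DTm₂.app dtm_ins | with_reducible apply DTm₂.app dtm_cup | with_reducible apply DTm₁.app dtm_Un | with_reducible apply DTm₂.app dtm_pr | with_reducible apply DTm₁.app dtm_sing | with_reducible apply DTm₂.app dtm_upair | with_reducible apply DTm.sep | with_reducible apply Dfn₂.app dfn_sub | with_reducible apply Dfn.all | with_reducible apply Dfn.ex | with_reducible apply Dfn.not | with_reducible apply Dfn.and | with_reducible apply Dfn.or | with_reducible apply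 Dfn.imp | with_reducible apply Dfn.iff | with_reducible apply Dfn.eq | with_reducible apply Dfn.mem | with_reducible exact DTm.var _ | with_reducible exact DTm.const _ | with_reducible exact Dfn.constProp _ | with_reducible apply DTm.wk | assumption))
    · apply Dfn.and
      · (repeat' (first | with_reducible apply Dfn₄.app dfn_Clo | with_reducible apply Dfn₁.app dfn_Chn | with_reducible apply DTm₃.app dtm_chi | with_reducible apply DTm₂.app dtm_upS | with_reducible apply DTm₂.app dtm_prod | with_reducible apply DTm₂.app dtm_cap | with_reducible apply DTm₂.app dtm_diff | with_reducible apply DTm₁.app dtm_Pow | with_reducible apply DTm₂.app dtm_ins | with_reducible apply DTm₂.app dtm_cup | with_reducible apply DTm₁.app dtm_Un | with_reducible apply DTm₂.app dtm_pr | with_reducible apply DTm₁.app dtm_sing | with_reducible apply DTm₂.app dtm_upair | with_reducible apply DTm.sep | with_reducible apply Dfn₂.app dfn_sub | with_reducible apply Dfn.all | with_reducible apply Dfn.ex | with_reducible apply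 Dfn.not | with_reducible apply Dfn.and | with_reducible apply Dfn.or | with_reducible apply Dfn.imp | with_reducible apply Dfn.iff | with_reducible apply Dfn.eq | with_reducible apply Dfn.mem | with_reducible exact DTm.var _ | with_reducible exact DTm.const _ | with_reducible exact Dfn.constProp _ | with_reducible apply DTm.wk | assumption))
      · exact hP.app (DTm.var _) (DTm.var _)
  have h2 : Dfn (fun v : Fin 2 → M => ¬ v 1 ∈ a ∧ v 0 = emp) := by (repeat' (first | with_reducible apply Dfn₄.app dfn_Clo | with_reducible apply Dfn₁.app dfn_Chn | with_reducible apply DTm₃.app dtm_chi | with_reducible apply DTm₂.app dtm_upS | with_reducible apply DTm₂.app dtm_prod | with_reducible apply DTm₂.app dtm_cap | with_reducible apply DTm₂.app dtm_diff | with_reducible apply DTm₁.app dtm_Pow | with_reducible apply DTm₂.app dtm_ins | with_reducible apply DTm₂.app dtm_cup | with_reducible apply DTm₁.app dtm_Un | with_reducible apply DTm₂.app dtm_pr | with_reducible apply DTm₁.app dtm_sing | with_reducible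 apply DTm₂.app dtm_upair | with_reducible apply DTm.sep | with_reducible apply Dfn₂.app dfn_sub | with_reducible apply Dfn.all | with_reducible apply Dfn.ex | with_reducible apply Dfn.not | with_reducible apply Dfn.and | with_reducible apply Dfn.or | with_reducible apply Dfn.imp | with_reducible apply Dfn.iff | with_reducible apply Dfn.eq | with_reducible apply Dfn.mem | with_reducible exact DTm.var _ | with_reducible exact DTm.const _ | with_reducible exact Dfn.constProp _ | with_reducible apply DTm.wk | assumption))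
  refine (h1.or h2).congr (fun v => ?_)
  unfold lop1
  by_cases hv : v 1 ∈ a
  · rw [dif_pos hv]
    constructor
    · intro h0
      left
      refine ⟨hv, ?_, ?_⟩
      · rw [h0]; exact (op _).2
      · rw [h0]
        exact (h ⟨_, hv⟩ _).2 rfl
    · rintro (⟨-, h3, h4⟩ | ⟨h3, -⟩)
      · have := (h ⟨_, hv⟩ ⟨v 0, h3⟩).1 h4
        rw [this]
      · exact (h3 hv).elim
  · rw [dif_neg hv]
    constructor
    · intro h0
      exact Or.inr ⟨hv, h0⟩
    · rintro (⟨h3, -⟩ | ⟨-, h3⟩)
      · exact (hv h3).elim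
      · exact h3

theorem dtm_lsup {a r : M} [BooleanAlgebra (El ZFModel.E a)]
    (hr : ∀ x y : El ZFModel.E a, x ≤ y ↔ pr x.1 y.1 ∈ r) :
    DTm₂ (lop2 a (fun x y => x ⊔ y)) := by
  refine dtm_lop2 (P := fun x y z => pr x z ∈ r ∧ pr y z ∈ r ∧
    ∀ w, w ∈ a → pr x w ∈ r → pr y w ∈ r → pr z w ∈ r) ?_ ?_
  · unfold Dfn₃; (repeat' (first | with_reducible apply Dfn₄.app dfn_Clo | with_reducible apply Dfn₁.app dfn_Chn | with_reducible apply DTm₃.app dtm_chi | with_reducible apply DTm₂.app dtm_upS | with_reducible apply DTm₂.app dtm_prod | with_reducible apply DTm₂.app dtm_cap | with_reducible apply DTm₂.app dtm_diff | with_reducible apply DTm₁.app dtm_Pow | with_reducible apply DTm₂.app dtm_ins | with_reducible apply DTm₂.app dtm_cup | with_reducible apply DTm₁.app dtm_Un | with_reducible apply DTm₂.app dtm_pr | with_reducible apply DTm₁.app dtm_sing | with_reducible apply DTm₂.app dtm_upair | with_reducible apply DTm.sep | with_reducible apply Dfn₂.app dfn_sub | with_reducible apply Dfn.all | with_reducible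 apply Dfn.ex | with_reducible apply Dfn.not | with_reducible apply Dfn.and | with_reducible apply Dfn.or | with_reducible apply Dfn.imp | with_reducible apply Dfn.iff | with_reducible apply Dfn.eq | with_reducible apply Dfn.mem | with_reducible exact DTm.var _ | with_reducible exact DTm.const _ | with_reducible exact Dfn.constProp _ | with_reducible apply DTm.wk | assumption))
  · intro x y z
    constructor
    · rintro ⟨h1, h2, h3⟩
      apply le_antisymm
      · exact sup_le ((hr _ _).2 h1) ((hr _ _).2 h2)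
      · rw [hr]
        exact h3 _ (x ⊔ y).2 ((hr _ _).1 le_sup_left) ((hr _ _).1 le_sup_right)
    · rintro rfl
      refine ⟨(hr _ _).1 le_sup_left, (hr _ _).1 le_sup_right, fun w hw hx hy => ?_⟩
      exact (hr (x ⊔ y) ⟨w, hw⟩).1 (sup_le ((hr x ⟨w, hw⟩).2 hx) ((hr y ⟨w, hw⟩).2 hy))

theorem dtm_linf {a r : M} [BooleanAlgebra (El ZFModel.E a)]
    (hr : ∀ x y : El ZFModel.E a, x ≤ y ↔ pr x.1 y.1 ∈ r) :
    DTm₂ (lop2 a (fun x y => x ⊓ y)) := by
  refine dtm_lop2 (P := fun x y z => pr z x ∈ r ∧ pr z y ∈ r ∧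
    ∀ w, w ∈ a → pr w x ∈ r → pr w y ∈ r → pr w z ∈ r) ?_ ?_
  · unfold Dfn₃; (repeat' (first | with_reducible apply Dfn₄.app dfn_Clo | with_reducible apply Dfn₁.app dfn_Chn | with_reducible apply DTm₃.app dtm_chi | with_reducible apply DTm₂.app dtm_upS | with_reducible apply DTm₂.app dtm_prod | with_reducible apply DTm₂.app dtm_cap | with_reducible apply DTm₂.app dtm_diff | with_reducible apply DTm₁.app dtm_Pow | with_reducible apply DTm₂.app dtm_ins | with_reducible apply DTm₂.app dtm_cup | with_reducible apply DTm₁.app dtm_Un | with_reducible apply DTm₂.app dtm_pr | with_reducible apply DTm₁.app dtm_sing | with_reducible apply DTm₂.app dtm_upair | with_reducible apply DTm.sep | with_reducible apply Dfn₂.app dfn_sub | with_reducible apply Dfn.all | with_reducible apply Dfn.ex | with_reducible apply Dfn.not | with_reducible apply Dfn.and | with_reducible apply Dfn.or | with_reducible apply Dfn.imp | with_reducible apply Dfn.iff | with_reducible apply Dfn.eq | with_reducible apply Dfn.mem | with_reducible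 exact DTm.var _ | with_reducible exact DTm.const _ | with_reducible exact Dfn.constProp _ | with_reducible apply DTm.wk | assumption))
  · intro x y z
    constructor
    · rintro ⟨h1, h2, h3⟩
      apply le_antisymm
      · rw [hr]
        exact h3 _ (x ⊓ y).2 ((hr _ _).1 inf_le_left) ((hr _ _).1 inf_le_right)
      · exact le_inf ((hr _ _).2 h1) ((hr _ _).2 h2)
    · rintro rfl
      refine ⟨(hr _ _).1 inf_le_left, (hr _ _).1 inf_le_right, fun w hw hx hy => ?_⟩
      exact (hr ⟨w, hw⟩ (x ⊓ y)).1 (le_inf ((hr ⟨w, hw⟩ x).2 hx) ((hr ⟨w, hw⟩ y).2 hy))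

theorem dtm_lcompl {a r : M} [BooleanAlgebra (El ZFModel.E a)]
    (hr : ∀ x y : El ZFModel.E a, x ≤ y ↔ pr x.1 y.1 ∈ r) :
    DTm₁ (lop1 a (fun x => xᶜ)) := by
  refine dtm_lop1 (P := fun x z =>
    (∀ w, w ∈ a → pr w x ∈ r → pr w z ∈ r → ∀ t, t ∈ a → pr w t ∈ r) ∧
    (∀ w, w ∈ a → pr x w ∈ r → pr z w ∈ r → ∀ t, t ∈ a → pr t w ∈ r)) ?_ ?_
  · unfold Dfn₂; (repeat' (first | with_reducible apply Dfn₄.app dfn_Clo | with_reducible apply Dfn₁.app dfn_Chn | with_reducible apply DTm₃.app dtm_chi | with_reducible apply DTm₂.app dtm_upS | with_reducible apply DTm₂.app dtm_prod | with_reducible apply DTm₂.app dtm_cap | with_reducible apply DTm₂.app dtm_diff | with_reducible apply DTm₁.app dtm_Pow | with_reducible apply DTm₂.app dtm_ins | with_reducible apply DTm₂.app dtm_cup | with_reducible apply DTm₁.app dtm_Un | with_reducible apply DTm₂.app dtm_pr | with_reducible apply DTm₁.app dtm_sing | with_reducible apply DTm₂.app dtm_upair | with_reducible apply DTm.sep | with_reducible apply Dfn₂.app dfn_sub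 | with_reducible apply Dfn.all | with_reducible apply Dfn.ex | with_reducible apply Dfn.not | with_reducible apply Dfn.and | with_reducible apply Dfn.or | with_reducible apply Dfn.imp | with_reducible apply Dfn.iff | with_reducible apply Dfn.eq | with_reducible apply Dfn.mem | with_reducible exact DTm.var _ | with_reducible exact DTm.const _ | with_reducible exact Dfn.constProp _ | with_reducible apply DTm.wk | assumption))
  · intro x z
    constructor
    · rintro ⟨h1, h2⟩
      have hcz : IsCompl x z := by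
        constructor
        · rw [disjoint_iff]
          have := h1 _ (x ⊓ z).2 ((hr _ _).1 inf_le_left) ((hr _ _).1 inf_le_right)
            _ (⊥ : El ZFModel.E a).2
          exact le_bot_iff.1 ((hr _ _).2 this)
        · rw [codisjoint_iff]
          have := h2 _ (x ⊔ z).2 ((hr _ _).1 le_sup_left) ((hr _ _).1 le_sup_right)
            _ (⊤ : El ZFModel.E a).2
          exact top_le_iff.1 ((hr _ _).2 this)
      exact hcz.compl_eq
    · rintro rfl
      constructor
      · intro w hw h1 h2 t ht
        let w' : El ZFModel.E a := ⟨w, hw⟩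
        have h3 : w' ≤ x ⊓ xᶜ := le_inf ((hr w' x).2 h1) ((hr w' xᶜ).2 h2)
        rw [inf_compl_self] at h3
        exact (hr w' ⟨t, ht⟩).1 (h3.trans bot_le)
      · intro w hw h1 h2 t ht
        let w' : El ZFModel.E a := ⟨w, hw⟩
        have h3 : x ⊔ xᶜ ≤ w' := sup_le ((hr x w').2 h1) ((hr xᶜ w').2 h2)
        rw [sup_compl_eq_top] at h3
        exact (hr ⟨t, ht⟩ w').1 (le_top.trans h3)

/-- Sikorski's theorem in a model of ZF + AC. -/
theorem injectivity_of_choice (hC : Choice (ZFModel.E (M := M))) :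
    Injectivity (ZFModel.E (M := M)) := by
  intro b _ hb hcomp a _ ha A₀ hA₀ f hf
  obtain ⟨rb, hrb⟩ := isSetRel_iff.1 hb
  obtain ⟨ra, hra⟩ := isSetRel_iff.1 ha
  obtain ⟨s, hs⟩ := hA₀
  obtain ⟨r, hr⟩ := hf
  simp only [pairIn_iff] at hr
  -- the graph of `f`
  obtain ⟨r₀, hr₀⟩ := exists_rel (P := fun x y => x ∈ s ∧ pr x y ∈ r)
    (by unfold Dfn₂; (repeat' (first | with_reducible apply Dfn₄.app dfn_Clo | with_reducible apply Dfn₁.app dfn_Chn | with_reducible apply DTm₃.app dtm_chi | with_reducible apply DTm₂.app dtm_upS | with_reducible apply DTm₂.app dtm_prod | with_reducible apply DTm₂.app dtm_cap | with_reducible apply DTm₂.app dtm_diff | with_reducible apply DTm₁.app dtm_Pow | with_reducible apply DTm₂.app dtm_ins | with_reducible apply DTm₂.app dtm_cup | with_reducible apply DTm₁.app dtm_Un | with_reducible apply DTm₂.app dtm_pr | with_reducible apply DTm₁.app dtm_sing | with_reducible apply DTm₂.app dtm_upair | with_reducible apply DTm.sep | with_reducible apply Dfn₂.app dfn_sub | with_reducible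 apply Dfn.all | with_reducible apply Dfn.ex | with_reducible apply Dfn.not | with_reducible apply Dfn.and | with_reducible apply Dfn.or | with_reducible apply Dfn.imp | with_reducible apply Dfn.iff | with_reducible apply Dfn.eq | with_reducible apply Dfn.mem | with_reducible exact DTm.var _ | with_reducible exact DTm.const _ | with_reducible exact Dfn.constProp _ | with_reducible apply DTm.wk | assumption))) a b
  obtain ⟨r', hr'⟩ := exists_sep (P := fun p => p ∈ r₀) (by unfold Dfn₁; (repeat' (first | with_reducible apply Dfn₄.app dfn_Clo | with_reducible apply Dfn₁.app dfn_Chn | with_reducible apply DTm₃.app dtm_chi | with_reducible apply DTm₂.app dtm_upS | with_reducible apply DTm₂.app dtm_prod | with_reducible apply DTm₂.app dtm_cap | with_reducible apply DTm₂.app dtm_diff | with_reducible apply DTm₁.app dtm_Pow | with_reducible apply DTm₂.app dtm_ins | with_reducible apply DTm₂.app dtm_cup | with_reducible apply DTm₁.app dtm_Un | with_reducible apply DTm₂.app dtm_pr | with_reducible apply DTm₁.app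 dtm_sing | with_reducible apply DTm₂.app dtm_upair | with_reducible apply DTm.sep | with_reducible apply Dfn₂.app dfn_sub | with_reducible apply Dfn.all | with_reducible apply Dfn.ex | with_reducible apply Dfn.not | with_reducible apply Dfn.and | with_reducible apply Dfn.or | with_reducible apply Dfn.imp | with_reducible apply Dfn.iff | with_reducible apply Dfn.eq | with_reducible apply Dfn.mem | with_reducible exact DTm.var _ | with_reducible exact DTm.const _ | with_reducible exact Dfn.constProp _ | with_reducible apply DTm.wk | assumption))) (prod a b)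
  have hr'g : ∀ (x : El ZFModel.E a) (y : El ZFModel.E b),
      pr x.1 y.1 ∈ r' ↔ ∃ hx : x ∈ A₀, f ⟨x, hx⟩ = y := by
    intro x y
    rw [hr', hr₀, pr_mem_prod]
    constructor
    · rintro ⟨-, -, -, h1, h2⟩
      exact ⟨(hs x).2 h1, (hr ⟨x, (hs x).2 h1⟩ y).2 h2⟩
    · rintro ⟨hx, h⟩
      exact ⟨⟨x.2, y.2⟩, x.2, y.2, (hs x).1 hx, (hr ⟨x, hx⟩ y).1 h⟩
  have hsA := dtm_lsup hra
  have hsB := dtm_lsup hrb
  have hiA := dtm_linf hra
  have hiB := dtm_linf hrb
  have hcA := dtm_lcompl hra
  have hcB := dtm_lcompl hrb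
  -- the set of partial homomorphisms
  let Good : M → Prop := fun h => r' ≤ h ∧
    (∀ x y y', pr x y ∈ h → pr x y' ∈ h → y = y') ∧
    (∀ x y x' y', pr x y ∈ h → pr x' y' ∈ h →
      pr (lop2 a (fun x y => x ⊔ y) x x') (lop2 b (fun x y => x ⊔ y) y y') ∈ h) ∧
    (∀ x y, pr x y ∈ h → pr (lop1 a (fun x => xᶜ) x) (lop1 b (fun x => xᶜ) y) ∈ h)
  have hGood : Dfn₁ Good := by
    unfold Dfn₁
    simp only [Good]
    (repeat' (first | with_reducible apply Dfn₄.app dfn_Clo | with_reducible apply Dfn₁.app dfn_Chn | with_reducible apply DTm₃.app dtm_chi | with_reducible apply DTm₂.app dtm_upS | with_reducible apply DTm₂.app dtm_prod | with_reducible apply DTm₂.app dtm_cap | with_reducible apply DTm₂.app dtm_diff | with_reducible apply DTm₁.app dtm_Pow | with_reducible apply DTm₂.app dtm_ins | with_reducible apply DTm₂.app dtm_cup | with_reducible apply DTm₁.app dtm_Un | with_reducible apply DTm₂.app dtm_pr | with_reducible apply DTm₁.app dtm_sing | with_reducible apply DTm₂.app dtm_upair | with_reducible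 apply DTm.sep | with_reducible apply Dfn₂.app dfn_sub | with_reducible apply Dfn.all | with_reducible apply Dfn.ex | with_reducible apply Dfn.not | with_reducible apply Dfn.and | with_reducible apply Dfn.or | with_reducible apply Dfn.imp | with_reducible apply Dfn.iff | with_reducible apply Dfn.eq | with_reducible apply Dfn.mem | with_reducible exact DTm.var _ | with_reducible exact DTm.const _ | with_reducible exact Dfn.constProp _ | with_reducible apply DTm.wk | assumption))
    all_goals
      first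
      | exact hsA.app (DTm.var _) (DTm.var _)
      | exact hsB.app (DTm.var _) (DTm.var _)
      | exact hcA.app (DTm.var _)
      | exact hcB.app (DTm.var _)
  obtain ⟨S, hS⟩ := exists_sep hGood (Pow (prod a b))
  -- from homomorphisms to elements of `S`
  have toS : ∀ (L : BooleanSubalgebra (El ZFModel.E a)) (φ : BoundedLatticeHom L (El ZFModel.E b))
      (h : M), h ≤ prod a b → r' ≤ h →
      (∀ (x : El ZFModel.E a) (y : El ZFModel.E b), pr x.1 y.1 ∈ h ↔
        ∃ hx : x ∈ L, φ ⟨x, hx⟩ = y) → h ∈ S := by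
    intro L φ h h1 h2 h3
    have h4 : ∀ x y, pr x y ∈ h → ∃ (hx : x ∈ a) (hy : y ∈ b) (hL : (⟨x, hx⟩ :
        El ZFModel.E a) ∈ L), φ ⟨⟨x, hx⟩, hL⟩ = ⟨y, hy⟩ := by
      intro x y hxy
      obtain ⟨hx, hy⟩ := pr_mem_prod.1 (h1 _ hxy)
      obtain ⟨hL, h5⟩ := (h3 ⟨x, hx⟩ ⟨y, hy⟩).1 hxy
      exact ⟨hx, hy, hL, h5⟩
    rw [hS]
    refine ⟨mem_Pow.2 h1, h2, ?_, ?_, ?_⟩
    · intro x y y' hy hy'
      obtain ⟨_, _, _, h5⟩ := h4 _ _ hy
      obtain ⟨_, _, _, h6⟩ := h4 _ _ hy'
      have := h5.symm.trans h6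
      exact congrArg Subtype.val this
    · intro x y x' y' hy hy'
      obtain ⟨hx1, hy1, hL1, h5⟩ := h4 _ _ hy
      obtain ⟨hx2, hy2, hL2, h6⟩ := h4 _ _ hy'
      have e1 := lop2_coe (fun x y => x ⊔ y) (⟨x, hx1⟩ : El ZFModel.E a) ⟨x', hx2⟩
      have e2 := lop2_coe (fun x y => x ⊔ y) (⟨y, hy1⟩ : El ZFModel.E b) ⟨y', hy2⟩
      simp only at e1 e2
      rw [e1, e2, h3]
      refine ⟨L.supClosed hL1 hL2, ?_⟩
      have : φ ((⟨⟨x, hx1⟩, hL1⟩ : L) ⊔ (⟨⟨x', hx2⟩, hL2⟩ : L)) =
        φ ⟨⟨x, hx1⟩, hL1⟩ ⊔ φ ⟨⟨x', hx2⟩, hL2⟩ := map_sup φ _ _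
      rw [h5, h6] at this
      exact this
    · intro x y hy
      obtain ⟨hx1, hy1, hL1, h5⟩ := h4 _ _ hy
      have e1 := lop1_coe (fun x => xᶜ) (⟨x, hx1⟩ : El ZFModel.E a)
      have e2 := lop1_coe (fun x => xᶜ) (⟨y, hy1⟩ : El ZFModel.E b)
      simp only at e1 e2
      rw [e1, e2, h3]
      refine ⟨L.compl_mem' hL1, ?_⟩
      have := map_compl' φ (⟨⟨x, hx1⟩, hL1⟩ : L)
      rw [h5] at this
      exact this
  -- from elements of `S` to homomorphisms
  have fromS : ∀ h, h ∈ S → ∃ (L : BooleanSubalgebra (El ZFModel.E a))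
      (φ : BoundedLatticeHom L (El ZFModel.E b)),
      ∀ (x : El ZFModel.E a) (y : El ZFModel.E b), pr x.1 y.1 ∈ h ↔
        ∃ hx : x ∈ L, φ ⟨x, hx⟩ = y := by
    intro h hh
    obtain ⟨h1, h2, h3, h4, h5⟩ := (hS h).1 hh
    refine hom_of_graph (fun (x : El ZFModel.E a) (y : El ZFModel.E b) => pr x.1 y.1 ∈ h)
      ?_ ?_ ?_ ?_
    · refine h2 _ ?_
      rw [hr'g]
      exact ⟨A₀.bot_mem', map_bot f⟩
    · intro x y y' hy hy'
      exact Subtype.ext (h3 _ _ _ hy hy')
    · intro x y x' y' hy hy'
      have := h4 _ _ _ _ hy hy'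
      rw [lop2_coe, lop2_coe] at this
      exact this
    · intro x y hy
      have := h5 _ _ hy
      rw [lop1_coe, lop1_coe] at this
      exact this
  have hr'S : r' ∈ S := toS A₀ f r' (fun x hx => ((hr' x).1 hx).1) (Sub.refl _) hr'g
  have hch : ∀ c : M, c ≤ S → (∃ x, x ∈ c) →
      (∀ x y, x ∈ c → y ∈ c → x ≤ y ∨ y ≤ x) → Un c ∈ S := by
    intro c hcS ⟨x₀, hx₀⟩ hc
    have hc2 : ∀ p q, p ∈ Un c → q ∈ Un c → ∃ x, x ∈ c ∧ p ∈ x ∧ q ∈ x := by
      intro p q hp hq
      obtain ⟨x, hx, hpx⟩ := mem_Un.1 hp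
      obtain ⟨y, hy, hqy⟩ := mem_Un.1 hq
      rcases hc x y hx hy with h | h
      · exact ⟨y, hy, h _ hpx, hqy⟩
      · exact ⟨x, hx, hpx, h _ hqy⟩
    rw [hS]
    refine ⟨mem_Pow.2 ?_, ?_, ?_, ?_, ?_⟩
    · intro p hp
      obtain ⟨x, hx, hpx⟩ := mem_Un.1 hp
      exact mem_Pow.1 ((hS x).1 (hcS _ hx)).1 _ hpx
    · intro p hp
      exact mem_Un.2 ⟨x₀, hx₀, ((hS x₀).1 (hcS _ hx₀)).2.1 _ hp⟩
    · intro x y y' hy hy'
      obtain ⟨z, hz, h1, h2⟩ := hc2 _ _ hy hy'
      exact ((hS z).1 (hcS _ hz)).2.2.1 _ _ _ h1 h2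
    · intro x y x' y' hy hy'
      obtain ⟨z, hz, h1, h2⟩ := hc2 _ _ hy hy'
      exact mem_Un.2 ⟨z, hz, ((hS z).1 (hcS _ hz)).2.2.2.1 _ _ _ _ h1 h2⟩
    · intro x y hy
      obtain ⟨z, hz, h1⟩ := mem_Un.1 hy
      exact mem_Un.2 ⟨z, hz, ((hS z).1 (hcS _ hz)).2.2.2.2 _ _ h1⟩
  obtain ⟨m, hmS, hmax⟩ := zorn_in_model hC S ⟨r', hr'S⟩ hch
  obtain ⟨L, φ, hLφ⟩ := fromS m hmS
  have hmprod : m ≤ prod a b := mem_Pow.1 ((hS m).1 hmS).1
  have hr'm : r' ≤ m := ((hS m).1 hmS).2.1
  have htot : ∀ x : El ZFModel.E a, x ∈ L := by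
    intro x
    by_contra hx
    -- the supremum
    obtain ⟨t, ht⟩ := exists_sep (P := fun y => ∃ d, pr d y ∈ m ∧ pr d x.1 ∈ ra)
      (by unfold Dfn₁; (repeat' (first | with_reducible apply Dfn₄.app dfn_Clo | with_reducible apply Dfn₁.app dfn_Chn | with_reducible apply DTm₃.app dtm_chi | with_reducible apply DTm₂.app dtm_upS | with_reducible apply DTm₂.app dtm_prod | with_reducible apply DTm₂.app dtm_cap | with_reducible apply DTm₂.app dtm_diff | with_reducible apply DTm₁.app dtm_Pow | with_reducible apply DTm₂.app dtm_ins | with_reducible apply DTm₂.app dtm_cup | with_reducible apply DTm₁.app dtm_Un | with_reducible apply DTm₂.app dtm_pr | with_reducible apply DTm₁.app dtm_sing | with_reducible apply DTm₂.app dtm_upair | with_reducible apply DTm.sep | with_reducible apply Dfn₂.app dfn_sub | with_reducible apply Dfn.all | with_reducible apply Dfn.ex | with_reducible apply Dfn.not | with_reducible apply Dfn.and | with_reducible apply Dfn.or | with_reducible apply Dfn.imp | with_reducible apply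 Dfn.iff | with_reducible apply Dfn.eq | with_reducible apply Dfn.mem | with_reducible exact DTm.var _ | with_reducible exact DTm.const _ | with_reducible exact Dfn.constProp _ | with_reducible apply DTm.wk | assumption))) b
    obtain ⟨u, hu⟩ := hcomp t (fun y hy => ((ht y).1 hy).1)
    obtain ⟨L', φ', hL', hφ', hxL', hext⟩ := one_step L φ x u
      (by
        intro d hd
        apply hu.1
        show (φ d).1 ∈ t
        rw [ht]
        exact ⟨(φ d).2, d.1.1, (hLφ d.1 (φ d)).2 ⟨d.2, rfl⟩, (hra _ _).1 hd⟩)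
      (by
        intro d hd
        apply hu.2
        intro y hy
        have hy' : y.1 ∈ t := hy
        rw [ht] at hy'
        obtain ⟨-, e, he1, he2⟩ := hy'
        obtain ⟨hea, -⟩ := pr_mem_prod.1 (hmprod _ he1)
        obtain ⟨heL, he3⟩ := (hLφ ⟨e, hea⟩ y).1 he1
        rw [← he3]
        apply OrderHomClass.mono φ
        exact ((hra ⟨e, hea⟩ x).2 he2).trans hd)
    -- the graph of `φ'` is a set
    have hdef : Dfn₂ (fun z w : M => ∃ d₁ y₁ d₂ y₂, pr d₁ y₁ ∈ m ∧ pr d₂ y₂ ∈ m ∧
        z = lop2 a (fun x y => x ⊔ y) (lop2 a (fun x y => x ⊓ y) d₁ x.1)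
          (lop2 a (fun x y => x ⊓ y) d₂ (xᶜ).1) ∧
        w = lop2 b (fun x y => x ⊔ y) (lop2 b (fun x y => x ⊓ y) y₁ u.1)
          (lop2 b (fun x y => x ⊓ y) y₂ (uᶜ).1)) := by
      unfold Dfn₂
      (repeat' (first | with_reducible apply Dfn₄.app dfn_Clo | with_reducible apply Dfn₁.app dfn_Chn | with_reducible apply DTm₃.app dtm_chi | with_reducible apply DTm₂.app dtm_upS | with_reducible apply DTm₂.app dtm_prod | with_reducible apply DTm₂.app dtm_cap | with_reducible apply DTm₂.app dtm_diff | with_reducible apply DTm₁.app dtm_Pow | with_reducible apply DTm₂.app dtm_ins | with_reducible apply DTm₂.app dtm_cup | with_reducible apply DTm₁.app dtm_Un | with_reducible apply DTm₂.app dtm_pr | with_reducible apply DTm₁.app dtm_sing | with_reducible apply DTm₂.app dtm_upair | with_reducible apply DTm.sep | with_reducible apply Dfn₂.app dfn_sub | with_reducible apply Dfn.all | with_reducible apply Dfn.ex | with_reducible apply Dfn.not | with_reducible apply Dfn.and | with_reducible apply Dfn.or | with_reducible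 apply Dfn.imp | with_reducible apply Dfn.iff | with_reducible apply Dfn.eq | with_reducible apply Dfn.mem | with_reducible exact DTm.var _ | with_reducible exact DTm.const _ | with_reducible exact Dfn.constProp _ | with_reducible apply DTm.wk | assumption))
      · exact hsA.app (hiA.app (DTm.var _) (DTm.const _)) (hiA.app (DTm.var _) (DTm.const _))
      · exact hsB.app (hiB.app (DTm.var _) (DTm.const _)) (hiB.app (DTm.var _) (DTm.const _))
    obtain ⟨q₀, hq₀⟩ := exists_rel hdef a b
    obtain ⟨q, hq⟩ := exists_sep (P := fun p => p ∈ q₀) (by unfold Dfn₁; (repeat' (first | with_reducible apply Dfn₄.app dfn_Clo | with_reducible apply Dfn₁.app dfn_Chn | with_reducible apply DTm₃.app dtm_chi | with_reducible apply DTm₂.app dtm_upS | with_reducible apply DTm₂.app dtm_prod | with_reducible apply DTm₂.app dtm_cap | with_reducible apply DTm₂.app dtm_diff | with_reducible apply DTm₁.app dtm_Pow | with_reducible apply DTm₂.app dtm_ins | with_reducible apply DTm₂.app dtm_cup | with_reducible apply DTm₁.app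 dtm_Un | with_reducible apply DTm₂.app dtm_pr | with_reducible apply DTm₁.app dtm_sing | with_reducible apply DTm₂.app dtm_upair | with_reducible apply DTm.sep | with_reducible apply Dfn₂.app dfn_sub | with_reducible apply Dfn.all | with_reducible apply Dfn.ex | with_reducible apply Dfn.not | with_reducible apply Dfn.and | with_reducible apply Dfn.or | with_reducible apply Dfn.imp | with_reducible apply Dfn.iff | with_reducible apply Dfn.eq | with_reducible apply Dfn.mem | with_reducible exact DTm.var _ | with_reducible exact DTm.const _ | with_reducible exact Dfn.constProp _ | with_reducible apply DTm.wk | assumption))) (prod a b)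
    have hqg : ∀ (z : El ZFModel.E a) (w : El ZFModel.E b), pr z.1 w.1 ∈ q ↔
        ∃ hz : z ∈ L', φ' ⟨z, hz⟩ = w := by
      intro z w
      rw [hq, hq₀, pr_mem_prod]
      constructor
      · rintro ⟨-, -, -, d₁, y₁, d₂, y₂, h1, h2, h3, h4⟩
        obtain ⟨hd₁, hy₁⟩ := pr_mem_prod.1 (hmprod _ h1)
        obtain ⟨hd₂, hy₂⟩ := pr_mem_prod.1 (hmprod _ h2)
        obtain ⟨hL1, e1⟩ := (hLφ ⟨d₁, hd₁⟩ ⟨y₁, hy₁⟩).1 h1
        obtain ⟨hL2, e2⟩ := (hLφ ⟨d₂, hd₂⟩ ⟨y₂, hy₂⟩).1 h2
        have e3 := lop2_coe (fun x y => x ⊓ y) (⟨d₁, hd₁⟩ : El ZFModel.E a) x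
        have e4 := lop2_coe (fun x y => x ⊓ y) (⟨d₂, hd₂⟩ : El ZFModel.E a) xᶜ
        have e5 := lop2_coe (fun x y => x ⊓ y) (⟨y₁, hy₁⟩ : El ZFModel.E b) u
        have e6 := lop2_coe (fun x y => x ⊓ y) (⟨y₂, hy₂⟩ : El ZFModel.E b) uᶜ
        simp only at e3 e4 e5 e6
        rw [e3, e4, lop2_coe] at h3
        rw [e5, e6, lop2_coe] at h4
        have hz := Subtype.ext h3
        have hw := Subtype.ext h4
        have hzL : z ∈ L' := (hL' z).2 ⟨⟨_, hL1⟩, ⟨_, hL2⟩, hz⟩
        refine ⟨hzL, ?_⟩
        rw [hφ' ⟨z, hzL⟩ ⟨_, hL1⟩ ⟨_, hL2⟩ hz, e1, e2]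
        exact hw.symm
      · rintro ⟨hz, rfl⟩
        obtain ⟨d₁, d₂, h1⟩ := (hL' z).1 hz
        refine ⟨⟨z.2, (φ' ⟨z, hz⟩).2⟩, z.2, (φ' ⟨z, hz⟩).2, d₁.1.1, (φ d₁).1, d₂.1.1,
          (φ d₂).1, (hLφ _ _).2 ⟨d₁.2, rfl⟩, (hLφ _ _).2 ⟨d₂.2, rfl⟩, ?_, ?_⟩
        · rw [lop2_coe, lop2_coe, lop2_coe, h1]
        · rw [lop2_coe, lop2_coe, lop2_coe, hφ' ⟨z, hz⟩ d₁ d₂ h1]
    have hmq : m ≤ q := by
      intro p hp
      obtain ⟨z, w, hz, hw, rfl⟩ := mem_prod.1 (hmprod _ hp)
      have h1 := (hLφ ⟨z, hz⟩ ⟨w, hw⟩).1 hp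
      obtain ⟨hzL, h2⟩ := h1
      obtain ⟨hd, h3⟩ := hext ⟨⟨z, hz⟩, hzL⟩
      exact (hqg ⟨z, hz⟩ ⟨w, hw⟩).2 ⟨hd, h3.trans h2⟩
    have hqS : q ∈ S := toS L' φ' q (fun p hp => ((hq p).1 hp).1) (hr'm.trans hmq) hqg
    have hqm := hmax q hqS hmq
    apply hx
    have h1 := (hqg x (φ' ⟨x, hxL'⟩)).2 ⟨hxL', rfl⟩
    rw [hqm, hLφ] at h1
    exact h1.1
  let ι : BoundedLatticeHom (El ZFModel.E a) L :=
    { toFun := fun x => ⟨x, htot x⟩
      map_sup' := fun _ _ => rfl
      map_inf' := fun _ _ => rfl
      map_top' := rfl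
      map_bot' := rfl }
  refine ⟨φ.comp ι, ?_, ?_⟩
  · rw [isSetRel_iff]
    refine ⟨m, fun x y => ?_⟩
    rw [hLφ]
    constructor
    · intro h
      exact ⟨htot x, h⟩
    · rintro ⟨_, h⟩
      exact h
  · intro x
    have h1 := (hr'g x.1 (f x)).2 ⟨x.2, rfl⟩
    have h2 := (hLφ _ _).1 (hr'm _ h1)
    obtain ⟨_, h3⟩ := h2
    exact h3

end SIK
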