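import Mathlib

/-!
# Models of ZF, and the two statements, inside a model

Everything here is stated for an arbitrary type `M` with a binary relation `E`
(``E x a`` is read ``x` is an element of `a``).
-/

universe u

namespace SIK

variable {M : Type u}

/-- Formulas of the first-order language of set theory, with parameters from `M` and with
free variables indexed by `Fin n`. -/
inductive Fml (M : Type u) : ℕ → Type u
  | mem {n : ℕ} (s t : Fin n ⊕ M) : Fml M n
  | eq {n : ℕ} (s t : Fin n ⊕ M) : Fml M n
  | neg {n : ℕ} (φ : Fml M n) : Fml M n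
  | and {n : ℕ} (φ ψ : Fml M n) : Fml M n
  | all {n : ℕ} (φ : Fml M (n + 1)) : Fml M n

/-- The value of a term (a variable or a parameter) under an assignment. -/
def val {n : ℕ} (v : Fin n → M) : Fin n ⊕ M → M := Sum.elim v id

/-- Satisfaction of a formula in the structure `(M, E)`.  In `all φ` the bound variable is the
variable `0` of `φ`. -/
def Fml.Sat (E : M → M → Prop) : {n : ℕ} → Fml M n → (Fin n → M) → Prop
  | _, .mem s t, v => E (val v s) (val v t)
  | _, .eq s t, v => val v s = val v t
  | _, .neg φ, v => ¬ φ.Sat E v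
  | _, .and φ ψ, v => φ.Sat E v ∧ ψ.Sat E v
  | _, .all φ, v => ∀ x : M, φ.Sat E (Fin.cons x v)

/-- `(M, E)` is a model of Zermelo–Fraenkel set theory ZF (without the Axiom of Choice). -/
structure IsZF (E : M → M → Prop) : Prop where
  /-- Extensionality -/
  ext : ∀ a b, (∀ x, E x a ↔ E x b) → a = b
  /-- Foundation -/
  foundation : ∀ a, (∃ x, E x a) → ∃ x, E x a ∧ ∀ y, E y x → ¬ E y a
  /-- Pairing -/
  pairing : ∀ a b, ∃ c, ∀ x, E x c ↔ x = a ∨ x = b
  /-- Union -/
  union : ∀ a, ∃ b, ∀ x, E x b ↔ ∃ y, E y a ∧ E x y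
  /-- Power set -/
  powerset : ∀ a, ∃ b, ∀ x, E x b ↔ ∀ y, E y x → E y a
  /-- Infinity -/
  infinity : ∃ a, (∃ e, E e a ∧ ∀ x, ¬ E x e) ∧
    ∀ x, E x a → ∃ y, E y a ∧ ∀ z, E z y ↔ E z x ∨ z = x
  /-- Separation scheme, for all first-order formulas with parameters -/
  separation : ∀ (φ : Fml M 1) (a : M), ∃ b, ∀ x, E x b ↔ E x a ∧ φ.Sat E ![x]
  /-- Replacement scheme, for all first-order formulas with parameters -/
  replacement : ∀ (φ : Fml M 2) (a : M), (∀ x, E x a → ∃! y, φ.Sat E ![x, y]) →
    ∃ b, ∀ y, E y b ↔ ∃ x, E x a ∧ φ.Sat E ![x, y]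

/-- The type of elements of the set `a` of the model. -/
def El (E : M → M → Prop) (a : M) : Type u := {x : M // E x a}

/-- `p` is the ordered pair `(x, y) = {{x}, {x, y}}` of the model. -/
def IsPair (E : M → M → Prop) (p x y : M) : Prop :=
  ∀ z, E z p ↔ (∀ w, E w z ↔ w = x) ∨ (∀ w, E w z ↔ w = x ∨ w = y)

/-- `(x, y)` is an element of `r`. -/
def PairIn (E : M → M → Prop) (r x y : M) : Prop := ∃ p, IsPair E p x y ∧ E p r

/-- The binary relation `R` between elements of `a` and elements of `b` is an element of the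
model, i.e. it is given by a set of ordered pairs of the model. -/
def IsSetRel (E : M → M → Prop) {a b : M} (R : El E a → El E b → Prop) : Prop :=
  ∃ r : M, ∀ (x : El E a) (y : El E b), R x y ↔ PairIn E r x.1 y.1

/-- The Axiom of Choice holds in `(M, E)`: for each set `a` of nonempty sets there is, in the
model, a function `f` with domain `a` and `f(x) ∈ x` for all `x ∈ a`. -/
def Choice (E : M → M → Prop) : Prop :=
  ∀ a : M, (∀ x, E x a → ∃ y, E y x) →
    ∃ f : M, (∀ p, E p f → ∃ x y, E x a ∧ IsPair E p x y) ∧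
      ∀ x, E x a → ∃ y, E y x ∧ ∀ z, PairIn E f x z ↔ z = y

/-- A Boolean algebra structure on the set `b` of the model is complete in the sense of the model:
each subset `s ∈ M` of `b` has a supremum. -/
def IsCompleteBA (E : M → M → Prop) (b : M) [BooleanAlgebra (El E b)] : Prop :=
  ∀ s : M, (∀ x, E x s → E x b) → ∃ u : El E b, IsLUB {x : El E b | E x.1 s} u

/-- Statement (1) holds in `(M, E)`: each complete Boolean algebra `b` of the model is injective.

A Boolean algebra of the model is a set `a ∈ M` with a Boolean algebra structure on its elements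
whose order relation is a set of ordered pairs of the model.  Subalgebras and homomorphisms have to
be elements of the model as well. -/
def Injectivity (E : M → M → Prop) : Prop :=
  ∀ (b : M) [BooleanAlgebra (El E b)], IsSetRel E (fun x y : El E b => x ≤ y) →
    IsCompleteBA E b →
    ∀ (a : M) [BooleanAlgebra (El E a)], IsSetRel E (fun x y : El E a => x ≤ y) →
    ∀ A₀ : BooleanSubalgebra (El E a), (∃ s : M, ∀ x : El E a, x ∈ A₀ ↔ E x.1 s) →
    ∀ f : BoundedLatticeHom A₀ (El E b),
      (∃ r : M, ∀ (x : A₀) (y : El E b), f x = y ↔ PairIn E r x.1.1 y.1) →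
      ∃ g : BoundedLatticeHom (El E a) (El E b),
        IsSetRel E (fun (x : El E a) (y : El E b) => g x = y) ∧ ∀ x : A₀, g x.1 = f x

end SIK
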