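import Mathlib

/-!
# One-step extension of homomorphisms of Boolean algebras (pure Lean, no set theory)

TASK (helper3's MP_238801_lc), proved by helper22.
-/

namespace SIK

theorem mix_inf_self {A : Type*} [BooleanAlgebra A] (x p q : A) :
    ((p ⊓ x) ⊔ (q ⊓ xᶜ)) ⊓ x = p ⊓ x := by
  rw [inf_sup_right, inf_assoc, inf_idem, inf_assoc, compl_inf_self, inf_bot_eq, sup_bot_eq]

theorem mix_inf_compl {A : Type*} [BooleanAlgebra A] (x p q : A) :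
    ((p ⊓ x) ⊔ (q ⊓ xᶜ)) ⊓ xᶜ = q ⊓ xᶜ := by
  rw [inf_sup_right, inf_assoc, inf_compl_self, inf_bot_eq, bot_sup_eq, inf_assoc, inf_idem]

theorem mix_ext {A : Type*} [BooleanAlgebra A] (x : A) {u v : A} (h1 : u ⊓ x = v ⊓ x)
    (h2 : u ⊓ xᶜ = v ⊓ xᶜ) : u = v := by
  rw [← sup_inf_inf_compl (x := u) (y := x), h1, h2, sup_inf_inf_compl]

theorem mix_sup {A : Type*} [BooleanAlgebra A] (x p q p' q' : A) :
    ((p ⊓ x) ⊔ (q ⊓ xᶜ)) ⊔ ((p' ⊓ x) ⊔ (q' ⊓ xᶜ)) =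
      ((p ⊔ p') ⊓ x) ⊔ ((q ⊔ q') ⊓ xᶜ) := by
  rw [inf_sup_right, inf_sup_right, sup_sup_sup_comm]

theorem mix_inf {A : Type*} [BooleanAlgebra A] (x p q p' q' : A) :
    ((p ⊓ x) ⊔ (q ⊓ xᶜ)) ⊓ ((p' ⊓ x) ⊔ (q' ⊓ xᶜ)) =
      ((p ⊓ p') ⊓ x) ⊔ ((q ⊓ q') ⊓ xᶜ) := by
  apply mix_ext x
  · rw [mix_inf_self, inf_inf_distrib_right, mix_inf_self, mix_inf_self, ← inf_inf_distrib_right]
  · rw [mix_inf_compl, inf_inf_distrib_right, mix_inf_compl, mix_inf_compl,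
      ← inf_inf_distrib_right]

theorem compl_inf_eq {A : Type*} [BooleanAlgebra A] (x a : A) : aᶜ ⊓ x = (a ⊓ x)ᶜ ⊓ x := by
  rw [compl_inf, inf_sup_right, compl_inf_self, sup_bot_eq]

theorem mix_compl {A : Type*} [BooleanAlgebra A] (x p q : A) :
    ((p ⊓ x) ⊔ (q ⊓ xᶜ))ᶜ = (pᶜ ⊓ x) ⊔ (qᶜ ⊓ xᶜ) := by
  apply mix_ext x
  · rw [mix_inf_self, compl_inf_eq, mix_inf_self, ← compl_inf_eq]
  · rw [mix_inf_compl, compl_inf_eq, mix_inf_compl, ← compl_inf_eq]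

/-- Well-definedness, one inequality. -/
theorem one_step_le {A B : Type*} [BooleanAlgebra A] [BooleanAlgebra B]
    (L : BooleanSubalgebra A) (f : BoundedLatticeHom L B) (x : A) (b : B)
    (h1 : ∀ d : L, d.1 ≤ x → f d ≤ b) (h2 : ∀ d : L, x ≤ d.1 → b ≤ f d)
    (d1 d2 e1 e2 : L)
    (h : (d1.1 ⊓ x) ⊔ (d2.1 ⊓ xᶜ) = (e1.1 ⊓ x) ⊔ (e2.1 ⊓ xᶜ)) :
    (f d1 ⊓ b) ⊔ (f d2 ⊓ bᶜ) ≤ (f e1 ⊓ b) ⊔ (f e2 ⊓ bᶜ) := by
  have hx : d1.1 ⊓ x = e1.1 ⊓ x := by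
    have := congrArg (· ⊓ x) h
    simpa only [mix_inf_self] using this
  have hxc : d2.1 ⊓ xᶜ = e2.1 ⊓ xᶜ := by
    have := congrArg (· ⊓ xᶜ) h
    simpa only [mix_inf_compl] using this
  apply sup_le_sup
  · apply le_inf _ inf_le_right
    have hle : x ≤ (d1ᶜ ⊔ e1 : L).1 := by
      have : x ⊓ d1.1 ≤ e1.1 := by rw [inf_comm, hx]; exact inf_le_left
      have h3 : x ≤ d1.1 ⇨ e1.1 := le_himp_iff.2 this
      rw [himp_eq, sup_comm] at h3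
      exact h3
    have h4 := h2 _ hle
    rw [map_sup, map_compl', sup_comm, ← himp_eq, le_himp_iff, inf_comm] at h4
    exact h4
  · apply le_inf _ inf_le_right
    have hle : (d2 \ e2 : L).1 ≤ x := by
      have : d2.1 \ x ≤ e2.1 := by rw [sdiff_eq, hxc]; exact inf_le_left
      exact sdiff_le_comm.1 this
    have h4 := h1 _ hle
    rw [map_sdiff'] at h4
    rw [← sdiff_eq]
    exact sdiff_le_comm.1 h4

theorem one_step_eq {A B : Type*} [BooleanAlgebra A] [BooleanAlgebra B]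
    (L : BooleanSubalgebra A) (f : BoundedLatticeHom L B) (x : A) (b : B)
    (h1 : ∀ d : L, d.1 ≤ x → f d ≤ b) (h2 : ∀ d : L, x ≤ d.1 → b ≤ f d)
    (d1 d2 e1 e2 : L)
    (h : (d1.1 ⊓ x) ⊔ (d2.1 ⊓ xᶜ) = (e1.1 ⊓ x) ⊔ (e2.1 ⊓ xᶜ)) :
    (f d1 ⊓ b) ⊔ (f d2 ⊓ bᶜ) = (f e1 ⊓ b) ⊔ (f e2 ⊓ bᶜ) :=
  le_antisymm (one_step_le L f x b h1 h2 d1 d2 e1 e2 h)
    (one_step_le L f x b h1 h2 e1 e2 d1 d2 h.symm)

/-- Let `L` be a subalgebra of `A`, `f : L → B` a homomorphism, `x : A`, and let `b : B` satisfy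
`f d ≤ b` for all `d ∈ L` below `x`, and `b ≤ f d` for all `d ∈ L` above `x`.  Then `f` extends to
the subalgebra `{(d₁ ⊓ x) ⊔ (d₂ ⊓ xᶜ)}` generated by `L` and `x`, with `x ↦ b`. -/
theorem one_step {A B : Type*} [BooleanAlgebra A] [BooleanAlgebra B]
    (L : BooleanSubalgebra A) (f : BoundedLatticeHom L B) (x : A) (b : B)
    (h1 : ∀ d : L, d.1 ≤ x → f d ≤ b) (h2 : ∀ d : L, x ≤ d.1 → b ≤ f d) :
    ∃ (L' : BooleanSubalgebra A) (f' : BoundedLatticeHom L' B),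
      (∀ z, z ∈ L' ↔ ∃ d₁ d₂ : L, z = (d₁.1 ⊓ x) ⊔ (d₂.1 ⊓ xᶜ)) ∧
      (∀ (z : L') (d₁ d₂ : L), z.1 = (d₁.1 ⊓ x) ⊔ (d₂.1 ⊓ xᶜ) →
        f' z = (f d₁ ⊓ b) ⊔ (f d₂ ⊓ bᶜ)) ∧
      x ∈ L' ∧ ∀ d : L, ∃ hd : d.1 ∈ L', f' ⟨d.1, hd⟩ = f d := by
  classical
  let L' : BooleanSubalgebra A :=
    { carrier := {z | ∃ d₁ d₂ : L, z = (d₁.1 ⊓ x) ⊔ (d₂.1 ⊓ xᶜ)}
      supClosed' := by
        rintro _ ⟨p, q, rfl⟩ _ ⟨p', q', rfl⟩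
        exact ⟨p ⊔ p', q ⊔ q', mix_sup x _ _ _ _⟩
      infClosed' := by
        rintro _ ⟨p, q, rfl⟩ _ ⟨p', q', rfl⟩
        exact ⟨p ⊓ p', q ⊓ q', mix_inf x _ _ _ _⟩
      compl_mem' := by
        rintro _ ⟨p, q, rfl⟩
        exact ⟨pᶜ, qᶜ, mix_compl x _ _⟩
      bot_mem' := ⟨⊥, ⊥, by simp⟩ }
  have hmem : ∀ z, z ∈ L' ↔ ∃ d₁ d₂ : L, z = (d₁.1 ⊓ x) ⊔ (d₂.1 ⊓ xᶜ) := fun z => Iff.rfl
  have hex : ∀ z : L', ∃ w : L × L, z.1 = (w.1.1 ⊓ x) ⊔ (w.2.1 ⊓ xᶜ) := by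
    rintro ⟨z, p, q, h⟩
    exact ⟨(p, q), h⟩
  choose w hw using hex
  have key : ∀ (z : L') (d₁ d₂ : L), z.1 = (d₁.1 ⊓ x) ⊔ (d₂.1 ⊓ xᶜ) →
      (f (w z).1 ⊓ b) ⊔ (f (w z).2 ⊓ bᶜ) = (f d₁ ⊓ b) ⊔ (f d₂ ⊓ bᶜ) := by
    intro z d₁ d₂ h
    exact one_step_eq L f x b h1 h2 _ _ _ _ ((hw z).symm.trans h)
  let f' : BoundedLatticeHom L' B :=
    { toFun := fun z => (f (w z).1 ⊓ b) ⊔ (f (w z).2 ⊓ bᶜ)
      map_sup' := by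
        intro z z'
        have h : (z ⊔ z').1 = (((w z).1 ⊔ (w z').1 : L).1 ⊓ x) ⊔
            (((w z).2 ⊔ (w z').2 : L).1 ⊓ xᶜ) := by
          rw [BooleanSubalgebra.val_sup, hw z, hw z']
          exact mix_sup x _ _ _ _
        rw [key _ _ _ h, map_sup, map_sup, mix_sup]
      map_inf' := by
        intro z z'
        have h : (z ⊓ z').1 = (((w z).1 ⊓ (w z').1 : L).1 ⊓ x) ⊔
            (((w z).2 ⊓ (w z').2 : L).1 ⊓ xᶜ) := by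
          rw [BooleanSubalgebra.val_inf, hw z, hw z']
          exact mix_inf x _ _ _ _
        rw [key _ _ _ h, map_inf, map_inf, mix_inf]
      map_top' := by
        have h : (⊤ : L').1 = ((⊤ : L).1 ⊓ x) ⊔ ((⊤ : L).1 ⊓ xᶜ) := by
          rw [BooleanSubalgebra.val_top, BooleanSubalgebra.val_top, top_inf_eq, top_inf_eq,
            sup_compl_eq_top]
        rw [key _ _ _ h, map_top, top_inf_eq, top_inf_eq, sup_compl_eq_top]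
      map_bot' := by
        have h : (⊥ : L').1 = ((⊥ : L).1 ⊓ x) ⊔ ((⊥ : L).1 ⊓ xᶜ) := by
          rw [BooleanSubalgebra.val_bot, BooleanSubalgebra.val_bot, bot_inf_eq, bot_inf_eq,
            sup_bot_eq]
        rw [key _ _ _ h, map_bot, bot_inf_eq, bot_inf_eq, sup_bot_eq] }
  have hf' : ∀ (z : L') (d₁ d₂ : L), z.1 = (d₁.1 ⊓ x) ⊔ (d₂.1 ⊓ xᶜ) →
        f' z = (f d₁ ⊓ b) ⊔ (f d₂ ⊓ bᶜ) := key
  refine ⟨L', f', hmem, hf', ?_, ?_⟩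
  · exact ⟨⊤, ⊥, by simp⟩
  · intro d
    have hd : d.1 = (d.1 ⊓ x) ⊔ (d.1 ⊓ xᶜ) := sup_inf_inf_compl.symm
    exact ⟨⟨d, d, hd⟩, (hf' ⟨d.1, d, d, hd⟩ d d hd).trans sup_inf_inf_compl⟩

end SIK
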