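import Pool.Agent.W_MP_238801_lc.Base

/-!
# The regular open algebra of a preorder of the model
-/

universe u

set_option linter.unusedSectionVars false
set_option linter.unreachableTactic false
set_option linter.unusedTactic false

namespace SIK

variable {M : Type u} [ZFModel M]

/-- `R` codes a preorder on `P0`; `pr s t ∈ R` is read `s ≤ t` (``s` extends `t``). -/
structure IsPre (P0 R : M) : Prop where
  refl : ∀ s, s ∈ P0 → pr s s ∈ R
  trans : ∀ r s t, r ∈ P0 → s ∈ P0 → t ∈ P0 → pr r s ∈ R → pr s t ∈ R → pr r t ∈ R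

/-- regular closure: the set of `s` below which `z` is dense -/
noncomputable def rc (P0 R z : M) : M :=
  sep P0 (fun s => ∀ t, t ∈ P0 → pr t s ∈ R → ∃ r, r ∈ P0 ∧ pr r t ∈ R ∧ r ∈ z)

/-- complement -/
noncomputable def cpl (P0 R z : M) : M :=
  sep P0 (fun s => ∀ t, t ∈ P0 → pr t s ∈ R → t ∉ z)

theorem mem_rc {P0 R z s : M} : s ∈ rc P0 R z ↔ s ∈ P0 ∧
    ∀ t, t ∈ P0 → pr t s ∈ R → ∃ r, r ∈ P0 ∧ pr r t ∈ R ∧ r ∈ z := by
  unfold rc; rw [mem_sep]; unfold Dfn₁; (repeat' (first | with_reducible apply DTm₂.app dtm_prod | with_reducible apply DTm₂.app dtm_cap | with_reducible apply DTm₂.app dtm_diff | with_reducible apply DTm₁.app dtm_Pow | with_reducible apply DTm₂.app dtm_ins | with_reducible apply DTm₂.app dtm_cup | with_reducible apply DTm₁.app dtm_Un | with_reducible apply DTm₂.app dtm_pr | with_reducible apply DTm₁.app dtm_sing | with_reducible apply DTm₂.app dtm_upair | with_reducible apply DTm.sep | with_reducible apply Dfn₂.app dfn_sub | with_reducible apply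 Dfn.all | with_reducible apply Dfn.ex | with_reducible apply Dfn.not | with_reducible apply Dfn.and | with_reducible apply Dfn.or | with_reducible apply Dfn.imp | with_reducible apply Dfn.iff | with_reducible apply Dfn.eq | with_reducible apply Dfn.mem | with_reducible exact DTm.var _ | with_reducible exact DTm.const _ | with_reducible exact Dfn.constProp _ | with_reducible apply DTm.wk | assumption))

theorem mem_cpl {P0 R z s : M} : s ∈ cpl P0 R z ↔ s ∈ P0 ∧
    ∀ t, t ∈ P0 → pr t s ∈ R → t ∉ z := by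
  unfold cpl; rw [mem_sep]; unfold Dfn₁; (repeat' (first | with_reducible apply DTm₂.app dtm_prod | with_reducible apply DTm₂.app dtm_cap | with_reducible apply DTm₂.app dtm_diff | with_reducible apply DTm₁.app dtm_Pow | with_reducible apply DTm₂.app dtm_ins | with_reducible apply DTm₂.app dtm_cup | with_reducible apply DTm₁.app dtm_Un | with_reducible apply DTm₂.app dtm_pr | with_reducible apply DTm₁.app dtm_sing | with_reducible apply DTm₂.app dtm_upair | with_reducible apply DTm.sep | with_reducible apply Dfn₂.app dfn_sub | with_reducible apply Dfn.all | with_reducible apply Dfn.ex | with_reducible apply Dfn.not | with_reducible apply Dfn.and | with_reducible apply Dfn.or | with_reducible apply Dfn.imp | with_reducible apply Dfn.iff | with_reducible apply Dfn.eq | with_reducible apply Dfn.mem | with_reducible exact DTm.var _ | with_reducible exact DTm.const _ | with_reducible exact Dfn.constProp _ | with_reducible apply DTm.wk | assumption))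

theorem dtm_rc : DTm₃ (rc : M → M → M → M) := by
  unfold DTm₃ rc; (repeat' (first | with_reducible apply DTm₂.app dtm_prod | with_reducible apply DTm₂.app dtm_cap | with_reducible apply DTm₂.app dtm_diff | with_reducible apply DTm₁.app dtm_Pow | with_reducible apply DTm₂.app dtm_ins | with_reducible apply DTm₂.app dtm_cup | with_reducible apply DTm₁.app dtm_Un | with_reducible apply DTm₂.app dtm_pr | with_reducible apply DTm₁.app dtm_sing | with_reducible apply DTm₂.app dtm_upair | with_reducible apply DTm.sep | with_reducible apply Dfn₂.app dfn_sub | with_reducible apply Dfn.all | with_reducible apply Dfn.ex | with_reducible apply Dfn.not | with_reducible apply Dfn.and | with_reducible apply Dfn.or | with_reducible apply Dfn.imp | with_reducible apply Dfn.iff | with_reducible apply Dfn.eq | with_reducible apply Dfn.mem | with_reducible exact DTm.var _ | with_reducible exact DTm.const _ | with_reducible exact Dfn.constProp _ | with_reducible apply DTm.wk | assumption))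

theorem dtm_cpl : DTm₃ (cpl : M → M → M → M) := by
  unfold DTm₃ cpl; (repeat' (first | with_reducible apply DTm₃.app dtm_rc | with_reducible apply DTm₂.app dtm_prod | with_reducible apply DTm₂.app dtm_cap | with_reducible apply DTm₂.app dtm_diff | with_reducible apply DTm₁.app dtm_Pow | with_reducible apply DTm₂.app dtm_ins | with_reducible apply DTm₂.app dtm_cup | with_reducible apply DTm₁.app dtm_Un | with_reducible apply DTm₂.app dtm_pr | with_reducible apply DTm₁.app dtm_sing | with_reducible apply DTm₂.app dtm_upair | with_reducible apply DTm.sep | with_reducible apply Dfn₂.app dfn_sub | with_reducible apply Dfn.all | with_reducible apply Dfn.ex | with_reducible apply Dfn.not | with_reducible apply Dfn.and | with_reducible apply Dfn.or | with_reducible apply Dfn.imp | with_reducible apply Dfn.iff | with_reducible apply Dfn.eq | with_reducible apply Dfn.mem | with_reducible exact DTm.var _ | with_reducible exact DTm.const _ | with_reducible exact Dfn.constProp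 _ | with_reducible apply DTm.wk | assumption))

/-- the set of regular open sets -/
noncomputable def RO (P0 R : M) : M := sep (Pow P0) (fun u => rc P0 R u = u)

theorem mem_RO {P0 R u : M} : u ∈ RO P0 R ↔ u ≤ P0 ∧ rc P0 R u = u := by
  unfold RO; rw [mem_sep (by unfold Dfn₁; (repeat' (first | with_reducible apply DTm₃.app dtm_cpl | with_reducible apply DTm₃.app dtm_rc | with_reducible apply DTm₂.app dtm_prod | with_reducible apply DTm₂.app dtm_cap | with_reducible apply DTm₂.app dtm_diff | with_reducible apply DTm₁.app dtm_Pow | with_reducible apply DTm₂.app dtm_ins | with_reducible apply DTm₂.app dtm_cup | with_reducible apply DTm₁.app dtm_Un | with_reducible apply DTm₂.app dtm_pr | with_reducible apply DTm₁.app dtm_sing | with_reducible apply DTm₂.app dtm_upair | with_reducible apply DTm.sep | with_reducible apply Dfn₂.app dfn_sub | with_reducible apply Dfn.all | with_reducible apply Dfn.ex | with_reducible apply Dfn.not | with_reducible apply Dfn.and | with_reducible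 apply Dfn.or | with_reducible apply Dfn.imp | with_reducible apply Dfn.iff | with_reducible apply Dfn.eq | with_reducible apply Dfn.mem | with_reducible exact DTm.var _ | with_reducible exact DTm.const _ | with_reducible exact Dfn.constProp _ | with_reducible apply DTm.wk | assumption))), mem_Pow]

theorem dtm_RO : DTm₂ (RO : M → M → M) := by
  unfold DTm₂ RO; (repeat' (first | with_reducible apply DTm₃.app dtm_cpl | with_reducible apply DTm₃.app dtm_rc | with_reducible apply DTm₂.app dtm_prod | with_reducible apply DTm₂.app dtm_cap | with_reducible apply DTm₂.app dtm_diff | with_reducible apply DTm₁.app dtm_Pow | with_reducible apply DTm₂.app dtm_ins | with_reducible apply DTm₂.app dtm_cup | with_reducible apply DTm₁.app dtm_Un | with_reducible apply DTm₂.app dtm_pr | with_reducible apply DTm₁.app dtm_sing | with_reducible apply DTm₂.app dtm_upair | with_reducible apply DTm.sep | with_reducible apply Dfn₂.app dfn_sub | with_reducible apply Dfn.all | with_reducible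 apply Dfn.ex | with_reducible apply Dfn.not | with_reducible apply Dfn.and | with_reducible apply Dfn.or | with_reducible apply Dfn.imp | with_reducible apply Dfn.iff | with_reducible apply Dfn.eq | with_reducible apply Dfn.mem | with_reducible exact DTm.var _ | with_reducible exact DTm.const _ | with_reducible exact Dfn.constProp _ | with_reducible apply DTm.wk | assumption))

section
variable {P0 R : M} (h : IsPre P0 R)
include h

theorem rc_mem_RO (z : M) : rc P0 R z ∈ RO P0 R := by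
  rw [mem_RO]
  refine ⟨fun s hs => (mem_rc.1 hs).1, ?_⟩
  apply ext
  intro s
  constructor
  · intro hs
    obtain ⟨hs0, hs⟩ := mem_rc.1 hs
    refine mem_rc.2 ⟨hs0, fun t ht hts => ?_⟩
    obtain ⟨r, hr, hrt, hrz⟩ := hs t ht hts
    obtain ⟨r', hr', hrr, hrz'⟩ := (mem_rc.1 hrz).2 r hr (h.refl r hr)
    exact ⟨r', hr', h.trans _ _ _ hr' hr ht hrr hrt, hrz'⟩
  · intro hs
    have hs0 := (mem_rc.1 hs).1
    refine mem_rc.2 ⟨hs0, fun t ht hts => ?_⟩
    refine ⟨t, ht, h.refl t ht, mem_rc.2 ⟨ht, fun r hr hrt => ?_⟩⟩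
    exact (mem_rc.1 hs).2 r hr (h.trans _ _ _ hr ht hs0 hrt hts)

theorem RO_lower {u s t : M} (hu : u ∈ RO P0 R) (hs : s ∈ u) (ht : t ∈ P0)
    (hts : pr t s ∈ R) : t ∈ u := by
  obtain ⟨hu0, hu⟩ := mem_RO.1 hu
  rw [← hu] at hs ⊢
  obtain ⟨hs0, hs⟩ := mem_rc.1 hs
  exact mem_rc.2 ⟨ht, fun r hr hrt => hs r hr (h.trans _ _ _ hr ht hs0 hrt hts)⟩

theorem RO_dense {u s : M} (hu : u ∈ RO P0 R) (hs : s ∈ P0)
    (hd : ∀ t, t ∈ P0 → pr t s ∈ R → ∃ r, r ∈ P0 ∧ pr r t ∈ R ∧ r ∈ u) : s ∈ u := by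
  obtain ⟨hu0, hu⟩ := mem_RO.1 hu
  rw [← hu]
  exact mem_rc.2 ⟨hs, hd⟩

theorem mem_RO' {u : M} : u ∈ RO P0 R ↔ u ≤ P0 ∧
    (∀ s t, s ∈ u → t ∈ P0 → pr t s ∈ R → t ∈ u) ∧
    (∀ s, s ∈ P0 → (∀ t, t ∈ P0 → pr t s ∈ R → ∃ r, r ∈ P0 ∧ pr r t ∈ R ∧ r ∈ u) →
      s ∈ u) := by
  constructor
  · intro hu
    exact ⟨(mem_RO.1 hu).1, fun s t hs ht hts => RO_lower h hu hs ht hts,
      fun s hs hd => RO_dense h hu hs hd⟩
  · rintro ⟨h1, h2, h3⟩
    refine mem_RO.2 ⟨h1, ext fun s => ⟨fun hs => ?_, fun hs => ?_⟩⟩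
    · obtain ⟨hs0, hs⟩ := mem_rc.1 hs
      exact h3 s hs0 hs
    · exact mem_rc.2 ⟨h1 s hs, fun t ht hts => ⟨t, ht, h.refl t ht, h2 s t hs ht hts⟩⟩

theorem cpl_mem_RO {u : M} (hu : ∀ s t, s ∈ u → t ∈ P0 → pr t s ∈ R → t ∈ u) :
    cpl P0 R u ∈ RO P0 R := by
  rw [mem_RO' h]
  refine ⟨fun s hs => (mem_cpl.1 hs).1, ?_, ?_⟩
  · intro s t hs ht hts
    obtain ⟨hs0, hs⟩ := mem_cpl.1 hs
    exact mem_cpl.2 ⟨ht, fun r hr hrt => hs r hr (h.trans _ _ _ hr ht hs0 hrt hts)⟩
  · intro s hs hd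
    refine mem_cpl.2 ⟨hs, fun t ht hts htu => ?_⟩
    obtain ⟨r, hr, hrt, hrc⟩ := hd t ht hts
    exact (mem_cpl.1 hrc).2 r hr (h.refl r hr) (hu t r htu hr hrt)

theorem cap_mem_RO {u v : M} (hu : u ∈ RO P0 R) (hv : v ∈ RO P0 R) :
    cap u v ∈ RO P0 R := by
  rw [mem_RO' h] at *
  refine ⟨fun s hs => hu.1 s (mem_cap.1 hs).1, ?_, ?_⟩
  · intro s t hs ht hts
    rw [mem_cap] at *
    exact ⟨hu.2.1 s t hs.1 ht hts, hv.2.1 s t hs.2 ht hts⟩
  · intro s hs hd
    rw [mem_cap]
    refine ⟨hu.2.2 s hs fun t ht hts => ?_, hv.2.2 s hs fun t ht hts => ?_⟩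
    · obtain ⟨r, hr, hrt, hrc⟩ := hd t ht hts
      exact ⟨r, hr, hrt, (mem_cap.1 hrc).1⟩
    · obtain ⟨r, hr, hrt, hrc⟩ := hd t ht hts
      exact ⟨r, hr, hrt, (mem_cap.1 hrc).2⟩

theorem P0_mem_RO : P0 ∈ RO P0 R := by
  rw [mem_RO' h]
  exact ⟨Sub.refl _, fun _ _ _ ht _ => ht, fun _ hs _ => hs⟩

theorem emp_mem_RO : emp ∈ RO P0 R := by
  rw [mem_RO' h]
  refine ⟨fun s hs => (not_mem_emp s hs).elim, fun s t hs => (not_mem_emp s hs).elim,
    fun s hs hd => ?_⟩
  obtain ⟨r, _, _, hr⟩ := hd s hs (h.refl s hs)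
  exact (not_mem_emp r hr).elim

/-- The Boolean algebra structure on the set of regular open sets. -/
@[instance_reducible]
noncomputable def roBA : BooleanAlgebra (El ZFModel.E (RO P0 R)) where
  le u v := u.1 ≤ v.1
  lt u v := u.1 ≤ v.1 ∧ ¬ v.1 ≤ u.1
  le_refl u := Sub.refl _
  le_trans u v w := Sub.trans
  lt_iff_le_not_ge u v := Iff.rfl
  le_antisymm u v h1 h2 := Subtype.ext (h1.antisymm h2)
  sup u v := ⟨rc P0 R (cup u.1 v.1), rc_mem_RO h _⟩
  inf u v := ⟨cap u.1 v.1, cap_mem_RO h u.2 v.2⟩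
  le_sup_left u v := fun s hs => by
    refine mem_rc.2 ⟨(mem_RO.1 u.2).1 s hs, fun t ht hts => ?_⟩
    exact ⟨t, ht, h.refl t ht, mem_cup.2 (Or.inl (RO_lower h u.2 hs ht hts))⟩
  le_sup_right u v := fun s hs => by
    refine mem_rc.2 ⟨(mem_RO.1 v.2).1 s hs, fun t ht hts => ?_⟩
    exact ⟨t, ht, h.refl t ht, mem_cup.2 (Or.inr (RO_lower h v.2 hs ht hts))⟩
  sup_le u v w h1 h2 := fun s hs => by
    obtain ⟨hs0, hs⟩ := mem_rc.1 hs
    refine RO_dense h w.2 hs0 (fun t ht hts => ?_)
    obtain ⟨r, hr, hrt, hrc⟩ := hs t ht hts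
    rw [mem_cup] at hrc
    exact ⟨r, hr, hrt, hrc.elim (h1 r) (h2 r)⟩
  inf_le_left u v := fun s hs => (mem_cap.1 hs).1
  inf_le_right u v := fun s hs => (mem_cap.1 hs).2
  le_inf u v w h1 h2 := fun s hs => mem_cap.2 ⟨h1 s hs, h2 s hs⟩
  le_sup_inf u v w := fun s hs => by
    obtain ⟨hs1, hs2⟩ := mem_cap.1 hs
    obtain ⟨hs0, hs1⟩ := mem_rc.1 hs1
    obtain ⟨-, hs2⟩ := mem_rc.1 hs2
    refine mem_rc.2 ⟨hs0, fun t ht hts => ?_⟩
    obtain ⟨r, hr, hrt, hrc⟩ := hs1 t ht hts
    rcases mem_cup.1 hrc with hru | hrv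
    · exact ⟨r, hr, hrt, mem_cup.2 (Or.inl hru)⟩
    · obtain ⟨q, hq, hqr, hqc⟩ := hs2 r hr (h.trans _ _ _ hr ht hs0 hrt hts)
      refine ⟨q, hq, h.trans _ _ _ hq hr ht hqr hrt, ?_⟩
      rcases mem_cup.1 hqc with hqu | hqw
      · exact mem_cup.2 (Or.inl hqu)
      · exact mem_cup.2 (Or.inr (mem_cap.2 ⟨RO_lower h v.2 hrv hq hqr, hqw⟩))
  compl u := ⟨cpl P0 R u.1, cpl_mem_RO h (fun s t hs ht hts => RO_lower h u.2 hs ht hts)⟩
  top := ⟨P0, P0_mem_RO h⟩
  bot := ⟨emp, emp_mem_RO h⟩
  le_top u := (mem_RO.1 u.2).1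
  bot_le u := fun s hs => (not_mem_emp s hs).elim
  inf_compl_le_bot u := fun s hs => by
    obtain ⟨hs1, hs2⟩ := mem_cap.1 hs
    obtain ⟨hs0, hs2⟩ := mem_cpl.1 hs2
    exact (hs2 s hs0 (h.refl s hs0) hs1).elim
  top_le_sup_compl u := fun s hs => by
    refine mem_rc.2 ⟨hs, fun t ht hts => ?_⟩
    by_cases ht' : ∃ r, r ∈ P0 ∧ pr r t ∈ R ∧ r ∈ u.1
    · obtain ⟨r, hr, hrt, hru⟩ := ht'
      exact ⟨r, hr, hrt, mem_cup.2 (Or.inl hru)⟩
    · push Not at ht'
      exact ⟨t, ht, h.refl t ht, mem_cup.2 (Or.inr (mem_cpl.2 ⟨ht, ht'⟩))⟩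

end

theorem roBA_complete {P0 R : M} (h : IsPre P0 R) :
    @IsCompleteBA M ZFModel.E (RO P0 R) (roBA h) := by
  let _ := roBA h
  intro s hs
  refine ⟨⟨rc P0 R (Un s), rc_mem_RO h _⟩, ?_, ?_⟩
  · intro u hu
    show u.1 ≤ rc P0 R (Un s)
    intro x hx
    refine mem_rc.2 ⟨(mem_RO.1 u.2).1 x hx, fun t ht hts => ?_⟩
    exact ⟨t, ht, h.refl t ht, mem_Un.2 ⟨u.1, hu, RO_lower h u.2 hx ht hts⟩⟩
  · intro w hw
    show rc P0 R (Un s) ≤ w.1
    intro x hx
    obtain ⟨hx0, hx⟩ := mem_rc.1 hx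
    refine RO_dense h w.2 hx0 (fun t ht hts => ?_)
    obtain ⟨r, hr, hrt, hrc⟩ := hx t ht hts
    obtain ⟨u, hu, hru⟩ := mem_Un.1 hrc
    exact ⟨r, hr, hrt, hw (a := ⟨u, hs u hu⟩) hu r hru⟩

/-- **Retraction lemma.**  Let `R ⊆ R'` be two preorders on `P0` such that `t ≤' s` implies that
some `t' ≤ s` has `t' ≤' t`.  If complete Boolean algebras are injective, then there is in `M`
a retraction of `RO P0 R` onto its subalgebra `RO P0 R'`. -/
theorem retraction (hI : Injectivity (ZFModel.E (M := M))) {P0 R R' : M}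
    (h : IsPre P0 R) (h' : IsPre P0 R')
    (hRR' : ∀ s t, s ∈ P0 → t ∈ P0 → pr s t ∈ R → pr s t ∈ R')
    (hC : ∀ s t, s ∈ P0 → t ∈ P0 → pr t s ∈ R' →
      ∃ t', t' ∈ P0 ∧ pr t' s ∈ R ∧ pr t' t ∈ R') :
    ∃ (r : M) (g : El ZFModel.E (RO P0 R) → El ZFModel.E (RO P0 R')),
      (∀ x y, g x = y ↔ pr x.1 y.1 ∈ r) ∧ (∀ u, u ∈ RO P0 R' → u ∈ RO P0 R) ∧
      (∀ x, x.1 ∈ RO P0 R' → (g x).1 = x.1) ∧
      (∀ x y z : El ZFModel.E (RO P0 R), z.1 = cap x.1 y.1 → (g z).1 = cap (g x).1 (g y).1) ∧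
      (∀ x y z : El ZFModel.E (RO P0 R), z.1 = rc P0 R (cup x.1 y.1) →
        (g z).1 = rc P0 R (cup (g x).1 (g y).1)) := by
  -- rc' = rc and cpl' = cpl on `R'`-lower sets
  have hrc : ∀ z : M, (∀ s t, s ∈ z → t ∈ P0 → pr t s ∈ R' → t ∈ z) →
      rc P0 R' z = rc P0 R z := by
    intro z hz
    apply ext
    intro s
    rw [mem_rc, mem_rc]
    refine and_congr_right (fun hs => ⟨fun H t ht hts => ?_, fun H t ht hts => ?_⟩)
    · obtain ⟨q, hq, hqt, hqz⟩ := H t ht (hRR' t s ht hs hts)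
      obtain ⟨q', hq', hqt', hqq⟩ := hC t q ht hq hqt
      exact ⟨q', hq', hqt', hz q q' hqz hq' hqq⟩
    · obtain ⟨t', ht', ht's, ht't⟩ := hC s t hs ht hts
      obtain ⟨q, hq, hqt', hqz⟩ := H t' ht' ht's
      exact ⟨q, hq, h'.trans _ _ _ hq ht' ht (hRR' _ _ hq ht' hqt') ht't, hqz⟩
  have hcpl : ∀ z : M, (∀ s t, s ∈ z → t ∈ P0 → pr t s ∈ R' → t ∈ z) →
      cpl P0 R' z = cpl P0 R z := by
    intro z hz
    apply ext
    intro s
    rw [mem_cpl, mem_cpl]
    refine and_congr_right (fun hs => ⟨fun H t ht hts => ?_, fun H t ht hts htz => ?_⟩)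
    · exact H t ht (hRR' t s ht hs hts)
    · obtain ⟨t', ht', ht's, ht't⟩ := hC s t hs ht hts
      exact H t' ht' ht's (hz t t' htz ht' ht't)
  have hsub : ∀ u : M, u ∈ RO P0 R' → u ∈ RO P0 R := by
    intro u hu
    have hl : ∀ s t, s ∈ u → t ∈ P0 → pr t s ∈ R' → t ∈ u :=
      fun s t hs ht hts => RO_lower h' hu hs ht hts
    obtain ⟨h1, h2⟩ := mem_RO.1 hu
    exact mem_RO.2 ⟨h1, by rw [← hrc u hl, h2]⟩
  have hlcup : ∀ u v : M, u ∈ RO P0 R' → v ∈ RO P0 R' →
      ∀ s t, s ∈ cup u v → t ∈ P0 → pr t s ∈ R' → t ∈ cup u v := by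
    intro u v hu hv s t hs ht hts
    rw [mem_cup] at *
    exact hs.imp (fun hs => RO_lower h' hu hs ht hts) (fun hs => RO_lower h' hv hs ht hts)
  let _ := roBA h
  let _ := roBA h'
  let A₀ : BooleanSubalgebra (El ZFModel.E (RO P0 R)) :=
    { carrier := {x | x.1 ∈ RO P0 R'}
      supClosed' := by
        intro x hx y hy
        show rc P0 R (cup x.1 y.1) ∈ RO P0 R'
        rw [← hrc _ (hlcup _ _ hx hy)]
        exact rc_mem_RO h' _
      infClosed' := by
        intro x hx y hy
        exact cap_mem_RO h' hx hy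
      compl_mem' := by
        intro x hx
        show cpl P0 R x.1 ∈ RO P0 R'
        have hl := fun s t hs ht hts => RO_lower h' hx (s := s) (t := t) hs ht hts
        rw [← hcpl _ hl]
        exact cpl_mem_RO h' hl
      bot_mem' := emp_mem_RO h' }
  let f : BoundedLatticeHom A₀ (El ZFModel.E (RO P0 R')) :=
    { toFun := fun x => ⟨x.1.1, x.2⟩
      map_sup' := by
        intro x y
        apply Subtype.ext
        show rc P0 R (cup x.1.1 y.1.1) = rc P0 R' (cup x.1.1 y.1.1)
        rw [hrc _ (hlcup _ _ x.2 y.2)]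
      map_inf' := by
        intro x y
        apply Subtype.ext
        rfl
      map_top' := by
        apply Subtype.ext
        rfl
      map_bot' := by
        apply Subtype.ext
        rfl }
  obtain ⟨g, hg, hgf⟩ := hI (RO P0 R') (isSetRel_of_dfn (P := fun x y => x ≤ y) dfn_sub)
    (roBA_complete h') (RO P0 R) (isSetRel_of_dfn (P := fun x y => x ≤ y) dfn_sub) A₀
    ⟨RO P0 R', fun x => Iff.rfl⟩ f (by
      obtain ⟨r, hr⟩ := exists_rel (P := fun x y : M => x = y) (by unfold Dfn₂; (repeat' (first | with_reducible apply DTm₂.app dtm_RO | with_reducible apply DTm₃.app dtm_cpl | with_reducible apply DTm₃.app dtm_rc | with_reducible apply DTm₂.app dtm_prod | with_reducible apply DTm₂.app dtm_cap | with_reducible apply DTm₂.app dtm_diff | with_reducible apply DTm₁.app dtm_Pow | with_reducible apply DTm₂.app dtm_ins | with_reducible apply DTm₂.app dtm_cup | with_reducible apply DTm₁.app dtm_Un | with_reducible apply DTm₂.app dtm_pr | with_reducible apply DTm₁.app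 dtm_sing | with_reducible apply DTm₂.app dtm_upair | with_reducible apply DTm.sep | with_reducible apply Dfn₂.app dfn_sub | with_reducible apply Dfn.all | with_reducible apply Dfn.ex | with_reducible apply Dfn.not | with_reducible apply Dfn.and | with_reducible apply Dfn.or | with_reducible apply Dfn.imp | with_reducible apply Dfn.iff | with_reducible apply Dfn.eq | with_reducible apply Dfn.mem | with_reducible exact DTm.var _ | with_reducible exact DTm.const _ | with_reducible exact Dfn.constProp _ | with_reducible apply DTm.wk | assumption)))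
        (RO P0 R) (RO P0 R')
      refine ⟨r, fun x y => ?_⟩
      rw [pairIn_iff, hr]
      constructor
      · intro hxy
        exact ⟨x.1.2, y.2, congrArg Subtype.val hxy⟩
      · rintro ⟨-, -, hxy⟩
        exact Subtype.ext hxy)
  rw [isSetRel_iff] at hg
  obtain ⟨r, hr⟩ := hg
  refine ⟨r, g, hr, hsub, ?_, ?_, ?_⟩
  · intro x hx
    have := hgf ⟨x, hx⟩
    rw [this]
    rfl
  · intro x y z hz
    have : z = x ⊓ y := Subtype.ext hz
    rw [this, map_inf]
    rfl
  · intro x y z hz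
    have : z = x ⊔ y := Subtype.ext hz
    rw [this, map_sup]
    show rc P0 R' (cup (g x).1 (g y).1) = _
    rw [hrc _ (hlcup _ _ (g x).2 (g y).2)]

end SIK
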